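import Pool.Agent.VFPP.Sign
import Pool.Agent.ZIso.SFT

/-!
# Koszul signs of permutations
-/

set_option autoImplicit false

namespace Pool.Agent.EFP

open Pool.Agent.ZIso Pool.Agent.VFPP

/-- the Koszul sign of the permutation `τ` of graded objects of the degrees `n i` -/
def kos {l : ℕ} (n : Fin l → ℕ) (τ : Equiv.Perm (Fin l)) : ℤ :=
  ∏ i, ∏ j with i < j ∧ τ j < τ i, (-1) ^ (n i * n j)

private theorem kos_eq {l : ℕ} (n : Fin l → ℕ) (τ : Equiv.Perm (Fin l)) :
    kos n τ = kz n (fun i => (τ i : ℕ)) Finset.univ := by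
  unfold kos kz
  rfl

theorem kos_sq {l : ℕ} (n : Fin l → ℕ) (τ : Equiv.Perm (Fin l)) : kos n τ * kos n τ = 1 := by
  rw [kos_eq]
  exact kz_sq _ _ _

private theorem kos_swap {l : ℕ} (n : Fin l → ℕ) (τ : Equiv.Perm (Fin l)) {a b : Fin l}
    (hab : a ≠ b) (hn : n a = n b) : kos n (τ * Equiv.swap a b) = (-1) ^ n a * kos n τ := by
  have h := kz_swap n (fun i => (τ i : ℕ)) Finset.univ
    (fun x _ y _ hxy => τ.injective (Fin.val_injective hxy)) (Finset.mem_univ a)
    (Finset.mem_univ b) hab hn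
  rw [kos_eq, kos_eq]
  exact h

private theorem kos_mul_aux {l : ℕ} (n : Fin l → ℕ) {J : Finset (Fin l)} {e : ℕ}
    (hJ : ∀ i ∈ J, n i = e) : ∀ (m : ℕ) (τ π : Equiv.Perm (Fin l)), π.support.card ≤ m →
    (∀ i ∉ J, π i = i) → kos n (τ * π) = ((Equiv.Perm.sign π : ℤ)) ^ e * kos n τ := by
  intro m
  induction m with
  | zero =>
    intro τ π hm _
    have h1 : π = 1 := by
      rw [← Equiv.Perm.card_support_eq_zero]
      omega
    rw [h1]
    simp
  | succ m ih =>
    intro τ π hm hπ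
    by_cases h1 : π = 1
    · rw [h1]
      simp
    obtain ⟨a, ha⟩ : ∃ a, π a ≠ a := by
      by_contra hcon
      push Not at hcon
      exact h1 (Equiv.ext hcon)
    have haJ : a ∈ J := by
      by_contra h
      exact ha (hπ a h)
    have hbJ : π a ∈ J := by
      by_contra h
      exact ha (π.injective (hπ _ h))
    have hlt := Equiv.Perm.card_support_swap_mul ha
    have h2 := ih (τ * Equiv.swap a (π a)) (Equiv.swap a (π a) * π) (by omega) (by
      intro i hi
      rw [Equiv.Perm.mul_apply, hπ i hi]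
      exact Equiv.swap_apply_of_ne_of_ne (fun h => hi (h ▸ haJ)) (fun h => hi (h ▸ hbJ)))
    have h3 : τ * Equiv.swap a (π a) * (Equiv.swap a (π a) * π) = τ * π := by
      rw [mul_assoc, ← mul_assoc (Equiv.swap a (π a)), Equiv.swap_mul_self, one_mul]
    rw [h3, kos_swap n τ ha.symm ((hJ _ haJ).trans (hJ _ hbJ).symm), hJ a haJ,
      Equiv.Perm.sign_mul, Equiv.Perm.sign_swap ha.symm] at h2
    rw [h2, ← mul_assoc, ← mul_pow]
    congr 2
    push_cast
    ring

/-- from `Pool.Agent.VFPP.kz_swap` (with `s = fun i => (τ i : ℕ)` and `J = univ`), by induction on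
`π`: the permutations in `fixing J` are products of transpositions of two elements of `J` -/
theorem kos_mul {l : ℕ} (n : Fin l → ℕ) (τ : Equiv.Perm (Fin l)) {J : Finset (Fin l)} {e : ℕ}
    (hJ : ∀ i ∈ J, n i = e) {π : Equiv.Perm (Fin l)} (hπ : π ∈ fixing J) :
    kos n (τ * π) = ((Equiv.Perm.sign π : ℤ)) ^ e * kos n τ := by
  refine kos_mul_aux n hJ _ τ π le_rfl ?_
  unfold fixing at hπ
  exact (Finset.mem_filter.1 hπ).2

end Pool.Agent.EFP
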