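import Pool.Agent.EFP.SubA
import Pool.Agent.TInf.GeoBasic

/-!
# The fibre product of some of the blocks
-/

set_option autoImplicit false

noncomputable section

namespace Pool.Agent.EFP

open Pool.Agent.ZCyc Pool.Agent.VFP Pool.Agent.TInf

universe u

variable {k : Type u} [Field k] [IsAlgClosed k] [CharZero k]

/-- the point with the coordinates `w` in the blocks in `S` and the zero section in the other
blocks -/
def SubDat.lift {Z : EF k} {S : Finset ℕ} (E : SubDat Z S) {K : Type*} [Field K]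
    (w : Crd E.N E.r K) : Pt K := by
  classical
  exact
  { s := w.s
    x := fun i => if h : ∃ a, (E.ι a : ℕ) = i then w.x h.choose else 1
    z := fun i => if h : ∃ a, (E.ι a : ℕ) = i then w.z h.choose else 0
    y := fun b => if h : ∃ a, E.κ a = b then w.y h.choose else 0 }

/-- the coordinates in the blocks in `S` -/
def SubDat.rest {Z : EF k} {S : Finset ℕ} (E : SubDat Z S) {K : Type*} (w : Pt K) :
    Crd E.N E.r K where
  s := w.s
  x a := w.x (E.ι a)
  z a := w.z (E.ι a)
  y b := w.y (E.κ b)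

private theorem prod_blk {Z : EF k} {S : Finset ℕ} (E : SubDat Z S) {M : Type*} [CommMonoid M]
    (g : Fin Z.N → M) (a : Fin E.r) :
    ∏ i with E.D.blk i = a, g (E.ι i) = ∏ i with (Z.D.blk i : ℕ) = E.κ a, g i := by
  have h := E.sum_blk (M := Additive M) (fun i => Additive.ofMul (g i)) a
  exact congrArg Additive.toMul h

private theorem lift_x {Z : EF k} {S : Finset ℕ} (E : SubDat Z S) {K : Type*} [Field K]
    (w : Crd E.N E.r K) (a : Fin E.N) : (E.lift w).x (E.ι a) = w.x a := by
  classical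
  have h : ∃ b, (E.ι b : ℕ) = E.ι a := ⟨a, rfl⟩
  unfold SubDat.lift
  simp only
  rw [dif_pos h, E.ι_mono.injective (Fin.ext h.choose_spec)]

private theorem lift_z {Z : EF k} {S : Finset ℕ} (E : SubDat Z S) {K : Type*} [Field K]
    (w : Crd E.N E.r K) (a : Fin E.N) : (E.lift w).z (E.ι a) = w.z a := by
  classical
  have h : ∃ b, (E.ι b : ℕ) = E.ι a := ⟨a, rfl⟩
  unfold SubDat.lift
  simp only
  rw [dif_pos h, E.ι_mono.injective (Fin.ext h.choose_spec)]

private theorem lift_y {Z : EF k} {S : Finset ℕ} (E : SubDat Z S) {K : Type*} [Field K]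
    (w : Crd E.N E.r K) (a : Fin E.r) : (E.lift w).y (E.κ a) = w.y a := by
  classical
  have h : ∃ b, E.κ b = E.κ a := ⟨a, rfl⟩
  unfold SubDat.lift
  simp only
  rw [dif_pos h, E.κ_mono.injective h.choose_spec]

private theorem not_ex {Z : EF k} {S : Finset ℕ} (E : SubDat Z S) {i : Fin Z.N}
    (hi : (Z.D.blk i : ℕ) ∉ S) : ¬ ∃ b, (E.ι b : ℕ) = i := by
  rintro ⟨b, hb⟩
  exact hi ((E.ι_range i).1 ⟨b, Fin.ext hb⟩)

private theorem lift_x_of {Z : EF k} {S : Finset ℕ} (E : SubDat Z S) {K : Type*} [Field K]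
    (w : Crd E.N E.r K) {i : Fin Z.N} (hi : (Z.D.blk i : ℕ) ∉ S) : (E.lift w).x i = 1 := by
  classical
  unfold SubDat.lift
  simp only
  rw [dif_neg (not_ex E hi)]

private theorem lift_z_of {Z : EF k} {S : Finset ℕ} (E : SubDat Z S) {K : Type*} [Field K]
    (w : Crd E.N E.r K) {i : Fin Z.N} (hi : (Z.D.blk i : ℕ) ∉ S) : (E.lift w).z i = 0 := by
  classical
  unfold SubDat.lift
  simp only
  rw [dif_neg (not_ex E hi)]

private theorem lift_y_of {Z : EF k} {S : Finset ℕ} (E : SubDat Z S) {K : Type*} [Field K]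
    (w : Crd E.N E.r K) {b : ℕ} (hb : b ∉ S) : (E.lift w).y b = 0 := by
  classical
  unfold SubDat.lift
  simp only
  rw [dif_neg fun h => hb ((E.κ_range b).1 h)]

theorem SubDat.onX_rest {Z : EF k} {S : Finset ℕ} (E : SubDat Z S) {w : Pt k} (h : Z.OnX w)
    (hS : ∀ b ∈ S, b < Z.r) : E.D.OnX (E.rest w) := by
  refine ⟨h.1, fun a => h.2.1 (E.ι a), fun b => ?_⟩
  have hb : E.κ b < Z.r := hS _ ((E.κ_range _).1 ⟨b, rfl⟩)
  have h1 := h.2.2 ⟨E.κ b, hb⟩
  have h2 : ∀ a, E.D.fac (E.rest w) a = Z.D.fac (w.crd Z.N Z.r) (E.ι a) := by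
    intro a
    unfold Dat.fac
    rw [E.A_eq, E.B_eq]
    rfl
  rw [Finset.prod_congr rfl fun a _ => h2 a, prod_blk E (fun i => Z.D.fac (w.crd Z.N Z.r) i)]
  refine h1.trans (Finset.prod_congr (Finset.filter_congr fun i _ => ?_) fun _ _ => rfl)
  rw [Fin.ext_iff]

/-- the relevant coordinates of `lift (rest w)` are the ones of `w` projected to the blocks in `S`
-/
theorem SubDat.lift_rest {Z : EF k} {S : Finset ℕ} (E : SubDat Z S) (hS : ∀ b ∈ S, b < Z.r)
    (w : Pt k) : (E.lift (E.rest w)).crd Z.N Z.r =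
      (Z.mul (fun b => if b ∈ S then 1 else 0) w).crd Z.N Z.r := by
  rw [crd_mul]
  refine Crd.ext rfl ?_ ?_ ?_
  · funext i
    show (E.lift (E.rest w)).x i = if (if (Z.D.blk i : ℕ) ∈ S then (1 : SignType) else 0) = 0
      then 1 else w.x i
    by_cases h : (Z.D.blk i : ℕ) ∈ S
    · obtain ⟨a, rfl⟩ := (E.ι_range i).2 h
      rw [lift_x, if_pos h, if_neg one_ne_zero]
      rfl
    · rw [lift_x_of E _ h, if_neg h, if_pos rfl]
  · funext i
    show (E.lift (E.rest w)).z i = if (if (Z.D.blk i : ℕ) ∈ S then (1 : SignType) else 0) = 0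
      then 0 else w.z i
    by_cases h : (Z.D.blk i : ℕ) ∈ S
    · obtain ⟨a, rfl⟩ := (E.ι_range i).2 h
      rw [lift_z, if_pos h, if_neg one_ne_zero]
      rfl
    · rw [lift_z_of E _ h, if_neg h, if_pos rfl]
  · funext b
    show (E.lift (E.rest w)).y b =
      (((if (b : ℕ) ∈ S then (1 : SignType) else 0 : SignType) : ℤ) : k) * w.y b
    by_cases h : (b : ℕ) ∈ S
    · obtain ⟨a, ha⟩ := (E.κ_range b).2 h
      rw [if_pos h, ← ha, lift_y]
      simp
      rfl
    · rw [lift_y_of E _ h, if_neg h]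
      simp

private theorem onX_lift {Z : EF k} {S : Finset ℕ} (E : SubDat Z S) {K : Type*} [Field K]
    [Algebra k K] {w : Crd E.N E.r K} (h : E.D.OnX w) : Z.OnX (E.lift w) := by
  refine ⟨h.1, fun i => ?_, fun b => ?_⟩
  · show (E.lift w).x i ≠ 0 ∨ (E.lift w).z i ≠ 0
    by_cases hi : (Z.D.blk i : ℕ) ∈ S
    · obtain ⟨a, rfl⟩ := (E.ι_range i).2 hi
      rw [lift_x, lift_z]
      exact h.2.1 a
    · left
      rw [lift_x_of E _ hi]
      exact one_ne_zero
  · show (E.lift w).y b ^ 2 = _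
    by_cases hb : (b : ℕ) ∈ S
    · obtain ⟨a, ha⟩ := (E.κ_range b).2 hb
      rw [← ha, lift_y, h.2.2 a]
      have h2 : ∀ a, E.D.fac w a = Z.D.fac ((E.lift w).crd Z.N Z.r) (E.ι a) := by
        intro a
        unfold Dat.fac
        rw [E.A_eq, E.B_eq]
        show _ = (E.lift w).z (E.ι a) * ((E.lift w).x (E.ι a) ^ 3 + MvPolynomial.aeval w.s
          (Z.D.A (E.ι a)) * (E.lift w).x (E.ι a) * (E.lift w).z (E.ι a) ^ 2 +
          MvPolynomial.aeval w.s (Z.D.B (E.ι a)) * (E.lift w).z (E.ι a) ^ 3)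
        rw [lift_x, lift_z]
      rw [Finset.prod_congr rfl fun a _ => h2 a,
        prod_blk E (fun i => Z.D.fac ((E.lift w).crd Z.N Z.r) i)]
      refine Finset.prod_congr (Finset.filter_congr fun i _ => ?_) fun _ _ => rfl
      rw [Fin.ext_iff, ha]
    · rw [lift_y_of E _ hb]
      obtain ⟨i, hi⟩ := Z.surj b
      have h2 : Z.D.fac ((E.lift w).crd Z.N Z.r) i = 0 := by
        have h3 : (E.lift w).z i = 0 := lift_z_of E _ (by rw [hi]; exact hb)
        unfold Dat.fac
        show (E.lift w).z i * _ = 0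
        rw [h3, zero_mul]
      rw [Finset.prod_eq_zero (Finset.mem_filter.2 ⟨Finset.mem_univ i, hi⟩) h2]
      exact zero_pow two_ne_zero

private theorem lift_map {Z : EF k} {S : Finset ℕ} (E : SubDat Z S)
    (g : Om k ≃ₐ[RatFunc k] Om k) (w : Crd E.N E.r (Om k)) :
    E.lift (w.map g) = (E.lift w).map g := by
  classical
  refine Pt.ext rfl ?_ ?_ ?_
  · funext i
    show (if h : ∃ a, (E.ι a : ℕ) = i then g (w.x h.choose) else 1) =
      g (if h : ∃ a, (E.ι a : ℕ) = i then w.x h.choose else 1)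
    split_ifs
    · rfl
    · exact (map_one g).symm
  · funext i
    show (if h : ∃ a, (E.ι a : ℕ) = i then g (w.z h.choose) else 0) =
      g (if h : ∃ a, (E.ι a : ℕ) = i then w.z h.choose else 0)
    split_ifs
    · rfl
    · exact (map_zero g).symm
  · funext b
    show (if h : ∃ a, E.κ a = b then g (w.y h.choose) else 0) =
      g (if h : ∃ a, E.κ a = b then w.y h.choose else 0)
    split_ifs
    · rfl
    · exact (map_zero g).symm

private theorem wy_eq {Z : EF k} {S : Finset ℕ} (E : SubDat Z S) (a : Fin E.r) {b : Fin Z.r}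
    (hb : E.κ a = b) : E.D.wy a = Z.D.wy b := by
  unfold Dat.wy
  rw [Finset.sum_congr rfl fun i _ => E.deg_eq i, E.sum_blk (fun i => Z.D.deg i)]
  congr 3
  refine Finset.filter_congr fun i _ => ?_
  rw [Fin.ext_iff, hb]

private theorem isValue_lift {Z : EF k} {S : Finset ℕ} (E : SubDat Z S) {v : Place k (Om k)}
    {P : Crd E.N E.r (Om k)} {p : Crd E.N E.r k} (h : E.D.IsValue v P p) (hp : E.D.OnX p) :
    Z.IsValue v (E.lift P) (E.lift p) := by
  classical
  obtain ⟨c, m, h1, h2, h3, h4⟩ := h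
  have hc : c ≠ 0 := by
    rintro rfl
    apply hp.1
    funext j
    have h5 := h1 j
    have e : (E.D.scale 0 m P).s j = algebraMap k (Om k) 0 := by
      simp [Dat.scale]
    rw [e] at h5
    have h6 : v.At (algebraMap k (Om k) 0) (p.s j) := h5
    have h7 : p.s j = 0 := (Place.At.unique h6 (Place.at_const 0)).symm ▸ rfl
    exact h7
  set m' : Fin Z.N → Om k := fun i =>
    if h : ∃ a, E.ι a = i then m h.choose else (c ^ Z.D.deg i)⁻¹ with hm'
  have hm1 : ∀ a, m' (E.ι a) = m a := by
    intro a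
    have h : ∃ b, E.ι b = E.ι a := ⟨a, rfl⟩
    rw [hm']
    simp only
    rw [dif_pos h, E.ι_mono.injective h.choose_spec]
  have hm2 : ∀ i, (Z.D.blk i : ℕ) ∉ S → m' i = (c ^ Z.D.deg i)⁻¹ := by
    intro i hi
    rw [hm']
    simp only
    rw [dif_neg fun h => hi ((E.ι_range i).1 h)]
  refine ⟨c, m', ?_, ?_, ?_, ?_⟩
  · intro j
    exact h1 j
  · intro i
    show v.At (c ^ Z.D.deg i * m' i * (E.lift P).x i) ((E.lift p).x i)
    by_cases hi : (Z.D.blk i : ℕ) ∈ S
    · obtain ⟨a, rfl⟩ := (E.ι_range i).2 hi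
      rw [lift_x, lift_x, hm1, ← E.deg_eq]
      exact h2 a
    · rw [lift_x_of E _ hi, lift_x_of E _ hi, hm2 i hi, mul_one,
        mul_inv_cancel₀ (pow_ne_zero _ hc)]
      exact at_one
  · intro i
    show v.At (m' i * (E.lift P).z i) ((E.lift p).z i)
    by_cases hi : (Z.D.blk i : ℕ) ∈ S
    · obtain ⟨a, rfl⟩ := (E.ι_range i).2 hi
      rw [lift_z, lift_z, hm1]
      exact h3 a
    · rw [lift_z_of E _ hi, lift_z_of E _ hi, mul_zero]
      exact at_zero
  · intro b
    show v.At (c ^ Z.D.wy b * (∏ i with Z.D.blk i = b, m' i) ^ 2 * (E.lift P).y b)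
      ((E.lift p).y b)
    by_cases hb : (b : ℕ) ∈ S
    · obtain ⟨a, ha⟩ := (E.κ_range b).2 hb
      have h5 : ∏ i with Z.D.blk i = b, m' i = ∏ i with E.D.blk i = a, m i := by
        rw [← Finset.prod_congr rfl fun i _ => hm1 i, prod_blk E m']
        refine Finset.prod_congr (Finset.filter_congr fun i _ => ?_) fun _ _ => rfl
        rw [Fin.ext_iff, ha]
      rw [h5, ← wy_eq E a ha, ← ha, lift_y, lift_y]
      exact h4 a
    · rw [lift_y_of E _ hb, lift_y_of E _ hb, mul_zero]
      exact at_zero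

/-- the constant point -/
private def pcst (w : Pt k) : Pt (Om k) where
  s j := algebraMap k (Om k) (w.s j)
  x i := algebraMap k (Om k) (w.x i)
  z i := algebraMap k (Om k) (w.z i)
  y b := algebraMap k (Om k) (w.y b)

private theorem pcst_map (g : Om k ≃ₐ[RatFunc k] Om k) (w : Pt k) :
    pcst w = (pcst w).map g := by
  have h : ∀ c : k, algebraMap k (Om k) c = g (algebraMap k (Om k) c) := by
    intro c
    rw [IsScalarTower.algebraMap_apply k (RatFunc k) (Om k), g.commutes]
  refine Pt.ext ?_ ?_ ?_ ?_ <;> funext j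
  · exact h _
  · exact h _
  · exact h _
  · exact h _

private theorem pcst_crd (N r : ℕ) (w : Pt k) : (pcst w).crd N r = cst (Om k) (w.crd N r) := rfl

private theorem onX_pcst {Z : EF k} {w : Pt k} (h : Z.OnX w) : Z.OnX (pcst w) := by
  unfold EF.OnX at h ⊢
  rw [pcst_crd]
  exact onX_cst h

private theorem isValue_pcst (Z : EF k) (v : Place k (Om k)) (w : Pt k) :
    Z.IsValue v (pcst w) w := by
  unfold EF.IsValue
  rw [pcst_crd]
  exact isValue_cst v _

/-- Insertion of the `n`-tuples of points of the variety with the data `E.D` into a product, at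
the positions `c a`; the other factors are constant. -/
theorem SubDat.ins_mem {m n : ℕ} {X : Fin m → EF k} {Z : EF k} {S : Finset ℕ} (E : SubDat Z S)
    (hS : ∀ b ∈ S, b < Z.r) (c : Fin n ↪ Fin m) (hc : ∀ a, X (c a) = Z) {x : Pts m k}
    (hx : OnP X x) {z : (Fin n → Crd E.N E.r k) →₀ ℚ} (hz : z ∈ ratN E.D n) :
    (z.mapDomain fun w : Fin n → Crd E.N E.r k =>
      (fun j => if h : ∃ a, c a = j then E.lift (w h.choose) else x j : Pts m k)) ∈ ratEqP X := by
  classical
  have hX : ∀ {j : Fin m}, (∃ a, c a = j) → X j = Z := by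
    rintro j ⟨a, rfl⟩
    exact hc a
  have key : ratN E.D n ≤ (ratEqP X).comap (Finsupp.lmapDomain ℚ ℚ
      (fun w : Fin n → Crd E.N E.r k =>
        (fun j => if h : ∃ a, c a = j then E.lift (w h.choose) else x j : Pts m k))) := by
    unfold ratN
    rw [Submodule.span_le]
    rintro z ⟨l, P, a, b, v, w, p, q, hOn, hG, hv, hw, hp, hq, rfl⟩
    refine Submodule.subset_span ⟨l,
      fun t j => if h : ∃ a, c a = j then E.lift (P t h.choose) else pcst (x j), a, b, v, w,
      fun t j => if h : ∃ a, c a = j then E.lift (p t h.choose) else x j,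
      fun t j => if h : ∃ a, c a = j then E.lift (q t h.choose) else x j,
      fun t j => ?_, fun g => ?_, hv, hw, fun t => ⟨fun j => ?_, fun j => ?_⟩,
      fun t => ⟨fun j => ?_, fun j => ?_⟩, ?_⟩
    · beta_reduce
      by_cases h : ∃ a, c a = j
      · rw [dif_pos h, hX h]
        exact onX_lift E (hOn t _)
      · rw [dif_neg h]
        exact onX_pcst (hx j)
    · obtain ⟨e, he⟩ := hG g
      refine ⟨e, fun t j => ?_⟩
      beta_reduce
      by_cases h : ∃ a, c a = j
      · rw [dif_pos h, dif_pos h, he t]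
        exact lift_map E g _
      · rw [dif_neg h, dif_neg h]
        exact pcst_map g (x j)
    · beta_reduce
      by_cases h : ∃ a, c a = j
      · rw [dif_pos h, hX h]
        exact onX_lift E (hp t _).1
      · rw [dif_neg h]
        exact hx j
    · beta_reduce
      by_cases h : ∃ a, c a = j
      · rw [dif_pos h, dif_pos h, hX h]
        exact isValue_lift E (hp t _).2 (hp t _).1
      · rw [dif_neg h, dif_neg h]
        exact isValue_pcst (X j) v (x j)
    · beta_reduce
      by_cases h : ∃ a, c a = j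
      · rw [dif_pos h, hX h]
        exact onX_lift E (hq t _).1
      · rw [dif_neg h]
        exact hx j
    · beta_reduce
      by_cases h : ∃ a, c a = j
      · rw [dif_pos h, dif_pos h, hX h]
        exact isValue_lift E (hq t _).2 (hq t _).1
      · rw [dif_neg h, dif_neg h]
        exact isValue_pcst (X j) w (x j)
    · rw [map_sum]
      refine Finset.sum_congr rfl fun t _ => ?_
      rw [map_sub, Finsupp.lmapDomain_apply, Finsupp.lmapDomain_apply, Finsupp.mapDomain_single,
        Finsupp.mapDomain_single]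
  exact key hz

end Pool.Agent.EFP
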