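import Pool.Agent.EFP.E
import Pool.Agent.EFP.Sub

/-!
# The classes `eP` and the insertion maps
-/

set_option autoImplicit false

noncomputable section

namespace Pool.Agent.EFP

open Pool.Agent.ZCyc Pool.Agent.VFP Pool.Agent.TInf

universe u

variable {k : Type u} [Field k] [IsAlgClosed k] [CharZero k] {m : ℕ} {X : Fin m → EF k}

/-- the insertion on the level of classes (`SubDat.ins_mem`) -/
def insV {n : ℕ} {Z : EF k} {S : Finset ℕ} (E : SubDat Z S) (hS : ∀ b ∈ S, b < Z.r)
    (c : Fin n ↪ Fin m) (hc : ∀ a, X (c a) = Z) {x : Pts m k} (hx : OnP X x) :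
    VN E.D n →ₗ[ℚ] VP X := by
  classical
  exact (ratN E.D n).mapQ (ratEqP X) (Finsupp.lmapDomain ℚ ℚ fun w : Fin n → Crd E.N E.r k =>
      (fun j => if h : ∃ a, c a = j then E.lift (w h.choose) else x j : Pts m k))
    fun _ hz => E.ins_mem hS c hc hx hz

private def sgt (e : ℤˣ) : SignType := if e = 1 then 1 else -1

private theorem sgt_int (e : ℤˣ) : ((sgt e : SignType) : ℤ) = (e : ℤ) := by
  rcases Int.units_eq_one_or e with h | h
  · subst h
    rfl
  · subst h
    rfl

private theorem sgt_ne (e : ℤˣ) : sgt e ≠ 0 := by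
  rcases Int.units_eq_one_or e with h | h
  · subst h
    decide
  · subst h
    decide

open Classical in
/-- the signs -/
private def dl {n : ℕ} {Z : EF k} {S : Finset ℕ} (E : SubDat Z S) (c : Fin n ↪ Fin m)
    (ε : Fin n → Fin E.r → ℤˣ) (j : Fin m) (b : ℕ) : SignType :=
  if h : ∃ p : Fin n × Fin E.r, c p.1 = j ∧ E.κ p.2 = b then sgt (ε h.choose.1 h.choose.2) else 1

section

variable {n : ℕ} {Z : EF k} {S : Finset ℕ} (E : SubDat Z S) (c : Fin n ↪ Fin m)

omit [IsAlgClosed k] [CharZero k] in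
private theorem dl_eq (ε : Fin n → Fin E.r → ℤˣ) (a : Fin n) (b : Fin E.r) :
    dl E c ε (c a) (E.κ b) = sgt (ε a b) := by
  have h : ∃ p : Fin n × Fin E.r, c p.1 = c a ∧ E.κ p.2 = E.κ b := ⟨(a, b), rfl, rfl⟩
  unfold dl
  rw [dif_pos h]
  rw [c.injective h.choose_spec.1, E.κ_mono.injective h.choose_spec.2]

omit [IsAlgClosed k] [CharZero k] in
private theorem dl_one (ε : Fin n → Fin E.r → ℤˣ) {j : Fin m} (hj : ∀ a, c a ≠ j) (b : ℕ) :
    dl E c ε j b = 1 := by
  unfold dl
  rw [dif_neg]
  rintro ⟨p, hp, -⟩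
  exact hj _ hp

omit [IsAlgClosed k] [CharZero k] in
private theorem dl_ne (ε : Fin n → Fin E.r → ℤˣ) (j : Fin m) (b : ℕ) : dl E c ε j b ≠ 0 := by
  unfold dl
  split_ifs
  · exact sgt_ne _
  · exact one_ne_zero

omit [IsAlgClosed k] [CharZero k] in
private theorem dl_mul (ε fl : Fin n → Fin E.r → ℤˣ) {j : Fin m} {b : ℕ}
    (h : ∀ p : Fin n × Fin E.r, c p.1 = j → E.κ p.2 = b → fl p.1 p.2 = 1) :
    dl E c (ε * fl) j b = dl E c ε j b := by
  unfold dl
  split_ifs with h1
  · rw [Pi.mul_apply, Pi.mul_apply, h _ h1.choose_spec.1 h1.choose_spec.2, mul_one]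
  · rfl

private theorem snN_eq {n r : ℕ} (ε : Fin n → Fin r → ℤˣ) :
    snN ε = ∏ p : Fin n × Fin r, (((ε p.1 p.2 : ℤˣ) : ℤ) : ℚ) := by
  rw [Fintype.prod_prod_type]
  rfl

private theorem snN_mul {n r : ℕ} (ε ε' : Fin n → Fin r → ℤˣ) :
    snN (ε * ε') = snN ε * snN ε' := by
  rw [snN_eq, snN_eq, snN_eq, ← Finset.prod_mul_distrib]
  refine Finset.prod_congr rfl fun p _ => ?_
  rw [Pi.mul_apply, Pi.mul_apply, Units.val_mul, Int.cast_mul]

private theorem snN_sq {n r : ℕ} (ε : Fin n → Fin r → ℤˣ) : snN ε * snN ε = 1 := by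
  rw [snN_eq, ← Finset.prod_mul_distrib]
  refine Finset.prod_eq_one fun p _ => ?_
  rcases Int.units_eq_one_or (ε p.1 p.2) with h | h <;> rw [h] <;> norm_num

omit [IsAlgClosed k] [CharZero k] in
private theorem prod_dl {T : Finset (Fin m × ℕ)} (hF : ∀ a, fib T (c a) = S)
    (ε : Fin n → Fin E.r → ℤˣ) :
    (∏ p ∈ T, (((dl E c ε p.1 p.2 : SignType) : ℤ) : ℚ)) = snN ε := by
  classical
  have hmem : ∀ p : Fin n × Fin E.r, (c p.1, E.κ p.2) ∈ T := by
    intro p
    rw [← mem_fib, hF, ← E.κ_range]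
    exact ⟨_, rfl⟩
  have hinj : Function.Injective fun p : Fin n × Fin E.r => (c p.1, E.κ p.2) := by
    rintro ⟨a, b⟩ ⟨a', b'⟩ h
    have h1 := (Prod.ext_iff.1 h).1
    have h2 := (Prod.ext_iff.1 h).2
    exact Prod.ext (c.injective h1) (E.κ_mono.injective h2)
  rw [snN_eq]
  have h1 : (Finset.univ.image fun p : Fin n × Fin E.r => (c p.1, E.κ p.2)) ⊆ T := by
    intro q hq
    obtain ⟨p, -, rfl⟩ := Finset.mem_image.1 hq
    exact hmem p
  rw [← Finset.prod_subset h1, Finset.prod_image fun p _ q _ h => hinj h]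
  · refine Finset.prod_congr rfl fun p _ => ?_
    simp only
    rw [dl_eq, sgt_int]
  · rintro ⟨j, b⟩ hT hq
    have hj : ∀ a, c a ≠ j := by
      rintro a rfl
      have h2 : b ∈ S := by
        rw [← hF a, mem_fib]
        exact hT
      obtain ⟨b', rfl⟩ := (E.κ_range b).2 h2
      exact hq (Finset.mem_image.2 ⟨(a, b'), Finset.mem_univ _, rfl⟩)
    simp only
    rw [dl_one E c ε hj]
    norm_num

/-- changes of signs of the coordinates `y_b`, `b ∈ S` -/
private theorem crd_aux {Z' : EF k} (h : Z' = Z) (hS : ∀ b ∈ S, b < Z.r)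
    {δ : ℕ → SignType} (hδ : ∀ b, δ b ≠ 0) (ε : Fin E.r → ℤˣ) (hε : ∀ b, δ (E.κ b) = sgt (ε b))
    {u : ℕ → SignType} (hu : ∀ b, u b = if b ∈ S then 1 else 0) (w : Pt k) :
    (Z'.mul u (Z'.mul δ w)).crd Z'.N Z'.r = (E.lift (sg ε (E.rest w))).crd Z'.N Z'.r := by
  subst h
  have h1 : sg ε (E.rest w) = E.rest (Z'.mul δ w) := by
    refine Crd.ext rfl ?_ ?_ ?_
    · funext a
      show w.x (E.ι a) = if δ (Z'.bk (E.ι a)) = 0 then 1 else w.x (E.ι a)
      rw [if_neg (hδ _)]
    · funext a
      show w.z (E.ι a) = if δ (Z'.bk (E.ι a)) = 0 then 0 else w.z (E.ι a)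
      rw [if_neg (hδ _)]
    · funext b
      show (((ε b : ℤˣ) : ℤ) : k) * w.y (E.κ b) = (((δ (E.κ b) : SignType) : ℤ) : k) * w.y (E.κ b)
      rw [hε, sgt_int]
  have h2 : u = fun b => if b ∈ S then 1 else 0 := funext hu
  rw [h1, E.lift_rest hS, h2]

end

/-- Since `eP_mul` shows that sign changes in `(c a, b)`, `b ∈ S`, multiply `eP X T y` by the
product of the signs, `2 ^ (n * E.r) • eP X T y` is the alternating sum of the classes `eP X T` of
all points obtained from `y` by such sign changes. Write `eP X T` as a sum over `U ⊆ T`. If `(c a,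
b) ∉ U` for some `a` and some `b ∈ S` then the change of the sign in `(c a, b)` does not change the
point `π_U y'`, and the alternating sum is zero. For the other `U` one gets the image of `TN`. -/
theorem eP_eq_insV {T : Finset (Fin m × ℕ)} (hT : T ⊆ blocks X) {n : ℕ} {Z : EF k}
    {S : Finset ℕ} (E : SubDat Z S) (hS : ∀ b ∈ S, b < Z.r) (c : Fin n ↪ Fin m)
    (hc : ∀ a, X (c a) = Z) (hF : ∀ a, fib T (c a) = S) {y : Pts m k} (hy : OnP X y) :
    ((2 : ℚ) ^ (n * E.r)) • eP X T y =
      ∑ U ∈ (T.filter fun p => ∀ a, c a ≠ p.1).powerset,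
        ((-1 : ℚ) ^ ((T.filter fun p => ∀ a, c a ≠ p.1) \ U).card) •
          insV E hS c hc (onP_proj hy U) (TN E.D fun a => E.rest (y (c a))) := by
  classical
  have h1 : ((2 : ℚ) ^ (n * E.r)) • eP X T y =
      ∑ ε : Fin n → Fin E.r → ℤˣ, snN ε • eP X T (mulP X (dl E c ε) y) := by
    have h2 : ∀ ε : Fin n → Fin E.r → ℤˣ,
        snN ε • eP X T (mulP X (dl E c ε) y) = eP X T y := by
      intro ε
      rw [eP_mul hT hy, prod_dl E c hF, smul_smul, snN_sq, one_smul]
    rw [Finset.sum_congr rfl fun ε _ => h2 ε, Finset.sum_const, Finset.card_univ,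
      ← Nat.cast_smul_eq_nsmul ℚ]
    congr 1
    simp only [Fintype.card_fun, Fintype.card_fin, Fintype.card_units_int]
    push_cast
    rw [← pow_mul, mul_comm]
  let G : Finset (Fin m × ℕ) → VP X := fun U =>
    ∑ ε : Fin n → Fin E.r → ℤˣ, snN ε • clP X (proj X U (mulP X (dl E c ε) y))
  have h2 : ((2 : ℚ) ^ (n * E.r)) • eP X T y =
      ∑ U ∈ T.powerset, ((-1 : ℚ) ^ (T \ U).card) • G U := by
    rw [h1]
    simp only [eP, G, Finset.smul_sum]
    rw [Finset.sum_comm]
    refine Finset.sum_congr rfl fun U _ => Finset.sum_congr rfl fun ε _ => ?_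
    rw [smul_comm]
  -- the terms which cancel
  have h3 : ∀ U : Finset (Fin m × ℕ), ∀ (a : Fin n) (b : Fin E.r), (c a, E.κ b) ∉ U →
      G U = 0 := by
    intro U a b hU
    let fl : Fin n → Fin E.r → ℤˣ := fun a' b' => if (a', b') = (a, b) then -1 else 1
    have hfl : snN fl = -1 := by
      rw [snN_eq, Finset.prod_eq_single (a, b)]
      · simp [fl]
      · rintro ⟨a', b'⟩ - hne
        simp only [fl]
        rw [if_neg hne]
        norm_num
      · intro h
        exact absurd (Finset.mem_univ _) h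
    have hcl : ∀ ε : Fin n → Fin E.r → ℤˣ, proj X U (mulP X (dl E c (ε * fl)) y) =
        proj X U (mulP X (dl E c ε) y) := by
      intro ε
      rw [proj_eq, proj_eq, mulP_mulP, mulP_mulP]
      congr 1
      funext j b'
      split_ifs with h4
      · rw [dl_mul]
        intro p hp1 hp2
        simp only [fl]
        rw [if_neg]
        intro h5
        apply hU
        have h6 : p.1 = a := (Prod.ext_iff.1 h5).1
        have h7 : p.2 = b := (Prod.ext_iff.1 h5).2
        rw [← h6, ← h7, hp1, hp2]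
        exact h4
      · rw [zero_mul, zero_mul]
    have h4 : G U = - G U := by
      conv_lhs =>
        simp only [G]
        rw [← Equiv.sum_comp (Equiv.mulRight fl)]
      simp only [G]
      rw [← Finset.sum_neg_distrib]
      refine Finset.sum_congr rfl fun ε _ => ?_
      rw [Equiv.coe_mulRight, snN_mul, hfl, hcl, mul_neg_one, neg_smul]
    have h5 : (2 : ℚ) • G U = 0 := by
      rw [two_smul]
      nth_rewrite 1 [h4]
      rw [neg_add_cancel]
    exact (smul_eq_zero.1 h5).resolve_left two_ne_zero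
  -- the other terms
  let Q : Finset (Fin m × ℕ) := T.filter fun p => ¬ ∀ a, c a ≠ p.1
  let R : Finset (Fin m × ℕ) := T.filter fun p => ∀ a, c a ≠ p.1
  have hQ : ∀ p ∈ Q, ∃ a b, p = (c a, E.κ b) := by
    rintro ⟨j, b⟩ hp
    obtain ⟨hp1, hp2⟩ := Finset.mem_filter.1 hp
    push Not at hp2
    obtain ⟨a, rfl⟩ := hp2
    have h4 : b ∈ S := by
      rw [← hF a, mem_fib]
      exact hp1
    obtain ⟨b', rfl⟩ := (E.κ_range b).2 h4
    exact ⟨a, b', rfl⟩
  have hsub : (R.powerset.image fun U => U ∪ Q) ⊆ T.powerset := by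
    intro V hV
    obtain ⟨U, hU, rfl⟩ := Finset.mem_image.1 hV
    rw [Finset.mem_powerset] at hU ⊢
    exact Finset.union_subset (hU.trans (Finset.filter_subset _ _)) (Finset.filter_subset _ _)
  have hdis : ∀ U ∈ R.powerset, ∀ p ∈ U, p ∉ Q := by
    intro U hU p hp hp'
    rw [Finset.mem_powerset] at hU
    exact (Finset.mem_filter.1 hp').2 (Finset.mem_filter.1 (hU hp)).2
  rw [h2, ← Finset.sum_subset hsub, Finset.sum_image]
  · refine Finset.sum_congr rfl fun U hU => ?_
    have hUR := Finset.mem_powerset.1 hU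
    have e1 : T \ (U ∪ Q) = R \ U := by
      ext p
      simp only [Finset.mem_sdiff, Finset.mem_union, Finset.mem_filter, Q, R]
      tauto
    rw [e1]
    congr 1
    simp only [G]
    unfold TN
    rw [map_sum]
    refine Finset.sum_congr rfl fun ε _ => ?_
    rw [map_smul]
    congr 1
    have e2 : insV E hS c hc (onP_proj hy U) (cN E.D fun j => sg (ε j) (E.rest (y (c j)))) =
        clP X (fun j => if h : ∃ a, c a = j then
          E.lift (sg (ε h.choose) (E.rest (y (c h.choose)))) else proj X U y j) := by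
      have e3 : insV E hS c hc (onP_proj hy U) (cN E.D fun j => sg (ε j) (E.rest (y (c j)))) =
          Submodule.Quotient.mk (Finsupp.mapDomain (fun w : Fin n → Crd E.N E.r k =>
            (fun j => if h : ∃ a, c a = j then E.lift (w h.choose) else proj X U y j : Pts m k))
            (Finsupp.single (fun j => sg (ε j) (E.rest (y (c j)))) 1)) := rfl
      rw [e3, Finsupp.mapDomain_single]
      rfl
    rw [e2]
    refine clP_crd (onP_proj (onP_mulP hy _) _) fun j => ?_
    beta_reduce
    split_ifs with h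
    · obtain ⟨a, ha⟩ : ∃ a, a = h.choose := ⟨_, rfl⟩
      have ha' : c a = j := ha ▸ h.choose_spec
      rw [← ha]
      subst ha'
      refine crd_aux E (hc a) hS (fun b => dl_ne E c ε (c a) b) (ε a)
        (fun b => dl_eq E c ε a b) (fun b => ?_) (y (c a))
      have e3 : ((c a, b) ∈ U ∪ Q) ↔ b ∈ S := by
        constructor
        · intro h4
          rw [← hF a, mem_fib]
          exact Finset.mem_powerset.1 (hsub (Finset.mem_image_of_mem _ hU)) h4
        · intro h4
          refine Finset.mem_union_right _ (Finset.mem_filter.2 ⟨?_, ?_⟩)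
          · rw [← mem_fib, hF]
            exact h4
          · intro h5
            exact h5 a rfl
      simp only [e3]
    · push Not at h
      have e4 : proj X (U ∪ Q) (mulP X (dl E c ε) y) j = proj X U y j := by
        rw [proj_eq, proj_eq, mulP_mulP]
        unfold mulP
        congr 1
        funext b
        beta_reduce
        rw [dl_one E c ε h, mul_one]
        have e5 : (j, b) ∉ Q := by
          intro h5
          obtain ⟨a, b', h6⟩ := hQ _ h5
          exact h a (Prod.ext_iff.1 h6).1.symm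
        simp only [Finset.mem_union, e5, or_false]
      rw [e4]
  · intro U hU V hV h
    have h4 : ∀ {A : Finset (Fin m × ℕ)}, A ∈ R.powerset → (A ∪ Q) \ Q = A := by
      intro A hA
      rw [Finset.union_sdiff_right]
      exact Finset.sdiff_eq_self_of_disjoint (Finset.disjoint_left.2 fun p hp => hdis A hA p hp)
    rw [← h4 (Finset.mem_coe.1 hU), ← h4 (Finset.mem_coe.1 hV)]
    simp only at h
    rw [h]
  · intro U hU hU'
    have h4 : ¬ Q ⊆ U := by
      intro h5
      apply hU'
      refine Finset.mem_image.2 ⟨U ∩ R, ?_, ?_⟩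
      · exact Finset.mem_powerset.2 Finset.inter_subset_right
      · rw [Finset.mem_powerset] at hU
        ext p
        simp only [Finset.mem_union, Finset.mem_inter]
        constructor
        · rintro (h6 | h6)
          · exact h6.1
          · exact h5 h6
        · intro h6
          by_cases h7 : ∀ a, c a ≠ p.1
          · exact Or.inl ⟨h6, Finset.mem_filter.2 ⟨hU h6, h7⟩⟩
          · exact Or.inr (Finset.mem_filter.2 ⟨hU h6, h7⟩)
    obtain ⟨p, hp, hpU⟩ := Finset.not_subset.1 h4
    obtain ⟨a, b, rfl⟩ := hQ p hp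
    rw [h3 U a b hpU, smul_zero]

end Pool.Agent.EFP
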