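import Pool.Agent.EFP.AltA
import Pool.Agent.EFP.AltB
import Pool.Agent.ZIso.SFT

/-!
# The relation between the classes `eP`
-/

set_option autoImplicit false

noncomputable section

namespace Pool.Agent.EFP

open Pool.Agent.ZCyc Pool.Agent.VFP Pool.Agent.TInf Pool.Agent.ZIso

universe u

variable {k : Type u} [Field k] [IsAlgClosed k] [CharZero k] {m : ℕ} {X : Fin m → EF k}

private theorem insV_congr {n : ℕ} {Z : EF k} {S : Finset ℕ} (E : SubDat Z S)
    (hS : ∀ b ∈ S, b < Z.r) (c : Fin n ↪ Fin m) (hc : ∀ a, X (c a) = Z) {x y : Pts m k}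
    (hx : OnP X x) (hy : OnP X y) (h : ∀ j, (¬ ∃ a, c a = j) → x j = y j) :
    insV E hS c hc hx = insV E hS c hc hy := by
  classical
  have e : (fun w : Fin n → Crd E.N E.r k =>
      (fun j => if h : ∃ a, c a = j then E.lift (w h.choose) else x j : Pts m k)) =
      fun w : Fin n → Crd E.N E.r k =>
      (fun j => if h : ∃ a, c a = j then E.lift (w h.choose) else y j : Pts m k) := by
    funext w j
    by_cases h1 : ∃ a, c a = j
    · rw [dif_pos h1, dif_pos h1]
    · rw [dif_neg h1, dif_neg h1, h j h1]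
  refine LinearMap.ext fun v => ?_
  obtain ⟨z, rfl⟩ := Submodule.mkQ_surjective _ v
  unfold insV
  rw [Submodule.mkQ_apply, Submodule.mapQ_apply, Submodule.mapQ_apply]
  congr 1
  rw [e]

private theorem sum_fixing {M : Type*} [AddCommMonoid M] {J : Finset (Fin m)} {n : ℕ}
    (hJ : J.card = n) (g : Equiv.Perm (Fin m) → M) :
    ∑ π ∈ fixing J, g π = ∑ τ : Equiv.Perm (Fin n),
      g (τ.extendDomain (J.orderIsoOfFin hJ).toEquiv) := by
  classical
  symm
  refine Finset.sum_bij (fun τ _ => τ.extendDomain (J.orderIsoOfFin hJ).toEquiv) ?_ ?_ ?_ ?_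
  · intro τ _
    unfold fixing
    rw [Finset.mem_filter]
    refine ⟨Finset.mem_univ _, fun i hi => ?_⟩
    exact Equiv.Perm.extendDomain_apply_not_subtype τ _ hi
  · intro τ _ τ' _ h
    exact Equiv.Perm.extendDomainHom_injective (J.orderIsoOfFin hJ).toEquiv h
  · intro π hπ
    unfold fixing at hπ
    rw [Finset.mem_filter] at hπ
    have hmem : ∀ i, π i ∈ J ↔ i ∈ J := by
      intro i
      constructor
      · intro h
        by_contra hn
        rw [hπ.2 i hn] at h
        exact hn h
      · intro h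
        by_contra hn
        have h2 := hπ.2 _ hn
        have h3 := π.injective h2
        rw [h3] at hn
        exact hn h
    refine ⟨(J.orderIsoOfFin hJ).toEquiv.permCongr.symm (π.subtypePerm hmem),
      Finset.mem_univ _, ?_⟩
    refine Equiv.ext fun i => ?_
    by_cases hi : i ∈ J
    · obtain ⟨a, ha⟩ := (J.orderIsoOfFin hJ).toEquiv.surjective ⟨i, hi⟩
      have h1 : i = ((J.orderIsoOfFin hJ).toEquiv a : Fin m) := by rw [ha]
      conv_lhs => rw [h1]
      rw [Equiv.Perm.extendDomain_apply_image]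
      simp [Equiv.permCongr, Equiv.equivCongr, ha]
    · rw [Equiv.Perm.extendDomain_apply_not_subtype _ _ hi, hπ.2 i hi]
  · intro τ _
    rfl

/-- From `eP_eq_insV` and `AN_sub` (let `c` be the increasing enumeration of `J`; the permutations
in `fixing J` correspond to the permutations of `Fin n`, with the same signs; the other factors do
not change). -/
theorem eP_alt (hcore : CoreT k) {T : Finset (Fin m × ℕ)} (hT : T ⊆ blocks X) {x : Pts m k}
    (hx : OnP X x) {J : Finset (Fin m)} {Z : EF k} {S : Finset ℕ} (hS : S ≠ ∅)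
    (hX : ∀ j ∈ J, X j = Z) (hF : ∀ j ∈ J, fib T j = S) {n : ℕ} (hJ : J.card = n)
    (hn : ∑ i with (Z.D.blk i : ℕ) ∈ S, Z.D.deg i = 2 * n) (hJ0 : J.Nonempty) :
    ∑ π ∈ fixing J, (((Equiv.Perm.sign π : ℤ) : ℚ) ^
      (Finset.univ.filter fun i : Fin Z.N => (Z.D.blk i : ℕ) ∈ S).card) • eP X T (x ∘ π) = 0 := by
  classical
  have hSr : ∀ b ∈ S, b < Z.r := by
    intro b hb
    obtain ⟨j, hj⟩ := hJ0
    rw [← hF j hj, mem_fib] at hb
    have := mem_blocks.1 (hT hb)
    rwa [hX j hj] at this
  obtain ⟨E⟩ := exists_subDat Z hSr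
  set f := (J.orderIsoOfFin hJ).toEquiv with hf
  let c : Fin n ↪ Fin m := ⟨fun a => (f a : Fin m), fun a b h => f.injective (Subtype.ext h)⟩
  have hcJ : ∀ a, c a ∈ J := fun a => (f a).2
  have hc : ∀ a, X (c a) = Z := fun a => hX _ (hcJ a)
  have hcF : ∀ a, fib T (c a) = S := fun a => hF _ (hcJ a)
  have hsurj : ∀ j, (∃ a, c a = j) ↔ j ∈ J := by
    intro j
    constructor
    · rintro ⟨a, rfl⟩
      exact hcJ a
    · intro hj
      obtain ⟨a, ha⟩ := f.surjective ⟨j, hj⟩
      exact ⟨a, by show ((f a : Fin m)) = j; rw [ha]⟩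
  have hcard : (Finset.univ.filter fun i : Fin Z.N => (Z.D.blk i : ℕ) ∈ S).card = E.N := by
    have := E.sum_all (fun _ => (1 : ℕ))
    simpa using this.symm
  -- the points `x ∘ π`
  have hon : ∀ τ : Equiv.Perm (Fin n), OnP X (x ∘ ⇑(τ.extendDomain f)) := by
    intro τ j
    show (X j).OnX (x (τ.extendDomain f j))
    have h1 : X j = X (τ.extendDomain f j) := by
      by_cases hj : j ∈ J
      · obtain ⟨a, ha⟩ := (hsurj j).2 hj
        rw [← ha]
        show X (c a) = X (τ.extendDomain f (f a : Fin m))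
        rw [Equiv.Perm.extendDomain_apply_image, hc a]
        exact (hc (τ a)).symm
      · rw [Equiv.Perm.extendDomain_apply_not_subtype τ f hj]
    rw [h1]
    exact hx _
  rw [sum_fixing hJ, hcard]
  have key : ((2 : ℚ) ^ (n * E.r)) • ∑ τ : Equiv.Perm (Fin n),
      (((Equiv.Perm.sign (τ.extendDomain f) : ℤ) : ℚ) ^ E.N) •
        eP X T (x ∘ ⇑(τ.extendDomain f)) = 0 := by
    rw [Finset.smul_sum]
    have h1 : ∀ τ : Equiv.Perm (Fin n), ((2 : ℚ) ^ (n * E.r)) •
        ((((Equiv.Perm.sign (τ.extendDomain f) : ℤ) : ℚ) ^ E.N) •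
        eP X T (x ∘ ⇑(τ.extendDomain f))) =
        ∑ U ∈ (T.filter fun p => ∀ a, c a ≠ p.1).powerset,
          ((-1 : ℚ) ^ ((T.filter fun p => ∀ a, c a ≠ p.1) \ U).card) •
            insV E hSr c hc (onP_proj hx U)
              ((((Equiv.Perm.sign τ : ℤ) : ℚ) ^ E.N) •
                TN E.D ((fun a => E.rest (x (c a))) ∘ ⇑τ)) := by
      intro τ
      rw [smul_comm, eP_eq_insV hT E hSr c hc hcF (hon τ), Finset.smul_sum,
        Equiv.Perm.sign_extendDomain]
      refine Finset.sum_congr rfl fun U _ => ?_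
      rw [smul_comm, map_smul]
      congr 2
      have h2 : insV E hSr c hc (onP_proj (hon τ) U) = insV E hSr c hc (onP_proj hx U) := by
        refine insV_congr E hSr c hc _ _ fun j hj => ?_
        have hj' : j ∉ J := fun h => hj ((hsurj j).2 h)
        show (X j).mul _ (x (τ.extendDomain f j)) = (X j).mul _ (x j)
        rw [Equiv.Perm.extendDomain_apply_not_subtype τ f hj']
      rw [h2]
      congr 2
      funext a
      show E.rest (x (τ.extendDomain f (f a : Fin m))) = E.rest (x (c (τ a)))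
      rw [Equiv.Perm.extendDomain_apply_image]
      rfl
    rw [Finset.sum_congr rfl fun τ _ => h1 τ, Finset.sum_comm]
    refine Finset.sum_eq_zero fun U _ => ?_
    rw [← Finset.smul_sum, ← map_sum]
    have h3 := AN_sub hcore hSr hS E hn (w := fun a => E.rest (x (c a)))
      (fun a => E.onX_rest (by rw [← hc a]; exact hx (c a)) hSr)
    unfold AN at h3
    rw [h3, map_zero, smul_zero]
  have h2 : ((2 : ℚ) ^ (n * E.r)) ≠ 0 := by positivity
  exact (smul_eq_zero.1 key).resolve_left h2

end Pool.Agent.EFP
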