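import Pool.Agent.TInf.GeoBasic
import Pool.Agent.VFP.Single

/-!
# Rational varieties
-/

set_option autoImplicit false
set_option linter.unusedSectionVars false

noncomputable section

namespace Pool.Agent.EFP

open Pool.Agent.ZCyc Pool.Agent.VFP Pool.Agent.TInf Polynomial

universe u

section krull

variable {k : Type u} [Field k] {N r : ℕ} (D : Dat k N r)

/-- The polynomial with constant coefficient `c` and the other coefficients `v`. -/
private def kp {R : Type*} [CommRing R] (c : R) (n : ℕ) (v : Fin n → R) : R[X] :=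
  C c + ∑ i : Fin n, C (v i) * X ^ (i.val + 1)

private theorem kp_natDegree {R : Type*} [CommRing R] (c : R) (n : ℕ) (v : Fin n → R) :
    (kp c n v).natDegree ≤ n := by
  unfold kp
  refine natDegree_add_le_of_degree_le (by simp) ?_
  refine natDegree_sum_le_of_forall_le _ _ fun i _ => ?_
  exact (natDegree_C_mul_X_pow_le _ _).trans i.2

private theorem kp_eval {R : Type*} [CommRing R] (c : R) (n : ℕ) (v : Fin n → R) :
    (kp c n v).eval 0 = c := by
  unfold kp
  rw [eval_add, eval_C, eval_finsetSum]
  simp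

private theorem kp_map {R S : Type*} [CommRing R] [CommRing S] (f : R →+* S) (c : R) (n : ℕ)
    (v : Fin n → R) : (kp c n v).map f = kp (f c) n fun i => f (v i) := by
  unfold kp
  rw [Polynomial.map_add, Polynomial.map_sum, map_C]
  simp

private theorem kp_zero {R : Type*} [CommRing R] (c : R) (n : ℕ) : kp c n (fun _ => 0) = C c := by
  unfold kp
  simp

private theorem kp_const {R : Type*} [CommRing R] {c c' : R} {n : ℕ} {v : Fin n → R}
    (h : kp c n v = C c') : v = 0 := by
  funext i
  have h1 := congrArg (fun p => p.coeff (i.val + 1)) h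
  simp only [kp, coeff_add, coeff_C_succ, finsetSum_coeff, coeff_C_mul, coeff_X_pow] at h1
  rw [zero_add, Finset.sum_eq_single i] at h1
  · simpa using h1
  · intro j _ hj
    rw [if_neg, mul_zero]
    intro h2
    exact hj (Fin.ext (by omega))
  · intro h2
    exact absurd (Finset.mem_univ _) h2

/-- the factors of the equations over a ring -/
private def gfac {S : Type*} [CommRing S] [Algebra k S] (s : Fin 2 → S) (x z : S) (i : Fin N) : S :=
  z * (x ^ 3 + MvPolynomial.aeval s (D.A i) * x * z ^ 2 + MvPolynomial.aeval s (D.B i) * z ^ 3)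

private theorem gfac_map {S S' : Type*} [CommRing S] [Algebra k S] [CommRing S'] [Algebra k S']
    (f : S →ₐ[k] S') (s : Fin 2 → S) (x z : S) (i : Fin N) :
    f (gfac D s x z i) = gfac D (fun j => f (s j)) (f x) (f z) i := by
  unfold gfac
  rw [map_mul, map_add, map_add, map_mul, map_mul, map_mul, map_pow, map_pow, map_pow,
    MvPolynomial.comp_aeval_apply, MvPolynomial.comp_aeval_apply]

private theorem gfac_natDegree (hA : ∀ i, (D.A i).IsHomogeneous (2 * D.deg i))
    (hB : ∀ i, (D.B i).IsHomogeneous (3 * D.deg i)) {s : Fin 2 → k[X]}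
    (hs : ∀ j, (s j).natDegree ≤ 1) {x z : k[X]} {i : Fin N} (hx : x.natDegree ≤ D.deg i)
    (hz : z.natDegree ≤ 0) :
    (gfac D s x z i).natDegree ≤ 3 * D.deg i := by
  have hA' : (MvPolynomial.aeval s (D.A i)).natDegree ≤ 2 * D.deg i := by
    simpa using MvPolynomial.aeval_natDegree_le (m := 2 * D.deg i) (n := 1) (D.A i)
      (hA i).totalDegree_le s hs
  have hB' : (MvPolynomial.aeval s (D.B i)).natDegree ≤ 3 * D.deg i := by
    simpa using MvPolynomial.aeval_natDegree_le (m := 3 * D.deg i) (n := 1) (D.B i)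
      (hB i).totalDegree_le s hs
  have hzp : ∀ n : ℕ, (z ^ n).natDegree ≤ 0 := fun n =>
    natDegree_pow_le.trans (by rw [Nat.le_zero.1 hz, mul_zero])
  have hx3 : (x ^ 3).natDegree ≤ 3 * D.deg i :=
    natDegree_pow_le.trans (Nat.mul_le_mul_left 3 hx)
  have t2 : (MvPolynomial.aeval s (D.A i) * x * z ^ 2).natDegree ≤ 3 * D.deg i := by
    refine natDegree_mul_le.trans ((Nat.add_le_add (natDegree_mul_le.trans
      (Nat.add_le_add hA' hx)) (hzp 2)).trans ?_)
    omega
  have t3 : (MvPolynomial.aeval s (D.B i) * z ^ 3).natDegree ≤ 3 * D.deg i := by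
    refine natDegree_mul_le.trans ((Nat.add_le_add hB' (hzp 3)).trans ?_)
    omega
  unfold gfac
  refine natDegree_mul_le.trans ((Nat.add_le_add hz (natDegree_add_le_of_degree_le
    (natDegree_add_le_of_degree_le hx3 t2) t3)).trans ?_)
  omega

/-- the difference of both sides of the equation -/
private def PF (b : Fin r) {S : Type*} [CommRing S] [Algebra k S] (s : Fin 2 → S)
    (x z : Fin N → S) (q g : S) : S :=
  (∏ i with D.blk i = b, gfac D s (x i) (z i) i) - q * g ^ 2

private theorem PF_map (b : Fin r) {S S' : Type*} [CommRing S] [Algebra k S] [CommRing S']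
    [Algebra k S'] (f : S →ₐ[k] S') (s : Fin 2 → S) (x z : Fin N → S) (q g : S) :
    f (PF D b s x z q g) =
      PF D b (fun j => f (s j)) (fun i => f (x i)) (fun i => f (z i)) (f q) (f g) := by
  unfold PF
  rw [map_sub, map_prod, map_mul, map_pow]
  simp only [gfac_map]

private theorem PF_natDegree (hA : ∀ i, (D.A i).IsHomogeneous (2 * D.deg i))
    (hB : ∀ i, (D.B i).IsHomogeneous (3 * D.deg i)) {b : Fin r}
    (hb : ∑ i with D.blk i = b, D.deg i = 2)
    {s : Fin 2 → k[X]} (hs : ∀ j, (s j).natDegree ≤ 1)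
    {x z : Fin N → k[X]} (hx : ∀ i, D.blk i = b → (x i).natDegree ≤ D.deg i)
    (hz : ∀ i, (z i).natDegree ≤ 0) {q g : k[X]} (hq : q.natDegree ≤ 2) (hg : g.natDegree ≤ 2) :
    (PF D b s x z q g).natDegree ≤ 6 := by
  have h1 : (∏ i with D.blk i = b, gfac D s (x i) (z i) i).natDegree ≤ 6 := by
    refine (natDegree_prod_le _ _).trans ?_
    have h2 : ∑ i with D.blk i = b, (gfac D s (x i) (z i) i).natDegree ≤
        ∑ i with D.blk i = b, 3 * D.deg i :=
      Finset.sum_le_sum fun i hi =>
        gfac_natDegree D hA hB hs (hx i (Finset.mem_filter.1 hi).2) (hz i)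
    rw [← Finset.mul_sum, hb] at h2
    exact h2
  have h2 : (q * g ^ 2).natDegree ≤ 6 := by
    refine natDegree_mul_le.trans ((Nat.add_le_add hq (natDegree_pow_le.trans
      (Nat.mul_le_mul_left 2 hg))).trans ?_)
    norm_num
  exact (natDegree_sub_le_of_le h1 h2).trans (by simp)

/-- the index set of the unknowns -/
private abbrev Ix (b : Fin r) : Type :=
  Unit ⊕ (Σ i : {i : Fin N // D.blk i = b}, Fin (D.deg i.1)) ⊕ Fin 2 ⊕ Fin 2

private theorem card_Ix {b : Fin r} (hb : ∑ i with D.blk i = b, D.deg i = 2) :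
    Fintype.card (Ix D b) = 7 := by
  rw [Fintype.card_sum, Fintype.card_sum, Fintype.card_sum, Fintype.card_sigma, Fintype.card_fin,
    Fintype.card_unit]
  simp only [Fintype.card_fin]
  have h1 : ∑ i : {i : Fin N // D.blk i = b}, D.deg i.1 = 2 := by
    rw [← hb]
    exact (Finset.sum_subtype (p := fun i => D.blk i = b) _ (by simp) D.deg).symm
  rw [h1]

section family

variable {S : Type*} [CommRing S] [Algebra k S] (b : Fin r) (w : Crd N r k) (σ : Fin 2 → k)
  (v : Ix D b → S)

private def fs (j : Fin 2) : S[X] :=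
  C (algebraMap k S (w.s j)) + C (v (Sum.inl ()) * algebraMap k S (σ j)) * X

private def fx (i : Fin N) : S[X] :=
  if h : D.blk i = b then kp (algebraMap k S (w.x i)) (D.deg i)
    fun j => v (Sum.inr (Sum.inl ⟨⟨i, h⟩, j⟩)) else C (algebraMap k S (w.x i))

private def fz (i : Fin N) : S[X] := C (algebraMap k S (w.z i))

private def fq : S[X] := kp 1 2 fun j => v (Sum.inr (Sum.inr (Sum.inl j)))

private def fg : S[X] := kp (algebraMap k S (w.y b)) 2 fun j => v (Sum.inr (Sum.inr (Sum.inr j)))

private def fF : S[X] := PF D b (fs D b w σ v) (fx D b w v) (fz (S := S) w) (fq D b v) (fg D b w v)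

private theorem fF_map {S' : Type*} [CommRing S'] [Algebra k S'] (f : S →ₐ[k] S') :
    (fF D b w σ v).map f.toRingHom = fF D b w σ fun j => f (v j) := by
  have h1 : (fF D b w σ v).map f.toRingHom = Polynomial.mapAlgHom f (fF D b w σ v) := rfl
  have hf : ∀ c : k, f.toRingHom (algebraMap k S c) = algebraMap k S' c := fun c => f.commutes c
  rw [h1, fF, PF_map, fF]
  have h2 : (fun j => Polynomial.mapAlgHom f (fs D b w σ v j)) =
      fs D b w σ fun j => f (v j) := by
    funext j
    show (fs D b w σ v j).map f.toRingHom = _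
    unfold fs
    rw [Polynomial.map_add, Polynomial.map_mul, map_C, map_C, map_X, map_mul, hf, hf]
    rfl
  have h3 : (fun i => Polynomial.mapAlgHom f (fx D b w v i)) = fx D b w fun j => f (v j) := by
    funext i
    show (fx D b w v i).map f.toRingHom = _
    unfold fx
    split_ifs with h
    · rw [kp_map, hf]
      rfl
    · rw [map_C, hf]
  have h4 : (fun i => Polynomial.mapAlgHom f (fz (S := S) w i)) = fz (S := S') w := by
    funext i
    show (fz (S := S) w i).map f.toRingHom = _
    unfold fz
    rw [map_C, hf]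
  have h5 : Polynomial.mapAlgHom f (fq D b v) = fq D b fun j => f (v j) := by
    show (fq D b v).map f.toRingHom = _
    unfold fq
    rw [kp_map, map_one]
    rfl
  have h6 : Polynomial.mapAlgHom f (fg D b w v) = fg D b w fun j => f (v j) := by
    show (fg D b w v).map f.toRingHom = _
    unfold fg
    rw [kp_map, hf]
    rfl
  rw [h2, h3, h4, h5, h6]

end family

private theorem fF_zero {b : Fin r} {w : Crd N r k} (hw : D.OnX w) (σ : Fin 2 → k) :
    fF D b w σ (fun _ => (0 : k)) = 0 := by
  have h1 : PF D b w.s w.x w.z 1 (w.y b) = 0 := by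
    unfold PF
    rw [one_mul, hw.2.2 b, sub_eq_zero]
    rfl
  have h2 := PF_map D b (Algebra.ofId k k[X]) w.s w.x w.z 1 (w.y b)
  rw [h1, map_zero, map_one] at h2
  rw [fF]
  have h3 : fs D b w σ (fun _ => (0 : k)) = fun j => Algebra.ofId k k[X] (w.s j) := by
    funext j
    unfold fs
    rw [zero_mul, C_0, zero_mul, add_zero]
    rfl
  have h4 : fx D b w (fun _ => (0 : k)) = fun j => Algebra.ofId k k[X] (w.x j) := by
    funext j
    unfold fx
    split_ifs
    · rw [kp_zero]
      rfl
    · rfl
  have h5 : fz (S := k) w = fun j => Algebra.ofId k k[X] (w.z j) := rfl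
  have h6 : fq D b (fun _ => (0 : k)) = 1 := by
    unfold fq
    rw [kp_zero, C_1]
  have h7 : fg D b w (fun _ => (0 : k)) = Algebra.ofId k k[X] (w.y b) := by
    unfold fg
    rw [kp_zero]
    rfl
  rw [h3, h4, h5, h6, h7, h2]

/-- `7` unknowns and `6` equations -/
private theorem single_krull [IsAlgClosed k] (hA : ∀ i, (D.A i).IsHomogeneous (2 * D.deg i))
    (hB : ∀ i, (D.B i).IsHomogeneous (3 * D.deg i)) {b : Fin r}
    (hb : ∑ i with D.blk i = b, D.deg i = 2) {w : Crd N r k} (hw : D.OnX w) (hy : w.y b ≠ 0)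
    (σ : Fin 2 → k) : ∃ (l : k) (x : Fin N → k[X]) (q g : k[X]),
      (∀ i, D.blk i = b → (x i).natDegree ≤ D.deg i) ∧ (∀ i, (x i).eval 0 = w.x i) ∧
      (∀ i, D.blk i ≠ b → x i = C (w.x i)) ∧ q.natDegree ≤ 2 ∧ q.eval 0 = 1 ∧
      g.eval 0 = w.y b ∧
      (∏ i with D.blk i = b, gfac D (fun j => C (w.s j) + C (l * σ j) * X) (x i) (C (w.z i)) i) =
        q * g ^ 2 ∧ ¬ (l = 0 ∧ ∀ i, x i = C (w.x i)) := by
  classical
  obtain ⟨x, hx0, hx⟩ := Pool.Agent.ZIso.exists_ne_zero (K := k) (ι := Ix D b) (κ := Fin 6)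
    (by rw [card_Ix D hb]; simp)
    (fun j => (fF D b w σ (fun j => (MvPolynomial.X j : MvPolynomial (Ix D b) k))).coeff
      (j.val + 1)) (fun j => by
      have h1 := fF_map D b w σ (fun j => (MvPolynomial.X j : MvPolynomial (Ix D b) k))
        (MvPolynomial.aeval (fun _ => (0 : k)))
      simp only [MvPolynomial.aeval_X] at h1
      rw [fF_zero D hw] at h1
      have h2 := congrArg (fun p => p.coeff (j.val + 1)) h1
      simp only [coeff_map, coeff_zero] at h2
      rw [← MvPolynomial.aeval_eq_eval]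
      exact h2)
  have hF : fF D b w σ x = 0 := by
    have hdeg : (fF D b w σ x).natDegree ≤ 6 := by
      refine PF_natDegree D hA hB hb (fun j => ?_) (fun i hi => ?_) (fun i => ?_)
        (kp_natDegree _ _ _) (kp_natDegree _ _ _)
      · unfold fs
        refine natDegree_add_le_of_degree_le (by simp) ?_
        exact (natDegree_C_mul_le _ _).trans natDegree_X_le
      · unfold fx
        rw [dif_pos hi]
        exact kp_natDegree _ _ _
      · unfold fz
        simp
    have hcoef : ∀ j < 6, (fF D b w σ x).coeff (j + 1) = 0 := by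
      intro j hj
      have h1 := hx ⟨j, hj⟩
      have h2 := fF_map D b w σ (fun j => (MvPolynomial.X j : MvPolynomial (Ix D b) k))
        (MvPolynomial.aeval x)
      simp only [MvPolynomial.aeval_X] at h2
      rw [← h2, coeff_map]
      rw [← MvPolynomial.aeval_eq_eval] at h1
      exact h1
    have hzero : (fF D b w σ x).eval 0 = 0 := by
      have h1 := PF_map D b (Polynomial.aeval (0 : k)) (fs D b w σ x) (fx D b w x)
        (fz (S := k) w) (fq D b x) (fg D b w x)
      simp only [coe_aeval_eq_eval] at h1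
      show eval 0 (PF D b (fs D b w σ x) (fx D b w x) (fz (S := k) w) (fq D b x) (fg D b w x)) = 0
      rw [h1]
      have h3 : (fun j => eval 0 (fs D b w σ x j)) = w.s := by
        funext j
        simp [fs]
      have h4 : (fun j => eval 0 (fx D b w x j)) = w.x := by
        funext j
        unfold fx
        split_ifs
        · rw [kp_eval]
          rfl
        · simp
      have h5 : (fun j => eval 0 (fz (S := k) w j)) = w.z := by
        funext j
        simp [fz]
      have h6 : eval 0 (fq D b x) = 1 := kp_eval _ _ _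
      have h7 : eval 0 (fg D b w x) = w.y b := kp_eval _ _ _
      rw [h3, h4, h5, h6, h7]
      unfold PF
      rw [one_mul, hw.2.2 b, sub_eq_zero]
      rfl
    ext n
    rw [coeff_zero]
    rcases n with _ | n
    · rw [coeff_zero_eq_eval_zero]
      exact hzero
    · by_cases hn : n < 6
      · exact hcoef n hn
      · exact coeff_eq_zero_of_natDegree_lt (by omega)
  have hF' : (∏ i with D.blk i = b, gfac D (fs D b w σ x) (fx D b w x i) (C (w.z i)) i) =
      fq D b x * fg D b w x ^ 2 := sub_eq_zero.1 hF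
  refine ⟨x (Sum.inl ()), fx D b w x, fq D b x, fg D b w x, fun i hi => ?_, fun i => ?_,
    fun i hi => ?_, kp_natDegree _ _ _, kp_eval _ _ _, kp_eval _ _ _, hF', ?_⟩
  · unfold fx
    rw [dif_pos hi]
    exact kp_natDegree _ _ _
  · unfold fx
    split_ifs
    · rw [kp_eval]
      rfl
    · simp
  · unfold fx
    rw [dif_neg hi]
    rfl
  · rintro ⟨h1, h2⟩
    -- the product `q * g ^ 2` is constant
    have h5 : fq D b x * fg D b w x ^ 2 = C (w.y b ^ 2) := by
      rw [← hF']
      have h3 : fs D b w σ x = fun j => Algebra.ofId k k[X] (w.s j) := by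
        funext j
        unfold fs
        rw [h1, zero_mul, C_0, zero_mul, add_zero]
        rfl
      have h4 : (∏ i with D.blk i = b, gfac D (fs D b w σ x) (fx D b w x i) (C (w.z i)) i) =
          Algebra.ofId k k[X] (∏ i with D.blk i = b, gfac D w.s (w.x i) (w.z i) i) := by
        rw [map_prod]
        refine Finset.prod_congr rfl fun i _ => ?_
        rw [gfac_map, h3, h2 i]
        rfl
      rw [h4, hw.2.2 b]
      rfl
    have hT2 : w.y b ^ 2 ≠ 0 := pow_ne_zero 2 hy
    have h6 : fq D b x * fg D b w x ^ 2 ≠ 0 := by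
      rw [h5]
      exact C_ne_zero.2 hT2
    have hq0 : fq D b x ≠ 0 := left_ne_zero_of_mul h6
    have hg0 : fg D b w x ≠ 0 := fun h => h6 (by rw [h]; ring)
    have h7 : (fq D b x).natDegree + 2 * (fg D b w x).natDegree = 0 := by
      have h8 := congrArg natDegree h5
      rw [natDegree_mul hq0 (pow_ne_zero 2 hg0), natDegree_pow, natDegree_C] at h8
      exact h8
    have h8 : fq D b x = C ((fq D b x).coeff 0) := eq_C_of_natDegree_eq_zero (by omega)
    have h9 : fg D b w x = C ((fg D b w x).coeff 0) := eq_C_of_natDegree_eq_zero (by omega)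
    apply hx0
    funext j
    rcases j with ⟨⟩ | ⟨i, j⟩ | j | j
    · exact h1
    · have k1 := h2 i.1
      unfold fx at k1
      rw [dif_pos i.2] at k1
      exact congrFun (kp_const k1) j
    · exact congrFun (kp_const h8) j
    · exact congrFun (kp_const h9) j

end krull

section

variable {k : Type u} [Field k] {N r : ℕ}

variable [IsAlgClosed k] [CharZero k] {D : Dat k N r}

private theorem at_mv {v : Place k (Om k)} {s : Fin 2 → Om k} {s' : Fin 2 → k}
    (hs : ∀ j, v.At (s j) (s' j)) (P : MvPolynomial (Fin 2) k) :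
    v.At (MvPolynomial.aeval s P) (MvPolynomial.aeval s' P) := by
  induction P using MvPolynomial.induction_on with
  | C c =>
    rw [MvPolynomial.aeval_C, MvPolynomial.aeval_C]
    exact Place.at_const c
  | add P Q hP hQ =>
    rw [map_add, map_add]
    exact hP.add hQ
  | mul_X P j hP =>
    rw [map_mul, map_mul, MvPolynomial.aeval_X, MvPolynomial.aeval_X]
    exact hP.mul (hs j)

private theorem at_fac {v : Place k (Om k)} {P : Crd N r (Om k)} {p : Crd N r k}
    (hs : ∀ j, v.At (P.s j) (p.s j)) (hx : ∀ i, v.At (P.x i) (p.x i))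
    (hz : ∀ i, v.At (P.z i) (p.z i)) (i : Fin N) : v.At (D.fac P i) (D.fac p i) := by
  unfold Dat.fac
  exact (hz i).mul ((((hx i).pow 3).add (((at_mv hs (D.A i)).mul (hx i)).mul
    ((hz i).pow 2))).add ((at_mv hs (D.B i)).mul ((hz i).pow 3)))

private theorem isValue_one {v : Place k (Om k)} {P : Crd N r (Om k)} {p : Crd N r k}
    (hs : ∀ j, v.At (P.s j) (p.s j)) (hx : ∀ i, v.At (P.x i) (p.x i))
    (hz : ∀ i, v.At (P.z i) (p.z i)) (hy : ∀ b, v.At (P.y b) (p.y b)) : D.IsValue v P p := by
  refine ⟨1, fun _ => 1, fun j => ?_, fun i => ?_, fun i => ?_, fun b => ?_⟩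
  · simpa [Dat.scale, Place.At] using hs j
  · simpa [Dat.scale, Place.At] using hx i
  · simpa [Dat.scale, Place.At] using hz i
  · simpa [Dat.scale, Place.At] using hy b

private theorem at_lead {v : Place k (Om k)} {τ : Om k} (hτ : τ ∉ v.ring) {p : k[X]} {n : ℕ}
    (hp : p.natDegree ≤ n) : v.At (τ⁻¹ ^ n * aeval τ p) (p.coeff n) := by
  have hτ0 := ne_zero_of_not_mem hτ
  have hinv := inv_at_of_not_mem hτ
  have h1 : τ⁻¹ ^ n * aeval τ p =
      ∑ j ∈ Finset.range (n + 1), algebraMap k (Om k) (p.coeff j) * τ⁻¹ ^ (n - j) := by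
    rw [aeval_eq_sum_range' (Nat.lt_succ_of_le hp), Finset.mul_sum]
    refine Finset.sum_congr rfl fun j hj => ?_
    have hj' : j ≤ n := Nat.lt_succ_iff.1 (Finset.mem_range.1 hj)
    rw [Algebra.smul_def, mul_left_comm]
    congr 1
    rw [← Nat.sub_add_cancel hj', pow_add, Nat.add_sub_cancel, mul_assoc, ← mul_pow,
      inv_mul_cancel₀ hτ0, one_pow, mul_one]
  have h2 : p.coeff n = ∑ j ∈ Finset.range (n + 1), p.coeff j * (0 : k) ^ (n - j) := by
    rw [Finset.sum_range_succ, Nat.sub_self, pow_zero, mul_one, Finset.sum_eq_zero, zero_add]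
    intro j hj
    rw [zero_pow (by have := Finset.mem_range.1 hj; omega), mul_zero]
  rw [h1, h2]
  exact Place.At.sum fun j _ => (Place.at_const _).mul (hinv.pow _)

private theorem aeval_scale {K : Type*} [Field K] [Algebra k K] {A : MvPolynomial (Fin 2) k}
    {n : ℕ} (hA : A.IsHomogeneous n) (c : K) (s : Fin 2 → K) :
    MvPolynomial.aeval (fun j => c * s j) A = c ^ n * MvPolynomial.aeval s A := by
  rw [MvPolynomial.aeval_def, MvPolynomial.aeval_def, MvPolynomial.eval₂_eq',
    MvPolynomial.eval₂_eq', Finset.mul_sum]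
  refine Finset.sum_congr rfl fun d hd => ?_
  have h1 : d.degree = n := by
    have := hA (MvPolynomial.mem_support_iff.1 hd)
    rw [Finsupp.degree_eq_weight_one]
    exact this
  have h2 : d 0 + d 1 = n := by
    rw [← h1, Finsupp.degree_eq_sum, Fin.sum_univ_two]
  simp only [Fin.prod_univ_two, mul_pow]
  rw [← h2, pow_add]
  ring

private theorem onX_scale' {D : Dat k N r} (hA : ∀ i, (D.A i).IsHomogeneous (2 * D.deg i))
    (hB : ∀ i, (D.B i).IsHomogeneous (3 * D.deg i))
    (hwy : ∀ b, 2 * D.wy b = ∑ i with D.blk i = b, 3 * D.deg i) {K : Type*} [Field K]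
    [Algebra k K] {c : K} (hc : c ≠ 0) {w : Crd N r K} (hw : D.OnX w) :
    D.OnX (D.scale c (fun _ => 1) w) := by
  have fac_scale : ∀ i, D.fac (D.scale c (fun _ => 1) w) i = c ^ (3 * D.deg i) * D.fac w i := by
    intro i
    unfold Dat.fac Dat.scale
    simp only [aeval_scale (hA i), aeval_scale (hB i)]
    ring
  refine ⟨?_, ?_, ?_⟩
  · intro h0
    apply hw.1
    funext j
    have := congrFun h0 j
    simpa [Dat.scale, hc] using this
  · intro i
    rcases hw.2.1 i with h1 | h1
    · left
      exact mul_ne_zero (mul_ne_zero (pow_ne_zero _ hc) one_ne_zero) h1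
    · right
      exact mul_ne_zero one_ne_zero h1
  · intro b
    simp only [fac_scale]
    rw [Finset.prod_mul_distrib, ← hw.2.2 b, Finset.prod_pow_eq_pow_sum, ← hwy b]
    unfold Dat.scale
    simp only [Finset.prod_const_one]
    ring

/-- a family through `w` which goes to a point with `y = 0` -/
private theorem one_bridge {D : Dat k N 1} {w : Fin 1 → Crd N 1 k} (hw : ∀ j, D.OnX (w j))
    {P : Crd N 1 (Om k)} (hP : D.OnX P) {c₀ c₁ : k}
    (h₀ : ∀ v : Place k (Om k), v.At (tt k) c₀ → D.IsValue v P (w 0))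
    (h₁ : ∀ v : Place k (Om k), v.At (tt k) c₁ → ∃ p, D.OnX p ∧ D.IsValue v P p ∧ p.y 0 = 0) :
    TN D w = 0 := by
  refine bridgeTN (I := Unit) (fun _ => 1) (fun _ _ => P) (fun _ _ => hP) c₀ c₁ _ _
    (fun v hv => ?_) (fun v hv => ?_)
  · refine ⟨fun _ => TN D w, fun _ => ⟨w, hw, fun j => ?_, rfl⟩, by simp⟩
    rw [Subsingleton.elim j 0]
    exact h₀ v hv
  · obtain ⟨p, hp, hpv, hpy⟩ := h₁ v hv
    exact ⟨fun _ => 0, fun _ => ⟨fun _ => p, fun _ => hp, fun _ => hpv,
      TN_y (j := (0 : Fin 1)) (b := (0 : Fin 1)) hpy⟩, by simp⟩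

end

variable {k : Type u} [Field k] [IsAlgClosed k] [CharZero k] {N : ℕ}

/-- One block and sum of the degrees `2`: a rational variety. Copy the proof of
`Pool.Agent.VFP.single` (`Pool/Agent/VFP/Single.lean`): there the block `b` is one of two blocks,
and there is a constant point `w'`; here there is only one block, no point `w'` and `Fin 1 → _`
instead of pairs. (`D.Valid` is only used for `homA`, `homB`.) -/
theorem core_one {D : Dat k N 1} (hA : ∀ i, (D.A i).IsHomogeneous (2 * D.deg i))
    (hB : ∀ i, (D.B i).IsHomogeneous (3 * D.deg i)) (hs : ∑ i, D.deg i = 2)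
    {w : Fin 1 → Crd N 1 k} (hw : ∀ j, D.OnX (w j)) : TN D w = 0 := by
  classical
  by_cases hy : (w 0).y 0 = 0
  · exact TN_y hy
  have hblk : ∀ i, D.blk i = 0 := fun i => Subsingleton.elim _ _
  have hfil : (Finset.univ.filter fun i => D.blk i = 0) = Finset.univ :=
    Finset.filter_true_of_mem fun i _ => hblk i
  have hb : ∑ i with D.blk i = 0, D.deg i = 2 := by
    rw [hfil]
    exact hs
  have hzb : ∀ i, (w 0).z i ≠ 0 := by
    intro i h0
    apply hy
    have h1 := y_eq_zero (hw 0) h0
    rw [hblk i] at h1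
    exact h1
  -- the vector `σ`
  obtain ⟨σ, hσ⟩ : ∃ σ : Fin 2 → k, (w 0).s 0 * σ 1 - (w 0).s 1 * σ 0 ≠ 0 := by
    by_cases h0 : (w 0).s 0 = 0
    · have h1 : (w 0).s 1 ≠ 0 := by
        intro h1
        apply (hw 0).1
        funext j
        fin_cases j
        · exact h0
        · exact h1
      exact ⟨![1, 0], by simpa [h0] using h1⟩
    · exact ⟨![0, 1], by simpa using h0⟩
  obtain ⟨l, x, q, g, hx1, hx2, -, hq1, hq2, hg, hF, hne⟩ :=
    single_krull D hA hB hb (hw 0) hy σ
  have hF0 : (q * g ^ 2).eval 0 = (w 0).y 0 ^ 2 := by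
    rw [eval_mul, eval_pow, hq2, hg, one_mul]
  -- the family
  let fam : Om k → Om k → Crd N 1 (Om k) := fun τ y =>
    { s := fun j => algebraMap k (Om k) ((w 0).s j) + algebraMap k (Om k) (l * σ j) * τ
      x := fun i => aeval τ (x i)
      z := fun i => algebraMap k (Om k) ((w 0).z i)
      y := fun _ => y }
  have hfam : ∀ τ y : Om k, y ^ 2 = aeval τ (q * g ^ 2) → D.OnX (fam τ y) := by
    intro τ y hy2
    refine ⟨fun h0 => ?_, fun i => ?_, fun b' => ?_⟩
    · have h1 := congrFun h0 0
      have h2 := congrFun h0 1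
      simp only [fam, Pi.zero_apply] at h1 h2
      have h3 : algebraMap k (Om k) ((w 0).s 0 * σ 1 - (w 0).s 1 * σ 0) = 0 := by
        rw [map_sub, map_mul, map_mul]
        rw [map_mul] at h1 h2
        linear_combination algebraMap k (Om k) (σ 1) * h1 - algebraMap k (Om k) (σ 0) * h2
      exact hσ ((map_eq_zero _).1 h3)
    · right
      show algebraMap k (Om k) ((w 0).z i) ≠ 0
      simpa using hzb i
    · rw [Subsingleton.elim b' 0]
      show y ^ 2 = _
      rw [hy2, ← hF, map_prod]
      refine Finset.prod_congr rfl fun i _ => ?_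
      have h1 : ∀ j, aeval τ (C ((w 0).s j) + C (l * σ j) * X) =
          algebraMap k (Om k) ((w 0).s j) + algebraMap k (Om k) (l * σ j) * τ := fun j => by
        rw [map_add, map_mul, aeval_C, aeval_C, aeval_X]
      rw [gfac_map]
      simp only [h1, aeval_C]
      rfl
  -- the value at `τ = 0`
  have hval0 : ∀ (v : Place k (Om k)) (τ y : Om k), v.At τ 0 → v.At y ((w 0).y 0) →
      D.IsValue v (fam τ y) (w 0) := by
    intro v τ y hτ hy'
    refine isValue_one (fun j => ?_) (fun i => ?_) (fun i => ?_) (fun b' => ?_)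
    · have h1 := (Place.at_const (v := v) ((w 0).s j)).add
        ((Place.at_const (v := v) (l * σ j)).mul hτ)
      rw [mul_zero, add_zero] at h1
      exact h1
    · have h1 := hτ.aeval (x i)
      rw [hx2 i] at h1
      exact h1
    · exact Place.at_const _
    · rw [Subsingleton.elim b' 0]
      exact hy'
  by_cases hroot : ∃ τ₁ : k, (q * g ^ 2).eval τ₁ = 0
  · obtain ⟨τ₁, hτ₁⟩ := hroot
    have hτ₁0 : τ₁ ≠ 0 := by
      rintro rfl
      rw [hF0] at hτ₁
      exact pow_ne_zero 2 hy hτ₁
    obtain ⟨τ, ρ, c₀, c₁, hρ, h₀, h₁⟩ := conic q hq1 hq2 τ₁ hτ₁0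
    have hy2 : (ρ * aeval τ g) ^ 2 = aeval τ (q * g ^ 2) := by
      rw [mul_pow, hρ, map_mul, map_pow]
    refine one_bridge hw (hfam τ _ hy2) (c₀ := c₀) (c₁ := c₁) (fun v hv => ?_)
      (fun v hv => ?_)
    · obtain ⟨h1, h2⟩ := h₀ v hv
      refine hval0 v τ _ h1 ?_
      have h3 := h2.mul (h1.aeval g)
      rw [one_mul, hg] at h3
      exact h3
    · have h1 := h₁ v hv
      refine ⟨⟨fun j => (w 0).s j + l * σ j * τ₁, fun i => (x i).eval τ₁, (w 0).z, fun _ => 0⟩,
        ⟨fun h0 => ?_, fun i => ?_, fun b' => ?_⟩, ?_, rfl⟩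
      · have h2 := congrFun h0 0
        have h3 := congrFun h0 1
        simp only [Pi.zero_apply] at h2 h3
        apply hσ
        linear_combination σ 1 * h2 - σ 0 * h3
      · exact Or.inr (hzb i)
      · rw [Subsingleton.elim b' 0]
        have h2 := congrArg (fun p => p.eval τ₁) hF
        simp only [hτ₁] at h2
        have h3 := map_prod (Polynomial.aeval (τ₁ : k)) (fun i =>
          gfac D (fun j => C ((w 0).s j) + C (l * σ j) * X) (x i) (C ((w 0).z i)) i)
          (Finset.univ.filter fun i => D.blk i = 0)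
        simp only [gfac_map, coe_aeval_eq_eval] at h3
        rw [h2] at h3
        simp only [eval_add, eval_mul, eval_C, eval_X] at h3
        show (0 : k) ^ 2 = _
        rw [zero_pow two_ne_zero]
        exact h3
      · refine isValue_one (fun j => ?_) (fun i => ?_) (fun i => ?_) (fun b' => ?_)
        · exact (Place.at_const (v := v) ((w 0).s j)).add
            ((Place.at_const (v := v) (l * σ j)).mul h1)
        · exact h1.aeval (x i)
        · exact Place.at_const _
        · show v.At _ 0
          rw [Place.at_zero_iff]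
          apply v.vanishes_of_pow (n := 2)
          show v.Vanishes ((ρ * aeval τ g) ^ 2)
          rw [hy2, ← Place.at_zero_iff, ← hτ₁]
          exact h1.aeval _
  · -- the product is constant
    have hdeg : (q * g ^ 2).natDegree = 0 := by
      by_contra hd
      exact hroot (IsAlgClosed.exists_root _ fun h0 =>
        hd (natDegree_eq_zero_iff_degree_le_zero.2 h0.le))
    have hconst : q * g ^ 2 = C ((w 0).y 0 ^ 2) := by
      rw [eq_C_of_natDegree_eq_zero hdeg, coeff_zero_eq_eval_zero, hF0]
    have hne0 : q * g ^ 2 ≠ 0 := by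
      rw [hconst]
      exact C_ne_zero.2 (pow_ne_zero 2 hy)
    have hl : l ≠ 0 := by
      intro hl
      apply hne
      refine ⟨hl, fun i => ?_⟩
      have hmem : i ∈ Finset.univ.filter fun i => D.blk i = 0 := by simp [hblk i]
      have hdvd := Finset.dvd_prod_of_mem (fun i =>
          gfac D (fun j => C ((w 0).s j) + C (l * σ j) * X) (x i) (C ((w 0).z i)) i) hmem
      rw [hF] at hdvd
      have h1 := natDegree_le_of_dvd hdvd hne0
      rw [hdeg] at h1
      let f : k[X] := C ((w 0).z i) *
        (X ^ 3 + C (MvPolynomial.aeval (w 0).s (D.A i) * (w 0).z i ^ 2) * X +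
        C (MvPolynomial.aeval (w 0).s (D.B i) * (w 0).z i ^ 3))
      have hf3 : f.natDegree = 3 := by
        have hzi := hzb i
        simp only [f]
        rw [natDegree_C_mul hzi]
        compute_degree!
      have hcomp : f.comp (x i) =
          gfac D (fun j => C ((w 0).s j) + C (l * σ j) * X) (x i) (C ((w 0).z i)) i := by
        have h2 : (fun j => C ((w 0).s j) + C (l * σ j) * X) =
            fun j => Algebra.ofId k k[X] ((w 0).s j) := by
          funext j
          rw [hl, zero_mul, C_0, zero_mul, add_zero]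
          rfl
        rw [h2]
        unfold gfac
        rw [← MvPolynomial.comp_aeval_apply, ← MvPolynomial.comp_aeval_apply]
        simp only [f, mul_comp, add_comp, C_comp, X_comp, pow_comp, C_mul, C_pow]
        have h3 : ∀ c : k, Algebra.ofId k k[X] c = C c := fun c => rfl
        rw [h3, h3]
        ring
      rw [← hcomp, natDegree_comp, hf3] at h1
      have h2 : (x i).natDegree = 0 := by omega
      rw [eq_C_of_natDegree_eq_zero h2, coeff_zero_eq_eval_zero, hx2 i]
    obtain ⟨τ, ρ, c₀, c₁, hρ, h₀, h₁⟩ := conic_inf q hq1 hq2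
    have hy2 : (ρ * aeval τ g) ^ 2 = aeval τ (q * g ^ 2) := by
      rw [mul_pow, hρ, map_mul, map_pow]
    refine one_bridge hw (hfam τ _ hy2) (c₀ := c₀) (c₁ := c₁) (fun v hv => ?_)
      (fun v hv => ?_)
    · obtain ⟨h1, h2⟩ := h₀ v hv
      refine hval0 v τ _ h1 ?_
      have h3 := h2.mul (h1.aeval g)
      rw [one_mul, hg] at h3
      exact h3
    · have hτ := h₁ v hv
      have hτ0 := ne_zero_of_not_mem hτ
      have hinv := inv_at_of_not_mem hτ
      set y : Om k := ρ * aeval τ g with hydef
      have hymem : y ∈ v.ring := by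
        apply mem_of_pow two_ne_zero
        rw [hy2, hconst, aeval_C]
        exact v.const_mem _
      have hwy : ∀ b, D.wy b = 3 := by
        intro b
        unfold Dat.wy
        rw [Subsingleton.elim b 0, hb]
      have hwy2 : ∀ b, 2 * D.wy b = ∑ i with D.blk i = b, 3 * D.deg i := by
        intro b
        rw [hwy b, Subsingleton.elim b 0, ← Finset.mul_sum, hb, mul_comm]
      have hsc := onX_scale' hA hB hwy2 (inv_ne_zero hτ0) (hfam τ y hy2)
      let p : Crd N 1 k := ⟨fun j => l * σ j, fun i => (x i).coeff (D.deg i), (w 0).z,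
        fun _ => 0⟩
      have hvs : ∀ j, v.At ((D.scale τ⁻¹ (fun _ => 1) (fam τ y)).s j) (p.s j) := by
        intro j
        show v.At (τ⁻¹ * (algebraMap k (Om k) ((w 0).s j) + algebraMap k (Om k) (l * σ j) * τ))
          (l * σ j)
        have h1 := (hinv.mul (Place.at_const (v := v) ((w 0).s j))).add
          (Place.at_const (v := v) (l * σ j))
        rw [zero_mul, zero_add] at h1
        convert h1 using 1
        field_simp
      have hvx : ∀ i, v.At ((D.scale τ⁻¹ (fun _ => 1) (fam τ y)).x i) (p.x i) := by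
        intro i
        show v.At (τ⁻¹ ^ D.deg i * 1 * aeval τ (x i)) ((x i).coeff (D.deg i))
        rw [mul_one]
        exact at_lead hτ (hx1 i (hblk i))
      have hvz : ∀ i, v.At ((D.scale τ⁻¹ (fun _ => 1) (fam τ y)).z i) (p.z i) := by
        intro i
        show v.At (1 * algebraMap k (Om k) ((w 0).z i)) ((w 0).z i)
        rw [one_mul]
        exact Place.at_const _
      have hvy : ∀ b', v.At ((D.scale τ⁻¹ (fun _ => 1) (fam τ y)).y b') (p.y b') := by
        intro b'
        show v.At (τ⁻¹ ^ D.wy b' * (∏ i with D.blk i = b', (1 : Om k)) ^ 2 * y) 0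
        rw [Finset.prod_const_one, hwy, one_pow, mul_one, Place.at_zero_iff]
        exact ((Place.at_zero_iff.1 hinv).pow v (by norm_num)).mul v hymem
      refine ⟨p, ⟨fun h0 => ?_, fun i => ?_, fun b' => ?_⟩,
        ⟨τ⁻¹, fun _ => 1, hvs, hvx, hvz, hvy⟩, rfl⟩
      · have h2 := congrFun h0 0
        have h3 := congrFun h0 1
        simp only [p, Pi.zero_apply, mul_eq_zero, hl, false_or] at h2 h3
        apply hσ
        rw [h2, h3]
        ring
      · exact Or.inr (hzb i)
      · have h2 := (hvy b').pow 2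
        rw [hsc.2.2 b'] at h2
        exact h2.unique (Place.At.prod fun i _ => at_fac hvs hvx hvz i)

end Pool.Agent.EFP
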