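import Pool.Agent.EFP.Gen

/-!
# The data which belong to some of the blocks
-/

set_option autoImplicit false

noncomputable section

namespace Pool.Agent.EFP

open Pool.Agent.ZCyc Pool.Agent.VFP

universe u

variable {k : Type u} [Field k] [IsAlgClosed k] [CharZero k]

/-- The data of the fibre product of the blocks in `S`: `ι` is the increasing enumeration of the
indices `i` whose block is in `S`, and `κ` is the increasing enumeration of `S`. -/
structure SubDat (Z : EF k) (S : Finset ℕ) where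
  /-- number of the indices -/
  N : ℕ
  /-- number of the blocks -/
  r : ℕ
  /-- the data -/
  D : Dat k N r
  /-- the indices -/
  ι : Fin N → Fin Z.N
  /-- the blocks -/
  κ : Fin r → ℕ
  ι_mono : StrictMono ι
  κ_mono : StrictMono κ
  ι_range : ∀ i, (∃ a, ι a = i) ↔ (Z.D.blk i : ℕ) ∈ S
  κ_range : ∀ b, (∃ a, κ a = b) ↔ b ∈ S
  deg_eq : ∀ a, D.deg a = Z.D.deg (ι a)
  blk_eq : ∀ a, κ (D.blk a) = Z.D.blk (ι a)
  A_eq : ∀ a, D.A a = Z.D.A (ι a)
  B_eq : ∀ a, D.B a = Z.D.B (ι a)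

/-- existence (`Finset.orderEmbOfFin`) -/
theorem exists_subDat (Z : EF k) {S : Finset ℕ} (hS : ∀ b ∈ S, b < Z.r) :
    Nonempty (SubDat Z S) := by
  classical
  let I : Finset (Fin Z.N) := Finset.univ.filter fun i => (Z.D.blk i : ℕ) ∈ S
  let ι : Fin I.card ↪o Fin Z.N := I.orderEmbOfFin rfl
  let κ : Fin S.card ↪o ℕ := S.orderEmbOfFin rfl
  have hκ : ∀ b, (∃ a, κ a = b) ↔ b ∈ S := by
    intro b
    have h := Finset.range_orderEmbOfFin S rfl
    have h2 : b ∈ Set.range κ ↔ b ∈ (S : Set ℕ) := by rw [h]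
    exact h2
  have hι : ∀ i, (∃ a, ι a = i) ↔ (Z.D.blk i : ℕ) ∈ S := by
    intro i
    have h := Finset.range_orderEmbOfFin I rfl
    have h2 : i ∈ Set.range ι ↔ i ∈ (I : Set (Fin Z.N)) := by rw [h]
    have h3 : i ∈ (I : Set (Fin Z.N)) ↔ (Z.D.blk i : ℕ) ∈ S := by
      rw [Finset.mem_coe, Finset.mem_filter]
      exact ⟨fun h => h.2, fun h => ⟨Finset.mem_univ _, h⟩⟩
    exact h2.trans h3
  have hc : ∀ a, ∃ c, κ c = Z.D.blk (ι a) := fun a => (hκ _).2 ((hι _).1 ⟨a, rfl⟩)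
  choose c hc using hc
  exact ⟨{
    N := I.card
    r := S.card
    D := { Z.D with
      deg := fun a => Z.D.deg (ι a)
      blk := c
      A := fun a => Z.D.A (ι a)
      B := fun a => Z.D.B (ι a) }
    ι := ι
    κ := κ
    ι_mono := ι.strictMono
    κ_mono := κ.strictMono
    ι_range := hι
    κ_range := hκ
    deg_eq := fun a => rfl
    blk_eq := hc
    A_eq := fun a => rfl
    B_eq := fun a => rfl }⟩

/-- the sums over the blocks of the data and of `Z` -/
theorem SubDat.sum_blk {Z : EF k} {S : Finset ℕ} (E : SubDat Z S) {M : Type*} [AddCommMonoid M]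
    (g : Fin Z.N → M) (a : Fin E.r) :
    ∑ i with E.D.blk i = a, g (E.ι i) = ∑ i with (Z.D.blk i : ℕ) = E.κ a, g i := by
  classical
  refine Finset.sum_nbij E.ι ?_ ?_ ?_ ?_
  · intro i hi
    rw [Finset.mem_filter] at hi ⊢
    refine ⟨Finset.mem_univ _, ?_⟩
    rw [← E.blk_eq, hi.2]
  · intro i _ j _ h
    exact E.ι_mono.injective h
  · intro i hi
    rw [Finset.mem_coe, Finset.mem_filter] at hi
    have h1 : (Z.D.blk i : ℕ) ∈ S := by
      rw [hi.2]
      exact (E.κ_range _).1 ⟨a, rfl⟩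
    obtain ⟨b, rfl⟩ := (E.ι_range i).2 h1
    refine ⟨b, ?_, rfl⟩
    rw [Finset.mem_coe, Finset.mem_filter]
    refine ⟨Finset.mem_univ _, E.κ_mono.injective ?_⟩
    rw [E.blk_eq, hi.2]
  · intro i _
    rfl

theorem SubDat.sum_all {Z : EF k} {S : Finset ℕ} (E : SubDat Z S) {M : Type*} [AddCommMonoid M]
    (g : Fin Z.N → M) : ∑ i, g (E.ι i) = ∑ i with (Z.D.blk i : ℕ) ∈ S, g i := by
  classical
  refine Finset.sum_nbij E.ι ?_ ?_ ?_ ?_
  · intro i _
    rw [Finset.mem_filter]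
    exact ⟨Finset.mem_univ _, (E.ι_range _).1 ⟨i, rfl⟩⟩
  · intro i _ j _ h
    exact E.ι_mono.injective h
  · intro i hi
    rw [Finset.mem_coe, Finset.mem_filter] at hi
    obtain ⟨b, rfl⟩ := (E.ι_range i).2 hi.2
    exact ⟨b, Finset.mem_coe.2 (Finset.mem_univ _), rfl⟩
  · intro i _
    rfl

end Pool.Agent.EFP
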