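import Pool.Agent.EFP.Core
import Pool.Agent.EFP.CoreOne
import Pool.Agent.EFP.SubA
import Pool.Agent.VFPP.Valid

/-!
# The relation for the fibre products of some of the blocks
-/

set_option autoImplicit false

noncomputable section

namespace Pool.Agent.EFP

open Pool.Agent.ZCyc Pool.Agent.VFP Pool.Agent.TInf

universe u

variable {k : Type u} [Field k] [IsAlgClosed k] [CharZero k] 

private theorem sub_sum {Z : EF k} {S : Finset ℕ} (hS : ∀ b ∈ S, b < Z.r) (E : SubDat Z S)
    (a : Fin E.r) : ∃ b : Fin Z.r, ∑ i with E.D.blk i = a, E.D.deg i =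
      ∑ i with Z.D.blk i = b, Z.D.deg i := by
  have h1 : E.κ a ∈ S := (E.κ_range _).1 ⟨a, rfl⟩
  refine ⟨⟨E.κ a, hS _ h1⟩, ?_⟩
  have h2 := E.sum_blk Z.D.deg a
  simp only [E.deg_eq]
  rw [h2]
  refine Finset.sum_congr ?_ fun _ _ => rfl
  ext i
  simp only [Finset.mem_filter, Finset.mem_univ, true_and]
  exact ⟨fun h => Fin.ext h, fun h => congrArg Fin.val h⟩

private theorem sub_total {Z : EF k} {S : Finset ℕ} (E : SubDat Z S) {n : ℕ}
    (hn : ∑ i with (Z.D.blk i : ℕ) ∈ S, Z.D.deg i = 2 * n) : ∑ i, E.D.deg i = 2 * n := by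
  rw [← hn, ← E.sum_all]
  exact Finset.sum_congr rfl fun a _ => E.deg_eq a

omit [IsAlgClosed k] [CharZero k] in
/-- the singularities of the fibre product of some of the blocks -/
private theorem sub_canonical {Z : EF k} {S : Finset ℕ} (E : SubDat Z S)
    (l : MvPolynomial (Fin 2) k) (a b : Fin E.N → ℕ) (hl : l.IsHomogeneous 1)
    (h : ∀ i, l ^ a i ∣ E.D.A i ∧ l ^ b i ∣ E.D.B i)
    (h12 : 12 ≤ ∑ i, min (3 * a i) (2 * b i)) : l = 0 := by
  classical
  have hinj : Function.Injective E.ι := E.ι_mono.injective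
  have ha : ∀ i, Function.extend E.ι a 0 (E.ι i) = a i := hinj.extend_apply a 0
  have hb : ∀ i, Function.extend E.ι b 0 (E.ι i) = b i := hinj.extend_apply b 0
  refine Z.canonical l (Function.extend E.ι a 0) (Function.extend E.ι b 0) hl ?_ ?_
  · intro i
    by_cases hi : ∃ j, E.ι j = i
    · obtain ⟨j, rfl⟩ := hi
      rw [ha, hb, ← E.A_eq, ← E.B_eq]
      exact h j
    · rw [Function.extend_apply' _ _ _ hi, Function.extend_apply' _ _ _ hi]
      simp
  · refine h12.trans ?_
    have h1 : ∑ i, min (3 * a i) (2 * b i) = ∑ i ∈ Finset.univ.map ⟨E.ι, hinj⟩,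
        min (3 * Function.extend E.ι a 0 i) (2 * Function.extend E.ι b 0 i) := by
      rw [Finset.sum_map]
      refine Finset.sum_congr rfl fun i _ => ?_
      show _ = min (3 * Function.extend E.ι a 0 (E.ι i)) (2 * Function.extend E.ι b 0 (E.ι i))
      rw [ha, hb]
    rw [h1]
    exact Finset.sum_le_sum_of_subset (Finset.subset_univ _)

/-- the case of one block -/
private theorem an_one {N r : ℕ} (hr : r = 1) {D : Dat k N r}
    (hA : ∀ i, (D.A i).IsHomogeneous (2 * D.deg i))
    (hB : ∀ i, (D.B i).IsHomogeneous (3 * D.deg i)) (hs : ∑ i, D.deg i = 2)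
    {w : Fin 1 → Crd N r k} (hw : ∀ j, D.OnX (w j)) : AN D w = 0 := by
  subst hr
  unfold AN
  refine Finset.sum_eq_zero fun τ _ => ?_
  have h : TN D (w ∘ τ) = 0 := core_one hA hB hs (w := w ∘ τ) fun j => hw (τ j)
  rw [h]
  exact smul_zero _

/-- Case 1: all `A_i`, `B_i` are different from zero; then `Good E.D n` and `hcore` applies. Case
2: the sum of all degrees is at most `4`, so `n ≤ 2`. If `n = 1` then `E.r = 1` (the sums over the
blocks are at least `2`) and `core_one` applies. If `n = 2` then the sum of all degrees is `4` and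
`S` contains all blocks (`pos`); `E.D.Valid` follows from `Pool.Agent.VFPP.CYF.valid` for the
corresponding `CYF` (or directly with the same proof), use `core_two`. -/
theorem AN_sub (hcore : CoreT k) {Z : EF k} {S : Finset ℕ} (hS : ∀ b ∈ S, b < Z.r)
    (hS0 : S ≠ ∅) (E : SubDat Z S) {n : ℕ}
    (hn : ∑ i with (Z.D.blk i : ℕ) ∈ S, Z.D.deg i = 2 * n) {w : Fin n → Crd E.N E.r k}
    (hw : ∀ j, E.D.OnX (w j)) : AN E.D w = 0 := by
  classical
  have hsum : ∑ i, E.D.deg i = 2 * n := sub_total E hn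
  have hpos : ∀ b, 0 < ∑ i with E.D.blk i = b, E.D.deg i := by
    intro a
    obtain ⟨b, hb⟩ := sub_sum hS E a
    rw [hb]
    exact Z.pos b
  have heven : ∀ b, Even (∑ i with E.D.blk i = b, E.D.deg i) := by
    intro a
    obtain ⟨b, hb⟩ := sub_sum hS E a
    rw [hb]
    exact Z.even b
  have hA : ∀ i, (E.D.A i).IsHomogeneous (2 * E.D.deg i) := by
    intro i
    rw [E.A_eq, E.deg_eq]
    exact Z.homA _
  have hB : ∀ i, (E.D.B i).IsHomogeneous (3 * E.D.deg i) := by
    intro i
    rw [E.B_eq, E.deg_eq]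
    exact Z.homB _
  have hdisc : ∀ i, 4 * E.D.A i ^ 3 + 27 * E.D.B i ^ 2 ≠ 0 := by
    intro i
    rw [E.A_eq, E.B_eq]
    exact Z.disc _
  -- the number of blocks
  have hblocks : ∑ a : Fin E.r, ∑ i with E.D.blk i = a, E.D.deg i = 2 * n := by
    rw [← hsum]
    exact Finset.sum_fiberwise _ _ _
  have htwo : ∀ a : Fin E.r, 2 ≤ ∑ i with E.D.blk i = a, E.D.deg i := by
    intro a
    have h1 := hpos a
    obtain ⟨c, hc⟩ := heven a
    omega
  have hr : E.r * 2 ≤ 2 * n := by
    rw [← hblocks]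
    calc E.r * 2 = ∑ _a : Fin E.r, 2 := by simp
      _ ≤ _ := Finset.sum_le_sum fun a _ => htwo a
  have hr0 : 0 < E.r := by
    obtain ⟨b, hb⟩ := Finset.nonempty_iff_ne_empty.2 hS0
    obtain ⟨a, _⟩ := (E.κ_range b).2 hb
    exact a.pos
  have hnpos : 0 < n := by omega
  rcases Z.nonzero with hnz | h4
  · refine hcore E.D ⟨hnpos, hpos, hsum, heven, hA, hB, hdisc, ?_, ?_⟩ w hw
    · intro i
      rw [E.A_eq]
      exact (hnz _).1
    · intro i
      rw [E.B_eq]
      exact (hnz _).2
  · have hn2 : n ≤ 2 := by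
      have h1 : ∑ i with (Z.D.blk i : ℕ) ∈ S, Z.D.deg i ≤ ∑ i, Z.D.deg i :=
        Finset.sum_le_sum_of_subset (Finset.filter_subset _ _)
      omega
    rcases (show n = 1 ∨ n = 2 by omega) with rfl | rfl
    · exact an_one (by omega) hA hB hsum hw
    · refine core_two ?_ hw
      have hsurj : Function.Surjective E.D.blk := by
        intro a
        by_contra hcon
        push Not at hcon
        have h1 := hpos a
        rw [Finset.filter_false_of_mem fun i _ => hcon i, Finset.sum_empty] at h1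
        exact absurd h1 (lt_irrefl 0)
      exact VFPP.CYF.valid ⟨E.N, E.r, E.D, hpos, hsum, hsurj, heven, hA, hB, hdisc,
        sub_canonical E⟩

end Pool.Agent.EFP
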