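import Pool.Agent.EFP.Gen

/-!
# Specialisation of families of points of products
-/

set_option autoImplicit false

noncomputable section

namespace Pool.Agent.EFP

open Pool.Agent.ZCyc Pool.Agent.VFP Polynomial

universe u

variable {k : Type u} [Field k] {N r : ℕ}

private theorem aeval_map (g : Om k ≃ₐ[RatFunc k] Om k) (s : Fin 2 → Om k)
    (C : MvPolynomial (Fin 2) k) :
    MvPolynomial.aeval (g ∘ s) C = g (MvPolynomial.aeval s C) := by
  have e1 : g (MvPolynomial.aeval s C) =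
      ((g.restrictScalars k).toAlgHom.comp (MvPolynomial.aeval s)) C := rfl
  rw [e1]
  congr 1
  refine MvPolynomial.algHom_ext fun j => ?_
  simp

private theorem fac_map {D : Dat k N r} (g : Om k ≃ₐ[RatFunc k] Om k) (w : Crd N r (Om k))
    (i : Fin N) : D.fac (w.map g) i = g (D.fac w i) := by
  unfold Dat.fac Crd.map
  simp only [aeval_map, Function.comp_apply, map_mul, map_add, map_pow]

private theorem onX_map {D : Dat k N r} (g : Om k ≃ₐ[RatFunc k] Om k) {w : Crd N r (Om k)}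
    (h : D.OnX w) : D.OnX (w.map g) := by
  obtain ⟨h1, h2, h3⟩ := h
  refine ⟨fun h0 => h1 ?_, fun i => ?_, fun b => ?_⟩
  · funext j
    exact (map_eq_zero_iff g g.injective).1 (congrFun h0 j)
  · rcases h2 i with h4 | h4
    · left
      intro h0
      exact h4 ((map_eq_zero_iff g g.injective).1 h0)
    · right
      intro h0
      exact h4 ((map_eq_zero_iff g g.injective).1 h0)
  · rw [Finset.prod_congr rfl fun i _ => fac_map g w i, ← map_prod, ← h3 b, map_pow]
    rfl

private theorem scale_map {D : Dat k N r} (g : Om k ≃ₐ[RatFunc k] Om k) (c : Om k)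
    (m : Fin N → Om k) (w : Crd N r (Om k)) :
    D.scale (g c) (g ∘ m) (w.map g) = (D.scale c m w).map g := by
  refine Crd.ext ?_ ?_ ?_ ?_
  · funext j
    simp only [Dat.scale, Crd.map, Function.comp_apply, map_mul]
  · funext j
    simp only [Dat.scale, Crd.map, Function.comp_apply, map_mul, map_pow]
  · funext j
    simp only [Dat.scale, Crd.map, Function.comp_apply, map_mul]
  · funext j
    simp only [Dat.scale, Crd.map, Function.comp_apply, map_mul, map_pow, map_prod]

private theorem at_map_symm {v : Place k (Om k)} (g : Om k ≃ₐ[RatFunc k] Om k) {f : Om k} {c : k}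
    (h : (v.map (g.restrictScalars k).symm).At f c) : v.At (g f) c := by
  rw [Place.at_map] at h
  exact h

private theorem isValue_map {D : Dat k N r} (v : Place k (Om k)) (g : Om k ≃ₐ[RatFunc k] Om k)
    {w : Crd N r (Om k)} {p : Crd N r k}
    (h : D.IsValue (v.map (g.restrictScalars k).symm) w p) : D.IsValue v (w.map g) p := by
  obtain ⟨c, m, h1, h2, h3, h4⟩ := h
  refine ⟨g c, g ∘ m, ?_⟩
  rw [scale_map]
  exact ⟨fun j => at_map_symm g (h1 j), fun j => at_map_symm g (h2 j),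
    fun j => at_map_symm g (h3 j), fun j => at_map_symm g (h4 j)⟩

private theorem bridge_at (v : Place k (Om k)) (g : Om k ≃ₐ[RatFunc k] Om k) {c : k}
    (h : v.At (tt k) c) : (v.map (g.restrictScalars k).symm).At (tt k) c := by
  rw [Place.at_map]
  have e : (g.restrictScalars k).symm.symm (tt k) = tt k := by
    show g (tt k) = _
    exact g.commutes _
  rw [e]
  exact h


private theorem crd_pmap {N r : ℕ} (g : Om k → Om k) (w : Pt (Om k)) :
    (w.map g).crd N r = (w.crd N r).map g := rfl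

/-- all coordinates -/
private def co {K : Type*} (w : Crd N r K) : Fin 2 ⊕ Fin N ⊕ Fin N ⊕ Fin r → K :=
  Sum.elim w.s (Sum.elim w.x (Sum.elim w.z w.y))

private theorem map_congr {L : Set (Om k)} {f f' g : Om k → Om k} (hg : g 0 = 0)
    {w : Crd N r (Om k)}
    (hw : ∀ j, co w j ∈ L) (h : ∀ x ∈ L, f x = g (f' x)) :
    pt (w.map f) = (pt (w.map f')).map g := by
  refine Pt.ext ?_ ?_ ?_ ?_
  · funext j
    exact h _ (hw (Sum.inl j))
  · funext j
    show (if h : j < N then f (w.x ⟨j, h⟩) else 0) = g (if h : j < N then f' (w.x ⟨j, h⟩) else 0)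
    split_ifs with h1
    · exact h _ (hw (Sum.inr (Sum.inl ⟨j, h1⟩)))
    · exact hg.symm
  · funext j
    show (if h : j < N then f (w.z ⟨j, h⟩) else 0) = g (if h : j < N then f' (w.z ⟨j, h⟩) else 0)
    split_ifs with h1
    · exact h _ (hw (Sum.inr (Sum.inr (Sum.inl ⟨j, h1⟩))))
    · exact hg.symm
  · funext j
    show (if h : j < r then f (w.y ⟨j, h⟩) else 0) = g (if h : j < r then f' (w.y ⟨j, h⟩) else 0)
    split_ifs with h1
    · exact h _ (hw (Sum.inr (Sum.inr (Sum.inr ⟨j, h1⟩))))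
    · exact hg.symm

variable [IsAlgClosed k] [CharZero k] {m : ℕ} {X : Fin m → EF k}

/-- Families of points of the product over the line: the classes of the values at `t = c₀` and at
`t = c₁` are equal. -/
theorem bridgeP {I : Type} [Fintype I] (c : I → ℚ) (P : I → Pts m (Om k))
    (hP : ∀ i, OnP X (P i)) (c₀ c₁ : k) (C₀ C₁ : VP X)
    (h₀ : ∀ v : Place k (Om k), v.At (tt k) c₀ → ∃ p : I → Pts m k,
      (∀ i, OnP X (p i)) ∧ (∀ i j, (X j).IsValue v (P i j) (p i j)) ∧
      ∑ i, c i • clP X (p i) = C₀)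
    (h₁ : ∀ v : Place k (Om k), v.At (tt k) c₁ → ∃ p : I → Pts m k,
      (∀ i, OnP X (p i)) ∧ (∀ i j, (X j).IsValue v (P i j) (p i j)) ∧
      ∑ i, c i • clP X (p i) = C₁) :
    C₀ = C₁ := by
  classical
  let S : Set (Om k) :=
    Set.range (fun x : (Σ a : I × Fin m, (Fin 2 ⊕ Fin (X a.2).N ⊕ Fin (X a.2).N ⊕ Fin (X a.2).r)) =>
      co ((P x.1.1 x.1.2).crd (X x.1.2).N (X x.1.2).r) x.2)
  let L1 : IntermediateField (RatFunc k) (Om k) := IntermediateField.adjoin (RatFunc k) S
  have hfd : FiniteDimensional (RatFunc k) L1 := by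
    have : Finite S := (Set.finite_range _).to_subtype
    exact IntermediateField.finiteDimensional_adjoin fun z _ =>
      Algebra.IsIntegral.isIntegral z
  let L : IntermediateField (RatFunc k) (Om k) :=
    IntermediateField.normalClosure (RatFunc k) L1 (Om k)
  have hLF : L1 ≤ L := IntermediateField.le_normalClosure L1
  have hPL : ∀ i a j, co ((P i a).crd (X a).N (X a).r) j ∈ (L : Set (Om k)) := fun i a j =>
    hLF (IntermediateField.subset_adjoin (RatFunc k) S ⟨⟨(i, a), j⟩, rfl⟩)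
  have : Normal (RatFunc k) L := normalClosure.normal (RatFunc k) L1 (Om k)
  have : FiniteDimensional (RatFunc k) L :=
    normalClosure.is_finiteDimensional (RatFunc k) L1 (Om k)
  obtain ⟨l, ⟨e⟩⟩ := Finite.exists_equiv_fin (L ≃ₐ[RatFunc k] L)
  let σ : Fin l → (Om k ≃ₐ[RatFunc k] Om k) := fun i => (e.symm i).liftNormal (Om k)
  have hσ : ∀ i (x : Om k) (hx : x ∈ L), σ i x = ((e.symm i ⟨x, hx⟩ : L) : Om k) :=
    fun i x hx => AlgEquiv.liftNormal_commutes (e.symm i) (Om k) ⟨x, hx⟩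
  -- the family is stable
  have hstab : ∀ g : Om k ≃ₐ[RatFunc k] Om k, ∃ ρ : Equiv.Perm (Fin l), ∀ i,
      ∀ x ∈ (L : Set (Om k)), σ (ρ i) x = g (σ i x) := by
    intro g
    refine ⟨(e.symm.trans (Equiv.mulLeft (AlgEquiv.restrictNormal g L))).trans e, fun i x hx => ?_⟩
    rw [hσ _ x hx, hσ _ x hx]
    have h2 : e.symm (((e.symm.trans (Equiv.mulLeft (AlgEquiv.restrictNormal g L))).trans e) i) =
        AlgEquiv.restrictNormal g L * e.symm i := by
      simp
    rw [h2, AlgEquiv.mul_apply]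
    exact AlgEquiv.restrictNormal_commutes g L _
  obtain ⟨v₀, hv₀⟩ := exists_place (tt_transc (k := k)) c₀
  obtain ⟨v₁, hv₁⟩ := exists_place (tt_transc (k := k)) c₁
  have k₀ := fun i : Fin l => h₀ _ (bridge_at v₀ (σ i) hv₀)
  have k₁ := fun i : Fin l => h₁ _ (bridge_at v₁ (σ i) hv₁)
  choose p₀ ha₀ hp₀ hC₀ using k₀
  choose p₁ ha₁ hp₁ hC₁ using k₁
  have hOn : ∀ (i : I) (τ : Fin l) (a : Fin m),
      (X a).OnX (pt (((P i a).crd (X a).N (X a).r).map (σ τ)) : Pt (Om k)) := by
    intro i τ a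
    unfold EF.OnX
    rw [crd_pt]
    exact onX_map _ (hP i a)
  have hval : ∀ (v : Place k (Om k)) (i : I) (τ : Fin l) (a : Fin m) (p : Pt k),
      (X a).IsValue (v.map ((σ τ).restrictScalars k).symm) (P i a) p →
      (X a).IsValue v (pt (((P i a).crd (X a).N (X a).r).map (σ τ))) p := by
    intro v i τ a p h
    unfold EF.IsValue
    rw [crd_pt]
    exact isValue_map v (σ τ) h
  have hmem : ∀ i : I, ∑ τ : Fin l, (Finsupp.single (p₀ τ i) (1 : ℚ) -
      Finsupp.single (p₁ τ i) 1) ∈ ratEqP X := by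
    intro i
    apply Submodule.subset_span
    refine ⟨l, fun τ a => pt (((P i a).crd (X a).N (X a).r).map (σ τ)), c₀, c₁, v₀, v₁,
      fun τ => p₀ τ i, fun τ => p₁ τ i, fun τ a => hOn i τ a, fun g => ?_, hv₀, hv₁,
      fun τ => ⟨ha₀ τ i, fun a => hval v₀ i τ a _ (hp₀ τ i a)⟩,
      fun τ => ⟨ha₁ τ i, fun a => hval v₁ i τ a _ (hp₁ τ i a)⟩, rfl⟩
    obtain ⟨ρ, hρ⟩ := hstab g
    exact ⟨ρ, fun τ a => map_congr (map_zero g) (hPL i a) (hρ τ)⟩
  have hsum : ∀ i : I, ∑ τ : Fin l, clP X (p₀ τ i) = ∑ τ : Fin l, clP X (p₁ τ i) := by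
    intro i
    have h2 := (Submodule.Quotient.mk_eq_zero (ratEqP X)).2 (hmem i)
    have h3 := map_sum (ratEqP X).mkQ (fun τ : Fin l =>
      (Finsupp.single (p₀ τ i) (1 : ℚ) - Finsupp.single (p₁ τ i) 1)) Finset.univ
    rw [Submodule.mkQ_apply, h2] at h3
    rw [← sub_eq_zero, ← Finset.sum_sub_distrib]
    refine Eq.trans (Finset.sum_congr rfl fun τ _ => ?_) h3.symm
    rw [map_sub]
    rfl
  have hn : (l : ℚ) ≠ 0 := by
    have : 0 < l := by
      rw [← Fintype.card_fin l, ← Fintype.card_congr e]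
      exact Fintype.card_pos
    exact_mod_cast this.ne'
  have hfin : (l : ℚ) • C₀ = (l : ℚ) • C₁ := by
    have e₀ : ∑ τ : Fin l, ∑ i, c i • clP X (p₀ τ i) = (l : ℚ) • C₀ := by
      rw [Finset.sum_congr rfl fun τ _ => hC₀ τ, Finset.sum_const, Finset.card_univ,
        Fintype.card_fin, Nat.cast_smul_eq_nsmul]
    have e₁ : ∑ τ : Fin l, ∑ i, c i • clP X (p₁ τ i) = (l : ℚ) • C₁ := by
      rw [Finset.sum_congr rfl fun τ _ => hC₁ τ, Finset.sum_const, Finset.card_univ,
        Fintype.card_fin, Nat.cast_smul_eq_nsmul]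
    have hc : ∀ p : Fin l → I → Pts m k, ∑ τ : Fin l, ∑ i, c i • clP X (p τ i) =
        ∑ i, c i • ∑ τ : Fin l, clP X (p τ i) := by
      intro p
      rw [Finset.sum_comm]
      exact Finset.sum_congr rfl fun i _ => Finset.smul_sum.symm
    rw [← e₀, ← e₁, hc, hc]
    exact Finset.sum_congr rfl fun i _ => by rw [hsum i]
  have h2 := congrArg (fun z => (l : ℚ)⁻¹ • z) hfin
  simpa [smul_smul, inv_mul_cancel₀ hn] using h2

end Pool.Agent.EFP
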