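import Pool.Agent.TInf.GeoBasic
import Pool.Agent.VFP.Final

/-!
# The relation between `n` points: the known cases

`AN D w = ∑ τ, sgn τ ^ N • {w (τ 0)} × ⋯ × {w (τ (n - 1))}`, where `∑ i, D.deg i = 2 * n`.
-/

set_option autoImplicit false

noncomputable section

namespace Pool.Agent.EFP

open Pool.Agent.ZCyc Pool.Agent.VFP Pool.Agent.TInf

universe u

/-- The core theorem (proved in `Pool.Agent.TInf`). -/
def CoreT (k : Type u) [Field k] : Prop :=
  ∀ {N r n : ℕ} (D : Dat k N r), Good D n → ∀ w : Fin n → Crd N r k, (∀ j, D.OnX (w j)) →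
    AN D w = 0

variable {k : Type u} [Field k] [IsAlgClosed k] [CharZero k] {N r : ℕ}

omit [IsAlgClosed k] [CharZero k] in
private theorem pair_gen {D : Dat k N r} {n : ℕ} {P Q : Fin n → Crd N r (Om k)} {a b : k}
    {v w : Place k (Om k)} {p q p' q' : Fin n → Crd N r k}
    (h1 : ∀ i, D.OnX (P i) ∧ D.OnX (Q i))
    (h2 : ∀ g : Om k ≃ₐ[RatFunc k] Om k, ∃ e : Equiv.Perm (Fin n), ∀ i,
      P (e i) = (P i).map g ∧ Q (e i) = (Q i).map g)
    (h3 : v.Vanishes (tt k - algebraMap k (Om k) a))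
    (h4 : w.Vanishes (tt k - algebraMap k (Om k) b))
    (h5 : ∀ i, D.OnX (p i) ∧ D.OnX (q i) ∧ D.IsValue v (P i) (p i) ∧ D.IsValue v (Q i) (q i))
    (h6 : ∀ i, D.OnX (p' i) ∧ D.OnX (q' i) ∧ D.IsValue w (P i) (p' i) ∧
      D.IsValue w (Q i) (q' i)) :
    (∑ i, (Finsupp.single ![p i, q i] (1 : ℚ) - Finsupp.single ![p' i, q' i] 1)) ∈
      ratN D 2 := by
  refine Submodule.subset_span ⟨n, fun i => ![P i, Q i], a, b, v, w, fun i => ![p i, q i],
    fun i => ![p' i, q' i], ?_, ?_, h3, h4, ?_, ?_, rfl⟩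
  · intro i j
    refine Fin.cases ?_ (fun j' => ?_) j
    · exact (h1 i).1
    · rw [Subsingleton.elim j' 0]
      exact (h1 i).2
  · intro g
    obtain ⟨e, he⟩ := h2 g
    refine ⟨e, fun i j => ?_⟩
    refine Fin.cases ?_ (fun j' => ?_) j
    · exact (he i).1
    · rw [Subsingleton.elim j' 0]
      exact (he i).2
  · intro i j
    refine Fin.cases ?_ (fun j' => ?_) j
    · exact ⟨(h5 i).1, (h5 i).2.2.1⟩
    · rw [Subsingleton.elim j' 0]
      exact ⟨(h5 i).2.1, (h5 i).2.2.2⟩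
  · intro i j
    refine Fin.cases ?_ (fun j' => ?_) j
    · exact ⟨(h6 i).1, (h6 i).2.2.1⟩
    · rw [Subsingleton.elim j' 0]
      exact ⟨(h6 i).2.1, (h6 i).2.2.2⟩

omit [IsAlgClosed k] [CharZero k] in
private theorem pair_le (D : Dat k N r) : D.ratEq ≤ (ratN D 2).comap
    (Finsupp.lmapDomain ℚ ℚ fun w : Crd N r k × Crd N r k => ![w.1, w.2]) := by
  refine Submodule.span_le.2 ?_
  rintro z ⟨n, P, Q, a, b, v, w, p, q, p', q', h1, h2, h3, h4, h5, h6, rfl⟩
  have e : (Finsupp.lmapDomain ℚ ℚ fun w : Crd N r k × Crd N r k => ![w.1, w.2])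
      (∑ i, (Finsupp.single (p i, q i) 1 - Finsupp.single (p' i, q' i) 1)) =
      ∑ i, (Finsupp.single ![p i, q i] (1 : ℚ) - Finsupp.single ![p' i, q' i] 1) := by
    rw [map_sum]
    refine Finset.sum_congr rfl fun i _ => ?_
    rw [map_sub, Finsupp.lmapDomain_apply, Finsupp.lmapDomain_apply, Finsupp.mapDomain_single,
      Finsupp.mapDomain_single]
  have h := pair_gen h1 h2 h3 h4 h5 h6
  rw [← e] at h
  exact h

/-- from pairs to `Fin 2 → _` -/
theorem pair_mem {D : Dat k N r} {z : (Crd N r k × Crd N r k) →₀ ℚ} (hz : z ∈ D.ratEq) :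
    (z.mapDomain fun w => ![w.1, w.2]) ∈ ratN D 2 :=
  pair_le D hz

/-- the induced map of the quotients -/
private def cf (D : Dat k N r) : D.V →ₗ[ℚ] VN D 2 :=
  Submodule.mapQ D.ratEq (ratN D 2)
    (Finsupp.lmapDomain ℚ ℚ fun w : Crd N r k × Crd N r k => ![w.1, w.2]) (pair_le D)

omit [IsAlgClosed k] [CharZero k] in
private theorem cf_cv (D : Dat k N r) (a b : Crd N r k) : cf D (D.cv a b) = cN D ![a, b] := by
  unfold cf Dat.cv cN
  rw [Submodule.mapQ_apply, Finsupp.lmapDomain_apply, Finsupp.mapDomain_single]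

omit [IsAlgClosed k] [CharZero k] in
private theorem cf_T (D : Dat k N r) (a b : Crd N r k) : cf D (D.T a b) = TN D ![a, b] := by
  unfold Dat.T TN
  rw [map_sum, ← Fintype.sum_equiv (finTwoArrowEquiv (Fin r → ℤˣ)).symm
    (fun ε : (Fin r → ℤˣ) × (Fin r → ℤˣ) => (sn ε.1 * sn ε.2) • cN D ![sg ε.1 a, sg ε.2 b]),
    Fintype.sum_prod_type]
  · refine Finset.sum_congr rfl fun ε _ => ?_
    rw [map_sum]
    refine Finset.sum_congr rfl fun ε' _ => ?_
    rw [map_smul, cf_cv]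
  · rintro ⟨ε, ε'⟩
    have h1 : snN ((finTwoArrowEquiv (Fin r → ℤˣ)).symm (ε, ε')) = sn ε * sn ε' := by
      unfold snN
      rw [Fin.prod_univ_two]
      rfl
    rw [h1]
    congr 2
    funext j
    refine Fin.cases ?_ (fun j' => ?_) j
    · rfl
    · rw [Subsingleton.elim j' 0]
      rfl

/-- From `Pool.Agent.VFP.voisin`, applied to the cycles `{w 0}` and `{w 1}` of degree zero (`{w}` is
`∑ ε, sn ε • [sg ε w]`, and `0 < r` since the sum of the degrees is `4`). -/
theorem core_two {D : Dat k N r} (h : D.Valid) {w : Fin 2 → Crd N r k} (hw : ∀ j, D.OnX (w j)) :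
    AN D w = 0 := by
  have h1 := CL_zero h (hw 0) (hw 1)
  have h2 := congrArg (cf D) h1
  rw [map_zero, Dat.CL, map_add, map_smul, cf_T, cf_T] at h2
  have h3 : (Finset.univ : Finset (Equiv.Perm (Fin 2))) = {1, Equiv.swap 0 1} := by decide
  have h4 : (1 : Equiv.Perm (Fin 2)) ≠ Equiv.swap 0 1 := by decide
  unfold AN
  rw [h3, Finset.sum_pair h4, ← h2]
  congr 1
  · rw [Equiv.Perm.sign_one]
    simp only [Units.val_one, Int.cast_one, one_pow, one_smul]
    congr 1
    funext j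
    refine Fin.cases ?_ (fun j' => ?_) j
    · rfl
    · rw [Subsingleton.elim j' 0]
      rfl
  · rw [Equiv.Perm.sign_swap (by decide)]
    simp only [Units.val_neg, Units.val_one, Int.cast_neg, Int.cast_one]
    congr 2
    funext j
    refine Fin.cases ?_ (fun j' => ?_) j
    · rfl
    · rw [Subsingleton.elim j' 0]
      rfl

end Pool.Agent.EFP
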