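import Pool.Agent.VFP.Defs

/-!
# Zero-cycles on products of fibre products of elliptic fibrations over the line: definitions

A variety of the class `EF` is fibred over the line in products of elliptic curves (or their
quotients by even numbers of changes of signs), see `Pool.Agent.VFP.Defs`: elliptic surfaces with
section, fibre products of elliptic surfaces (for example the fibre powers of elliptic modular
surfaces), the quotients of such fibre products by the even changes of signs, ... We consider
products `X 0 × ⋯ × X (m - 1)` of such varieties, their zero-cycles, and the morphisms between such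
products whose components are constant or a factor followed by fibrewise multiplications by
`1`, `-1` or `0`.
-/

set_option autoImplicit false

noncomputable section

namespace Pool.Agent.EFP

open Pool.Agent.ZCyc Pool.Agent.VFP

universe u

/-- The variety `X` of dimension `N + 1` over the line with coordinates `(s₀ : s₁)`, given by the
equations `y_b ² = ∏ z_i (x_i ³ + A_i(s) x_i z_i ² + B_i(s) z_i ³)`, `b < r` (the product over the
indices `i < N` of the block `b`), where `A_i` and `B_i` are binary forms of degrees `2 deg i` and
`3 deg i` (constants, if `deg i = 0`), and the sums of the `deg i` over the blocks are even and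
positive. The discriminants are not zero, and there is no point `l = 0` of the line at which `A_i`
and `B_i` vanish to orders `a i` and `b i` with `∑ i, min (3 a i) (2 b i) ≥ 12` (which means that
the singularities are canonical; for `N = 1` this says that the Weierstrass equation is minimal).
All `A_i` and `B_i` are different from zero or the sum of the `deg i` is at most `4` (this excludes
some cases with fibres with additional automorphisms).

The canonical class is `n - 2` times the class of the fibre, where `2 n = ∑ i, deg i`. -/
structure EF (k : Type u) [Field k] where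
  /-- the number of factors of the fibres -/
  N : ℕ
  /-- the number of blocks -/
  r : ℕ
  /-- degrees, blocks and coefficients -/
  D : Dat k N r
  pos : ∀ b, 0 < ∑ i with D.blk i = b, D.deg i
  even : ∀ b, Even (∑ i with D.blk i = b, D.deg i)
  homA : ∀ i, (D.A i).IsHomogeneous (2 * D.deg i)
  homB : ∀ i, (D.B i).IsHomogeneous (3 * D.deg i)
  disc : ∀ i, 4 * D.A i ^ 3 + 27 * D.B i ^ 2 ≠ 0
  canonical : ∀ (l : MvPolynomial (Fin 2) k) (a b : Fin N → ℕ), l.IsHomogeneous 1 →
    (∀ i, l ^ a i ∣ D.A i ∧ l ^ b i ∣ D.B i) → 12 ≤ ∑ i, min (3 * a i) (2 * b i) → l = 0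
  nonzero : (∀ i, D.A i ≠ 0 ∧ D.B i ≠ 0) ∨ ∑ i, D.deg i ≤ 4

/-- Coordinates `(s₀ : s₁)`, `(x_i : z_i)` and `y_b`. For a point of the variety `X` only the
coordinates with `i < X.N` and `b < X.r` are used. -/
@[ext]
structure Pt (K : Type*) where
  /-- homogeneous coordinates on the line -/
  s : Fin 2 → K
  /-- the coordinates `x_i` -/
  x : ℕ → K
  /-- the coordinates `z_i` -/
  z : ℕ → K
  /-- the coordinates `y_b` -/
  y : ℕ → K

/-- The coordinates with `i < N` and `b < r`. -/
def Pt.crd {K : Type*} (N r : ℕ) (w : Pt K) : Crd N r K where
  s := w.s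
  x i := w.x i
  z i := w.z i
  y b := w.y b

/-- The image of the coordinates under a map. -/
def Pt.map {K : Type*} (g : K → K) (w : Pt K) : Pt K where
  s := g ∘ w.s
  x := g ∘ w.x
  z := g ∘ w.z
  y := g ∘ w.y

/-- Coordinates for all of the `m` factors. -/
abbrev Pts (m : ℕ) (K : Type*) : Type _ := Fin m → Pt K

variable {k : Type u} [Field k] {m m' : ℕ}

/-- The dimension of `X`. -/
def EF.dim (X : EF k) : ℕ := X.N + 1

/-- The number of the block of the index `i`. -/
def EF.bk (X : EF k) (i : ℕ) : ℕ := if h : i < X.N then X.D.blk ⟨i, h⟩ else 0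

/-- Multiplication by `ε b` in the block `b` of the fibre: `y_b` is replaced by `- y_b` if
`ε b = -1`, and the coordinates `x_i`, `z_i`, `y_b` of the block are replaced by the coordinates
`1`, `0`, `0` of the zero section if `ε b = 0`. -/
def EF.mul (X : EF k) {K : Type*} [Field K] (ε : ℕ → SignType) (w : Pt K) : Pt K where
  s := w.s
  x i := if ε (X.bk i) = 0 then 1 else w.x i
  z i := if ε (X.bk i) = 0 then 0 else w.z i
  y b := (((ε b : SignType) : ℤ) : K) * w.y b

/-- `w` is a point of `X`. -/
def EF.OnX (X : EF k) {K : Type*} [Field K] [Algebra k K] (w : Pt K) : Prop :=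
  X.D.OnX (w.crd X.N X.r)

/-- The point `P` of `X` with coordinates in the algebraic closure of `k(t)` specialises at the
place `v` to the point `p`. -/
def EF.IsValue (X : EF k) (v : Place k (Om k)) (P : Pt (Om k)) (p : Pt k) : Prop :=
  X.D.IsValue v (P.crd X.N X.r) (p.crd X.N X.r)

/-- `x` is a point of the product of the varieties `X i`. -/
def OnP (X : Fin m → EF k) {K : Type*} [Field K] [Algebra k K] (x : Pts m K) : Prop :=
  ∀ i, (X i).OnX (x i)

/-- The zero-cycles on `X 0 × ⋯ × X (m - 1)` (finite formal combinations of systems of homogeneous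
coordinates) which are rationally equivalent to zero, with rational coefficients.

Let `P a`, `a < n`, be a finite family of points of the product with coordinates in the algebraic
closure of `k(t)` which is stable under the Galois group of `k(t)`. This is the same as an effective
zero-cycle on the product over the field `k(t)`, or a family of effective zero-cycles parametrised
by the line, flat over the line. Its member at the point `t = c` is the sum of the specialisations
`p a` of the points of the family at any place `v` above `c`. The space of zero-cycles rationally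
equivalent to zero is spanned by the differences between the members of such families at two
points `c` and `c'` of the line (Fulton, Intersection theory, Proposition 1.6). (The constant
families show that it contains the differences of two systems of coordinates of the same point.) -/
def ratEqP (X : Fin m → EF k) : Submodule ℚ (Pts m k →₀ ℚ) :=
  Submodule.span ℚ {z | ∃ (n : ℕ) (P : Fin n → Pts m (Om k)) (c c' : k) (v v' : Place k (Om k))
    (p p' : Fin n → Pts m k),
    (∀ a, OnP X (P a)) ∧
    (∀ g : Om k ≃ₐ[RatFunc k] Om k, ∃ e : Equiv.Perm (Fin n), ∀ a i, P (e a) i = (P a i).map g) ∧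
    v.Vanishes (tt k - algebraMap k (Om k) c) ∧ v'.Vanishes (tt k - algebraMap k (Om k) c') ∧
    (∀ a, OnP X (p a) ∧ ∀ i, (X i).IsValue v (P a i) (p a i)) ∧
    (∀ a, OnP X (p' a) ∧ ∀ i, (X i).IsValue v' (P a i) (p' a i)) ∧
    z = ∑ a, (Finsupp.single (p a) 1 - Finsupp.single (p' a) 1)}

/-- A morphism from `X 0 × ⋯ × X (m - 1)` to the variety `Y`: a constant (a point of `Y`), or the
factor with number `i` (if it is equal to `Y`) followed by the multiplication by `ε b` in the blocks
`b` of the fibres. -/
inductive Comp (X : Fin m → EF k) (Y : EF k) : Type u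
  | const (w : Pt k) (hw : Y.OnX w) : Comp X Y
  | fac (i : Fin m) (h : X i = Y) (ε : ℕ → SignType) : Comp X Y

/-- The morphisms between products with such components: projections, diagonals, permutations,
constants, changes of signs, projections to fibre products of some of the blocks, zero sections, and
everything composed from them. -/
abbrev Mor (X : Fin m → EF k) (Y : Fin m' → EF k) : Type u := ∀ j, Comp X (Y j)

variable {X : Fin m → EF k} {Y : Fin m' → EF k}

/-- The value of the component at a point. -/
def Comp.app {Z : EF k} (f : Comp X Z) (x : Pts m k) : Pt k :=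
  match f with
  | .const w _ => w
  | .fac i _ ε => Z.mul ε (x i)

/-- The value of the morphism at a point. -/
def Mor.app (f : Mor X Y) (x : Pts m k) : Pts m' k := fun j => (f j).app x

/-- The push-forward of zero-cycles by a combination of morphisms (a correspondence). -/
def pushM (γ : Mor X Y →₀ ℚ) : (Pts m k →₀ ℚ) →ₗ[ℚ] (Pts m' k →₀ ℚ) :=
  γ.sum fun f c => c • Finsupp.lmapDomain ℚ ℚ f.app

/-- The projection `π_T` of the product for a set `T` of pairs `(j, b)` (`b` is a block of `X j`):
the coordinates in the block `b` of `X j` are replaced by the coordinates of the zero section for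
all pairs `(j, b)` which are not in `T`. -/
def proj (X : Fin m → EF k) {K : Type*} [Field K] (T : Finset (Fin m × ℕ)) (x : Pts m K) :
    Pts m K :=
  fun j => (X j).mul (fun b => if (j, b) ∈ T then 1 else 0) (x j)

/-- The number of the indices `i` of `X j` whose block is in `T`. -/
def cnt (X : Fin m → EF k) (T : Finset (Fin m × ℕ)) (j : Fin m) : ℕ :=
  (Finset.univ.filter fun i : Fin (X j).N => (j, ((X j).D.blk i : ℕ)) ∈ T).card

/-- The dimension of the image of `π_T`, where the line is not counted for the factors `X j` without
pairs `(j, b)` in `T`. -/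
def wt (X : Fin m → EF k) (T : Finset (Fin m × ℕ)) : ℕ :=
  ∑ j, if cnt X T j = 0 then 0 else cnt X T j + 1

/-- The filtration: the zero-cycles on the product whose images under all projections `π_T` with an
image of dimension less than `ν` (not counting lines) are rationally equivalent to zero. -/
def Fil (X : Fin m → EF k) (ν : ℕ) : Submodule ℚ (Pts m k →₀ ℚ) where
  carrier := {z | (∀ p ∈ z.support, OnP X p) ∧
    ∀ T, wt X T < ν → Finsupp.lmapDomain ℚ ℚ (proj X T) z ∈ ratEqP X}
  zero_mem' := ⟨by simp, fun T _ => by simp⟩
  add_mem' := by
    classical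
    rintro z w ⟨h1, h2⟩ ⟨h3, h4⟩
    refine ⟨fun p hp => ?_, fun T hT => ?_⟩
    · rcases Finset.mem_union.1 (Finsupp.support_add hp) with h | h
      · exact h1 p h
      · exact h3 p h
    · rw [map_add]
      exact Submodule.add_mem _ (h2 T hT) (h4 T hT)
  smul_mem' := by
    rintro c z ⟨h1, h2⟩
    refine ⟨fun p hp => h1 p (Finsupp.support_smul hp), fun T hT => ?_⟩
    rw [map_smul]
    exact Submodule.smul_mem _ _ (h2 T hT)

/-- The number of the factor of a non-constant component. -/
def Comp.src {Z : EF k} : Comp X Z → Option (Fin m)
  | .const _ _ => none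
  | .fac i _ _ => some i

/-- The coefficient in the pull-back of the form `P(s) ds ∧ ⋀ i, dx_i / ∏ b, y_b` (for the blocks
`b ∈ S` and the indices `i` in these blocks). -/
def Comp.sgn {Z : EF k} (S : Finset ℕ) : Comp X Z → ℤ
  | .const _ _ => 0
  | .fac _ _ ε => ∏ b ∈ S, ((ε b : SignType) : ℤ)

/-- the blocks `b` with `(j, b) ∈ T` -/
def fib (T : Finset (Fin m × ℕ)) (j : Fin m) : Finset ℕ :=
  (T.filter fun p => p.1 = j).image Prod.snd

/-- The indices of the basis `ω_(T, a)` of the holomorphic forms on (a resolution of) the product:
`ω_(T, a)` is the product, over all `j` with `fib T j ≠ ∅` in their order, of the forms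
`s ^ a_j ds ∧ ⋀ i, dx_i / ∏ b, y_b` on `X j` (for the blocks `b ∈ fib T j` and the indices `i` in
these blocks), where `0 ≤ a_j ≤ n_j - 2`, and `2 n_j` is the sum of `deg i` for these indices; here
`s = s₁ / s₀`. (We put `a_j = 0` if `fib T j = ∅`.) -/
def IsForm (X : Fin m → EF k) (T : Finset (Fin m × ℕ)) (a : Fin m → ℕ) : Prop :=
  (∀ p ∈ T, p.2 < (X p.1).r) ∧ ∀ j, if fib T j = ∅ then a j = 0 else
    2 * (a j + 2) ≤ ∑ i with (j, ((X j).D.blk i : ℕ)) ∈ T, (X j).D.deg i

open Classical in
/-- The sign `±` in `f^* ω_(T', a') = ± ω_(T, a)` which comes from the order of the factors: the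
product of the signs `(-1) ^ (d_j * d_j')` for all pairs `j < j'` for which the numbers of the
factors of the components of `f` are in the inverse order, where `d_j` is the degree of the factor
of `ω_(T', a')` on `Y j`. -/
def koszul (f : Mor X Y) (T' : Finset (Fin m' × ℕ)) : ℤ :=
  ∏ j, ∏ j' with j < j' ∧ fib T' j ≠ ∅ ∧ fib T' j' ≠ ∅ ∧
      ∃ i i', (f j).src = some i ∧ (f j').src = some i' ∧ i' < i,
    (-1) ^ ((cnt Y T' j + 1) * (cnt Y T' j' + 1))

open Classical in
/-- The coefficient of `ω_(T, a)` in the pull-back of `ω_(T', a')` by the morphism `f`. It is zero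
if a component of `f` with number `j` with `fib T' j ≠ ∅` is constant, or if two such components
have the same factor `i` (since `ds ∧ ds = 0`). Otherwise it is a product of signs if these
components induce a bijection from the set of these `j` to the set of the `i` with `fib T i ≠ ∅`
which is compatible with the data, and `0` if not. -/
def pullCoef (f : Mor X Y) (T : Finset (Fin m × ℕ)) (a : Fin m → ℕ) (T' : Finset (Fin m' × ℕ))
    (a' : Fin m' → ℕ) : ℤ :=
  if (∀ j, fib T' j ≠ ∅ → ∃ i, (f j).src = some i ∧ fib T i = fib T' j ∧ a i = a' j) ∧
      ∀ i, fib T i ≠ ∅ → ∃! j, fib T' j ≠ ∅ ∧ (f j).src = some i then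
    koszul f T' * ∏ j with fib T' j ≠ ∅, (f j).sgn (fib T' j) else 0

/-- The correspondence `γ` acts as zero on the holomorphic `ν`-forms. -/
def KillsForms (γ : Mor X Y →₀ ℚ) (ν : ℕ) : Prop :=
  ∀ (T : Finset (Fin m × ℕ)) (a : Fin m → ℕ) (T' : Finset (Fin m' × ℕ)) (a' : Fin m' → ℕ),
    IsForm X T a → IsForm Y T' a' → wt X T = ν → wt Y T' = ν →
      (γ.sum fun f c => c * (pullCoef f T a T' a' : ℚ)) = 0

end Pool.Agent.EFP
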