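import Pool.Agent.EFP.Defs
import Pool.Agent.ZIso.SFT

/-!
# Products of fibre products of elliptic fibrations: auxiliary definitions
-/

set_option autoImplicit false

noncomputable section

namespace Pool.Agent.EFP

open Pool.Agent.ZCyc Pool.Agent.VFP

universe u

variable {k : Type u} [Field k] {m m' : ℕ}

/-- zero-cycles on the product modulo rational equivalence -/
abbrev VP (X : Fin m → EF k) : Type u := (Pts m k →₀ ℚ) ⧸ ratEqP X

/-- the class of a point -/
def clP (X : Fin m → EF k) (x : Pts m k) : VP X := Submodule.Quotient.mk (Finsupp.single x 1)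

/-- fibrewise multiplication in all factors -/
def mulP (X : Fin m → EF k) {K : Type*} [Field K] (ε : Fin m → ℕ → SignType) (x : Pts m K) :
    Pts m K :=
  fun j => (X j).mul (ε j) (x j)

/-- all pairs `(j, b)` -/
def blocks (X : Fin m → EF k) : Finset (Fin m × ℕ) :=
  Finset.univ.biUnion fun j => (Finset.range (X j).r).map ⟨fun b => (j, b), fun _ _ h =>
    (Prod.ext_iff.1 h).2⟩

/-- the part of the class of the point `x` which belongs to `T` -/
def eP (X : Fin m → EF k) (T : Finset (Fin m × ℕ)) (x : Pts m k) : VP X :=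
  ∑ U ∈ T.powerset, ((-1 : ℚ) ^ (T \ U).card) • clP X (proj X U x)

/-- the span of the classes `eP T x` with `ν ≤ wt X T` -/
def FV (X : Fin m → EF k) (ν : ℕ) : Submodule ℚ (VP X) :=
  Submodule.span ℚ {e | ∃ (T : Finset (Fin m × ℕ)) (x : Pts m k), OnP X x ∧ T ⊆ blocks X ∧
    ν ≤ wt X T ∧ e = eP X T x}

/-- the base point -/
def oo {K : Type*} [Field K] : Pt K where
  s := ![1, 0]
  x _ := 1
  z _ := 0
  y _ := 0

/-- coordinates with `0` in the additional places -/
def pt {K : Type*} [Field K] {N r : ℕ} (w : Crd N r K) : Pt K where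
  s := w.s
  x i := if h : i < N then w.x ⟨i, h⟩ else 0
  z i := if h : i < N then w.z ⟨i, h⟩ else 0
  y b := if h : b < r then w.y ⟨b, h⟩ else 0

/-- the value of a component without the multiplications -/
def Comp.base {X : Fin m → EF k} {Z : EF k} (f : Comp X Z) (x : Pts m k) : Pt k :=
  match f with
  | .const w _ => w
  | .fac i _ _ => x i

/-- the value of a morphism without the multiplications -/
def Mor.base {X : Fin m → EF k} {Y : Fin m' → EF k} (f : Mor X Y) (x : Pts m k) : Pts m' k :=
  fun j => (f j).base x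

/-- the pairs `(i, b)`, where `i` is the number of the factor of `f j`, `(j, b) ∈ T'` -/
def srcT {X : Fin m → EF k} {Y : Fin m' → EF k} (f : Mor X Y) (T' : Finset (Fin m' × ℕ)) :
    Finset (Fin m × ℕ) :=
  T'.biUnion fun p => match (f p.1).src with
    | none => ∅
    | some i => {(i, p.2)}

/-- `f` induces a bijection from the factors in `T'` to the factors in `T` -/
def Bij {X : Fin m → EF k} {Y : Fin m' → EF k} (f : Mor X Y) (T : Finset (Fin m × ℕ))
    (T' : Finset (Fin m' × ℕ)) : Prop :=
  (∀ j, fib T' j ≠ ∅ → ∃ i, (f j).src = some i ∧ fib T i = fib T' j) ∧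
    ∀ i, fib T i ≠ ∅ → ∃! j, fib T' j ≠ ∅ ∧ (f j).src = some i

/-- the map of zero-cycles given by a morphism (well defined by `mapDomain_ratEqP`) -/
def pushV {X : Fin m → EF k} {Y : Fin m' → EF k} (f : Mor X Y)
    (h : ratEqP X ≤ (ratEqP Y).comap (Finsupp.lmapDomain ℚ ℚ f.app)) : VP X →ₗ[ℚ] VP Y :=
  (ratEqP X).mapQ (ratEqP Y) (Finsupp.lmapDomain ℚ ℚ f.app) h

end Pool.Agent.EFP
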