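import Pool.Agent.EFP.Bridge
import Pool.Agent.VFP.Value

/-!
# The fibres of a block modulo the change of sign are rational
-/

set_option autoImplicit false

noncomputable section

namespace Pool.Agent.EFP

open Pool.Agent.ZCyc Pool.Agent.VFP

universe u

variable {k : Type u} [Field k] [IsAlgClosed k] [CharZero k] {m : ℕ} {X : Fin m → EF k}

/-- the value `c` at `(j, b)` and `1` at all other places -/
def oneAt (j : Fin m) (b : ℕ) (c : SignType) : Fin m → ℕ → SignType :=
  fun j' b' => if j' = j ∧ b' = b then c else 1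

/-- the image of a point under `k → K` -/
private def cstP (K : Type*) [Field K] [Algebra k K] (w : Pt k) : Pt K where
  s j := algebraMap k K (w.s j)
  x i := algebraMap k K (w.x i)
  z i := algebraMap k K (w.z i)
  y b := algebraMap k K (w.y b)

omit [IsAlgClosed k] [CharZero k] in
private theorem aeval_cst {K : Type*} [Field K] [Algebra k K] (s : Fin 2 → k)
    (P : MvPolynomial (Fin 2) k) :
    MvPolynomial.aeval (fun j => algebraMap k K (s j)) P =
      algebraMap k K (MvPolynomial.aeval s P) := by
  rw [← MvPolynomial.aeval_algebraMap_apply]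
  rfl

omit [IsAlgClosed k] [CharZero k] in
private theorem fac_cst {N r : ℕ} {D : Dat k N r} {K : Type*} [Field K] [Algebra k K] (w : Pt k)
    (i : Fin N) : D.fac ((cstP K w).crd N r) i = algebraMap k K (D.fac (w.crd N r) i) := by
  unfold Dat.fac cstP Pt.crd
  simp only [aeval_cst, map_add, map_mul, map_pow]

omit [IsAlgClosed k] [CharZero k] in
private theorem onX_cst {Z : EF k} {K : Type*} [Field K] [Algebra k K] {w : Pt k}
    (h : Z.OnX w) : Z.OnX (cstP K w) := by
  refine ⟨?_, ?_, ?_⟩
  · intro h0
    apply h.1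
    funext j
    have h1 : algebraMap k K (w.s j) = 0 := congrFun h0 j
    exact (map_eq_zero (algebraMap k K)).1 h1
  · intro i
    rcases h.2.1 i with h1 | h1
    · left
      exact (map_ne_zero (algebraMap k K)).2 h1
    · right
      exact (map_ne_zero (algebraMap k K)).2 h1
  · intro b
    have h1 := congrArg (algebraMap k K) (h.2.2 b)
    rw [map_pow, map_prod] at h1
    simp only [fac_cst]
    exact h1

omit [IsAlgClosed k] [CharZero k] in
/-- values with the multipliers `1` -/
private theorem isValue_of {Z : EF k} {v : Place k (Om k)} {P : Pt (Om k)} {p : Pt k}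
    (hs : ∀ j, v.At (P.s j) (p.s j)) (hx : ∀ i, v.At (P.x i) (p.x i))
    (hz : ∀ i, v.At (P.z i) (p.z i)) (hy : ∀ b, v.At (P.y b) (p.y b)) : Z.IsValue v P p := by
  refine ⟨1, fun _ => 1, ?_, ?_, ?_, ?_⟩
  · intro j
    have e : (Z.D.scale 1 (fun _ => 1) (P.crd Z.N Z.r)).s j = P.s j := by
      simp [Dat.scale, Pt.crd]
    rw [e]
    exact hs j
  · intro i
    have e : (Z.D.scale 1 (fun _ => 1) (P.crd Z.N Z.r)).x i = P.x i := by
      simp [Dat.scale, Pt.crd]
    rw [e]
    exact hx i
  · intro i
    have e : (Z.D.scale 1 (fun _ => 1) (P.crd Z.N Z.r)).z i = P.z i := by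
      simp [Dat.scale, Pt.crd]
    rw [e]
    exact hz i
  · intro b
    have e : (Z.D.scale 1 (fun _ => 1) (P.crd Z.N Z.r)).y b = P.y b := by
      simp [Dat.scale, Pt.crd]
    rw [e]
    exact hy b

omit [IsAlgClosed k] [CharZero k] in
private theorem isValue_cst (Z : EF k) (v : Place k (Om k)) (w : Pt k) :
    Z.IsValue v (cstP (Om k) w) w :=
  isValue_of (fun _ => Place.at_const _) (fun _ => Place.at_const _) (fun _ => Place.at_const _)
    fun _ => Place.at_const _

/-- the family of points -/
private def fam (Z : EF k) (b : ℕ) (w : Pt k) (q : Om k) : Pt (Om k) where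
  s j := algebraMap k (Om k) (w.s j)
  x n := if Z.bk n = b then algebraMap k (Om k) (w.x n) * (1 - tt k) + tt k
    else algebraMap k (Om k) (w.x n)
  z n := if Z.bk n = b then algebraMap k (Om k) (w.z n) * (1 - tt k)
    else algebraMap k (Om k) (w.z n)
  y b' := if b' = b then q else algebraMap k (Om k) (w.y b')

variable {Z : EF k} {b : ℕ} {w : Pt k} {v : Place k (Om k)}

omit [IsAlgClosed k] [CharZero k] in
private theorem fam_x0 (hv : v.At (tt k) 0) (q : Om k) (n : ℕ) :
    v.At ((fam Z b w q).x n) (w.x n) := by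
  change v.At (if Z.bk n = b then algebraMap k (Om k) (w.x n) * (1 - tt k) + tt k
    else algebraMap k (Om k) (w.x n)) (w.x n)
  split_ifs
  · have h := ((Place.at_const (w.x n)).mul (at_one.sub hv)).add hv
    simpa using h
  · exact Place.at_const _

omit [IsAlgClosed k] [CharZero k] in
private theorem fam_z0 (hv : v.At (tt k) 0) (q : Om k) (n : ℕ) :
    v.At ((fam Z b w q).z n) (w.z n) := by
  change v.At (if Z.bk n = b then algebraMap k (Om k) (w.z n) * (1 - tt k)
    else algebraMap k (Om k) (w.z n)) (w.z n)
  split_ifs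
  · have h := (Place.at_const (w.z n)).mul (at_one.sub hv)
    simpa using h
  · exact Place.at_const _

omit [IsAlgClosed k] [CharZero k] in
private theorem fac_at {P : Pt (Om k)} {p : Pt k} (hs : P.s = fun j => algebraMap k (Om k) (p.s j))
    (i : Fin Z.N) (hx : v.At (P.x i) (p.x i)) (hz : v.At (P.z i) (p.z i)) :
    v.At (Z.D.fac (P.crd Z.N Z.r) i) (Z.D.fac (p.crd Z.N Z.r) i) := by
  have e : ∀ A : MvPolynomial (Fin 2) k, v.At (MvPolynomial.aeval (P.crd Z.N Z.r).s A)
      (MvPolynomial.aeval (p.crd Z.N Z.r).s A) := by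
    intro A
    have h1 : (P.crd Z.N Z.r).s = fun j => algebraMap k (Om k) (p.s j) := hs
    rw [h1, aeval_cst]
    exact Place.at_const _
  exact hz.mul (((hx.pow 3).add (((e _).mul hx).mul (hz.pow 2))).add ((e _).mul (hz.pow 3)))

omit [IsAlgClosed k] [CharZero k] in
private theorem fac_fam (q q' : Om k) (i : Fin Z.N) :
    Z.D.fac ((fam Z b w q).crd Z.N Z.r) i = Z.D.fac ((fam Z b w q').crd Z.N Z.r) i := rfl

omit [IsAlgClosed k] [CharZero k] in
private theorem fac_fam_ne (q : Om k) (i : Fin Z.N) (h : (Z.D.blk i : ℕ) ≠ b) :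
    Z.D.fac ((fam Z b w q).crd Z.N Z.r) i = algebraMap k (Om k) (Z.D.fac (w.crd Z.N Z.r) i) := by
  rw [← fac_cst]
  have h1 : Z.bk i ≠ b := by
    rw [bk_eq]
    exact h
  unfold Dat.fac
  have ex : ((fam Z b w q).crd Z.N Z.r).x i = ((cstP (Om k) w).crd Z.N Z.r).x i := if_neg h1
  have ez : ((fam Z b w q).crd Z.N Z.r).z i = ((cstP (Om k) w).crd Z.N Z.r).z i := if_neg h1
  rw [ex, ez]
  rfl

private theorem onX_fam (h : Z.OnX w) (hb : b < Z.r) {q : Om k}
    (hq : q ^ 2 = ∏ i with Z.D.blk i = ⟨b, hb⟩, Z.D.fac ((fam Z b w 0).crd Z.N Z.r) i) :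
    Z.OnX (fam Z b w q) := by
  obtain ⟨v₀, hv₀⟩ := exists_place (tt_transc (k := k)) (0 : k)
  refine ⟨(onX_cst (K := Om k) h).1, fun i => ?_, fun b' => ?_⟩
  · rcases h.2.1 i with h1 | h1
    · left
      intro h2
      have h3 := fam_x0 (Z := Z) (b := b) (w := w) hv₀ q i
      have h4 : (fam Z b w q).x i = 0 := h2
      rw [h4] at h3
      exact h1 (h3.unique at_zero)
    · right
      intro h2
      have h3 := fam_z0 (Z := Z) (b := b) (w := w) hv₀ q i
      have h4 : (fam Z b w q).z i = 0 := h2
      rw [h4] at h3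
      exact h1 (h3.unique at_zero)
  · by_cases hbb : (b' : ℕ) = b
    · have e1 : b' = ⟨b, hb⟩ := Fin.ext hbb
      subst e1
      have e2 : ((fam Z b w q).crd Z.N Z.r).y ⟨b, hb⟩ = q := if_pos rfl
      rw [e2, hq]
      rfl
    · have e2 : ((fam Z b w q).crd Z.N Z.r).y b' = algebraMap k (Om k) ((w.crd Z.N Z.r).y b') :=
        if_neg hbb
      rw [e2, ← map_pow, h.2.2 b', map_prod]
      refine Finset.prod_congr rfl fun i hi => ?_
      rw [Finset.mem_filter] at hi
      refine (fac_fam_ne q i ?_).symm
      rw [hi.2]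
      exact hbb

omit [IsAlgClosed k] [CharZero k] in
private theorem isValue_fam0 (hv : v.At (tt k) 0) {q : Om k} {p : Pt k} (hs : p.s = w.s)
    (hx : p.x = w.x) (hz : p.z = w.z) (hy : ∀ b', b' ≠ b → p.y b' = w.y b')
    (hq : v.At q (p.y b)) : Z.IsValue v (fam Z b w q) p := by
  refine isValue_of (fun j => ?_) (fun n => ?_) (fun n => ?_) (fun b' => ?_)
  · rw [hs]
    exact Place.at_const _
  · rw [hx]
    exact fam_x0 hv q n
  · rw [hz]
    exact fam_z0 hv q n
  · change v.At (if b' = b then q else algebraMap k (Om k) (w.y b')) (p.y b')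
    split_ifs with h
    · rw [h]
      exact hq
    · rw [hy b' h]
      exact Place.at_const _

omit [IsAlgClosed k] [CharZero k] in
private theorem isValue_fam1 (hv : v.At (tt k) 1) {q : Om k} (hq : v.At q 0) (j : Fin m) :
    Z.IsValue v (fam Z b w q) (Z.mul (oneAt j b 0 j) w) := by
  have e0 : ∀ n, (oneAt j b 0 j n = 0) ↔ n = b := by
    intro n
    unfold oneAt
    by_cases h : n = b <;> simp [h]
  refine isValue_of (fun j => ?_) (fun n => ?_) (fun n => ?_) (fun b' => ?_)
  · exact Place.at_const _
  · change v.At (if Z.bk n = b then algebraMap k (Om k) (w.x n) * (1 - tt k) + tt k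
      else algebraMap k (Om k) (w.x n)) (if oneAt j b 0 j (Z.bk n) = 0 then 1 else w.x n)
    by_cases h : Z.bk n = b
    · rw [if_pos h, if_pos ((e0 _).2 h)]
      have h1 := ((Place.at_const (w.x n)).mul (at_one.sub hv)).add hv
      simpa using h1
    · rw [if_neg h, if_neg (fun h' => h ((e0 _).1 h'))]
      exact Place.at_const _
  · change v.At (if Z.bk n = b then algebraMap k (Om k) (w.z n) * (1 - tt k)
      else algebraMap k (Om k) (w.z n)) (if oneAt j b 0 j (Z.bk n) = 0 then 0 else w.z n)
    by_cases h : Z.bk n = b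
    · rw [if_pos h, if_pos ((e0 _).2 h)]
      have h1 := (Place.at_const (w.z n)).mul (at_one.sub hv)
      simpa using h1
    · rw [if_neg h, if_neg (fun h' => h ((e0 _).1 h'))]
      exact Place.at_const _
  · change v.At (if b' = b then q else algebraMap k (Om k) (w.y b'))
      ((((oneAt j b 0 j b' : SignType) : ℤ) : k) * w.y b')
    by_cases h : b' = b
    · rw [if_pos h, (e0 _).2 h]
      simpa using hq
    · have h1 : oneAt j b 0 j b' = 1 := by
        unfold oneAt
        simp [h]
      rw [if_neg h, h1]
      have h2 : (((((1 : SignType) : SignType) : ℤ) : k) * w.y b') = w.y b' := by simp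
      rw [h2]
      exact Place.at_const _

omit [IsAlgClosed k] [CharZero k] in
private theorem mulP_ne {x : Pts m k} {j j' : Fin m} (h : j' ≠ j) (b : ℕ) (c : SignType) :
    mulP X (oneAt j b c) x j' = x j' := by
  have h1 : ∀ n, oneAt j b c j' n = 1 := by
    intro n
    unfold oneAt
    simp [h]
  refine Pt.ext rfl ?_ ?_ ?_
  · funext n
    change (if oneAt j b c j' ((X j').bk n) = 0 then 1 else (x j').x n) = (x j').x n
    rw [h1]
    simp
  · funext n
    change (if oneAt j b c j' ((X j').bk n) = 0 then 0 else (x j').z n) = (x j').z n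
    rw [h1]
    simp
  · funext n
    change (((oneAt j b c j' n : SignType) : ℤ) : k) * (x j').y n = (x j').y n
    rw [h1]
    simp

/-- the family of points of the product -/
private def famP (X : Fin m → EF k) (j : Fin m) (b : ℕ) (x : Pts m k) (q : Om k) :
    Pts m (Om k) := Function.update (fun j' => cstP (Om k) (x j')) j (fam (X j) b (x j) q)

private theorem onP_famP {x : Pts m k} (hx : OnP X x) {j : Fin m} {q : Om k}
    (h : (X j).OnX (fam (X j) b (x j) q)) : OnP X (famP X j b x q) := by
  intro j'
  by_cases h1 : j' = j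
  · subst h1
    unfold famP
    rw [Function.update_self]
    exact h
  · unfold famP
    rw [Function.update_of_ne h1]
    exact onX_cst (hx j')

private theorem isValue_famP {x : Pts m k} {j : Fin m} {q : Om k} {p : Pts m k}
    (h : (X j).IsValue v (fam (X j) b (x j) q) (p j)) (h' : ∀ j', j' ≠ j → p j' = x j')
    (j' : Fin m) : (X j').IsValue v (famP X j b x q j') (p j') := by
  by_cases h1 : j' = j
  · subst h1
    unfold famP
    rw [Function.update_self]
    exact h
  · unfold famP
    rw [Function.update_of_ne h1, h' j' h1]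
    exact isValue_cst _ v _

omit [IsAlgClosed k] [CharZero k] in
private theorem flip_y (x : Pts m k) (j : Fin m) (b : ℕ) :
    (mulP X (oneAt j b (-1)) x j).y b = -(x j).y b := by
  change (((oneAt j b (-1) j b : SignType) : ℤ) : k) * (x j).y b = -(x j).y b
  have h1 : oneAt j b (-1) j b = -1 := by
    unfold oneAt
    simp
  rw [h1]
  simp

private theorem isValue_flip {x : Pts m k} {j : Fin m} {q : Om k} (hv : v.At (tt k) 0)
    (hq : v.At q (-(x j).y b)) :
    (X j).IsValue v (fam (X j) b (x j) q) (mulP X (oneAt j b (-1)) x j) := by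
  have e0 : ∀ n, oneAt j b (-1) j n ≠ 0 := by
    intro n
    unfold oneAt
    by_cases h : n = b <;> simp [h]
  refine isValue_fam0 hv rfl ?_ ?_ ?_ (by rw [flip_y]; exact hq)
  · funext n
    change (if oneAt j b (-1) j ((X j).bk n) = 0 then 1 else (x j).x n) = (x j).x n
    rw [if_neg (e0 _)]
  · funext n
    change (if oneAt j b (-1) j ((X j).bk n) = 0 then 0 else (x j).z n) = (x j).z n
    rw [if_neg (e0 _)]
  · intro b' hb'
    change (((oneAt j b (-1) j b' : SignType) : ℤ) : k) * (x j).y b' = (x j).y b'
    have h1 : oneAt j b (-1) j b' = 1 := by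
      unfold oneAt
      simp [hb']
    rw [h1]
    simp

/-- `[x] + [x with - y_b] = 2 [x with the block b replaced by the zero section]`: use `bridgeP` with
`I = Bool` and the two families (the same for all coordinates which are not in the block `b` of the
factor `j`) with the homogeneous coordinates `(x_i (1 - t) + t, z_i (1 - t))` for the indices `i` of
the block and `y_b = ± √(∏ i, fac_i)` (choose a square root in `Om k` with
`IsAlgClosed.exists_pow_nat_eq`), `c₀ = 0`, `c₁ = 1`. The coordinates are on `X` since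
`(x_i (1 - t) + t, z_i (1 - t)) ≠ 0`: `t` is transcendental. Values at a place above `0`: the
coordinates `x_i`, `z_i` themselves (`c = 1`, `m = 1` in `IsValue`), and the value `d` of `y_b`
satisfies `d ^ 2 = y_b ^ 2` (`VFP.exists_sq_at`), so the two values are `x` and
`mulP X (oneAt j b (-1)) x` in some order. Values at a place above `1`: `(1, 0)` and `y_b = 0`. Only
the coordinates with `i < N`, `b < r` matter (`clP_crd`), so it is convenient to use
`pt ((x j).crd _ _)`. The constant coordinates are `algebraMap k (Om k) _` (see `cstP` in Gen.lean: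
private, make a copy). -/
theorem clP_flip {x : Pts m k} (hx : OnP X x) (j : Fin m) {b : ℕ} (hb : b < (X j).r) :
    clP X x + clP X (mulP X (oneAt j b (-1)) x) = (2 : ℚ) • clP X (mulP X (oneAt j b 0) x) := by
  obtain ⟨q, hq⟩ := IsAlgClosed.exists_pow_nat_eq
    (∏ i with (X j).D.blk i = ⟨b, hb⟩, (X j).D.fac ((fam (X j) b (x j) 0).crd (X j).N (X j).r) i)
    (n := 2) two_pos
  have hon : ∀ i : Bool, OnP X (famP X j b x (if i then q else -q)) := by
    intro i
    refine onP_famP hx (onX_fam (hx j) hb ?_)
    cases i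
    · simpa using hq
    · simpa using hq
  refine bridgeP (I := Bool) (fun _ => 1) (fun i => famP X j b x (if i then q else -q)) hon 0 1 _ _
    ?_ ?_
  · intro v hv
    have h1 : v.At (∏ i with (X j).D.blk i = ⟨b, hb⟩,
        (X j).D.fac ((fam (X j) b (x j) 0).crd (X j).N (X j).r) i) ((x j).y b ^ 2) := by
      have h2 := (hx j).2.2 ⟨b, hb⟩
      have h3 : ((x j).crd (X j).N (X j).r).y ⟨b, hb⟩ = (x j).y b := rfl
      rw [h3] at h2
      rw [h2]
      exact at_prod _ fun i _ => fac_at rfl i (fam_x0 hv 0 i) (fam_z0 hv 0 i)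
    obtain ⟨d, hd, hd2⟩ := exists_sq_at hq h1
    rcases sq_eq_sq_iff_eq_or_eq_neg.1 hd2 with h | h
    · subst h
      refine ⟨fun i => if i then x else mulP X (oneAt j b (-1)) x, ?_, ?_, ?_⟩
      · intro i
        cases i
        · exact onP_mulP hx _
        · exact hx
      · intro i j'
        cases i
        · exact isValue_famP (isValue_flip hv hd.neg) (fun j' hj' => mulP_ne hj' b _) j'
        · exact isValue_famP (isValue_fam0 hv rfl rfl rfl (fun _ _ => rfl) hd)
            (fun _ _ => rfl) j'
      · rw [Fintype.sum_bool]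
        simp
    · subst h
      refine ⟨fun i => if i then mulP X (oneAt j b (-1)) x else x, ?_, ?_, ?_⟩
      · intro i
        cases i
        · exact hx
        · exact onP_mulP hx _
      · intro i j'
        cases i
        · refine isValue_famP (isValue_fam0 hv rfl rfl rfl (fun _ _ => rfl) ?_)
            (fun _ _ => rfl) j'
          have h4 := hd.neg
          rw [neg_neg] at h4
          exact h4
        · exact isValue_famP (isValue_flip hv hd) (fun j' hj' => mulP_ne hj' b _) j'
      · rw [Fintype.sum_bool]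
        simp [add_comm]
  · intro v hv
    have hq0 : v.At q 0 := by
      obtain ⟨i₀, hi₀⟩ := (X j).surj ⟨b, hb⟩
      have h1 : v.At (∏ i with (X j).D.blk i = ⟨b, hb⟩,
          (X j).D.fac ((fam (X j) b (x j) 0).crd (X j).N (X j).r) i)
          (∏ i with (X j).D.blk i = ⟨b, hb⟩,
            (X j).D.fac ((((X j).mul (oneAt j b 0 j) (x j))).crd (X j).N (X j).r) i) := by
        refine at_prod _ fun i hi => ?_
        have hi' : (X j).bk i = b := by
          rw [bk_eq, (Finset.mem_filter.1 hi).2]
        have e0 : oneAt j b 0 j ((X j).bk i) = 0 := by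
          rw [hi']
          unfold oneAt
          simp
        refine fac_at rfl i ?_ ?_
        · change v.At (if (X j).bk i = b then algebraMap k (Om k) ((x j).x i) * (1 - tt k) + tt k
            else algebraMap k (Om k) ((x j).x i))
            (if oneAt j b 0 j ((X j).bk i) = 0 then 1 else (x j).x i)
          rw [if_pos hi', if_pos e0]
          have h1 := ((Place.at_const ((x j).x i)).mul (at_one.sub hv)).add hv
          simpa using h1
        · change v.At (if (X j).bk i = b then algebraMap k (Om k) ((x j).z i) * (1 - tt k)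
            else algebraMap k (Om k) ((x j).z i))
            (if oneAt j b 0 j ((X j).bk i) = 0 then 0 else (x j).z i)
          rw [if_pos hi', if_pos e0]
          have h1 := (Place.at_const ((x j).z i)).mul (at_one.sub hv)
          simpa using h1
      have h2 : ∏ i with (X j).D.blk i = ⟨b, hb⟩,
          (X j).D.fac ((((X j).mul (oneAt j b 0 j) (x j))).crd (X j).N (X j).r) i = 0 := by
        refine Finset.prod_eq_zero (i := i₀) (by simp [hi₀]) ?_
        have hi' : (X j).bk i₀ = b := by
          rw [bk_eq, hi₀]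
        have e0 : oneAt j b 0 j ((X j).bk i₀) = 0 := by
          rw [hi']
          unfold oneAt
          simp
        have e1 : (((X j).mul (oneAt j b 0 j) (x j)).crd (X j).N (X j).r).z i₀ = 0 := if_pos e0
        unfold Dat.fac
        rw [e1, zero_mul]
      rw [h2] at h1
      obtain ⟨d, hd, hd2⟩ := exists_sq_at hq h1
      rwa [pow_eq_zero_iff two_ne_zero |>.1 hd2] at hd
    have hq1 : ∀ i : Bool, v.At (if i then q else -q) 0 := by
      intro i
      cases i
      · have h3 := hq0.neg
        rw [neg_zero] at h3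
        exact h3
      · exact hq0
    have key : ∀ i : Bool, (X j).IsValue v (fam (X j) b (x j) (if i then q else -q))
        (mulP X (oneAt j b 0) x j) := fun i =>
      isValue_fam1 (Z := X j) (b := b) (w := x j) hv (hq1 i) j
    have key' : ∀ j', j' ≠ j → mulP X (oneAt j b 0) x j' = x j' := fun j' hj' =>
      mulP_ne hj' b 0
    refine ⟨fun _ => mulP X (oneAt j b 0) x, fun _ => onP_mulP hx _,
      fun i j' => isValue_famP (key i) key' j', ?_⟩
    rw [Fintype.sum_bool, two_smul, one_smul]

end Pool.Agent.EFP
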