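import Pool.Agent.EFP.Bridge
import Pool.Agent.VFP.Value
import Pool.Agent.VFP.Scale

/-!
# Points on the zero section
-/

set_option autoImplicit false

noncomputable section

namespace Pool.Agent.EFP

open Pool.Agent.ZCyc Pool.Agent.VFP

universe u

variable {k : Type u} [Field k] [IsAlgClosed k] [CharZero k] {m : ℕ} {X : Fin m → EF k}

/-- constant points -/
private def cpt (w : Pt k) : Pt (Om k) where
  s j := algebraMap k (Om k) (w.s j)
  x i := algebraMap k (Om k) (w.x i)
  z i := algebraMap k (Om k) (w.z i)
  y b := algebraMap k (Om k) (w.y b)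

private theorem onX_cpt {Z : EF k} {w : Pt k} (h : Z.OnX w) : Z.OnX (cpt w) :=
  VFP.onX_cst (K := Om k) h

private theorem isValue_cpt (Z : EF k) (v : Place k (Om k)) (w : Pt k) :
    Z.IsValue v (cpt w) w := VFP.isValue_cst v (w.crd Z.N Z.r)

/-- the moving point on the zero section -/
private def mvg (s : Fin 2 → k) : Pt (Om k) where
  s := ![(1 - tt k) * algebraMap k (Om k) (s 0) + tt k, (1 - tt k) * algebraMap k (Om k) (s 1)]
  x _ := 1
  z _ := 0
  y _ := 0

private theorem mvg_at_zero (s : Fin 2 → k) {v : Place k (Om k)} (hv : v.At (tt k) 0)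
    (j : Fin 2) : v.At ((mvg s).s j) (s j) := by
  fin_cases j
  · have h := ((at_one.sub hv).mul (Place.at_const (s 0))).add hv
    rwa [sub_zero, one_mul, add_zero] at h
  · have h := (at_one.sub hv).mul (Place.at_const (s 1))
    rwa [sub_zero, one_mul] at h

private theorem mvg_at_one (s : Fin 2 → k) {v : Place k (Om k)} (hv : v.At (tt k) 1)
    (j : Fin 2) : v.At ((mvg s).s j) ((oo : Pt k).s j) := by
  fin_cases j
  · have h := ((at_one.sub hv).mul (Place.at_const (s 0))).add hv
    rwa [sub_self, zero_mul, zero_add] at h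
  · have h := (at_one.sub hv).mul (Place.at_const (s 1))
    rwa [sub_self, zero_mul] at h

private theorem mvg_onX (Z : EF k) {s : Fin 2 → k} (hs : s ≠ 0) : Z.OnX (mvg s) := by
  refine ⟨?_, fun i => Or.inl one_ne_zero, fun b => ?_⟩
  · intro h0
    apply hs
    obtain ⟨v, hv⟩ := exists_place (tt_transc (k := k)) (0 : k)
    funext j
    have h1 := mvg_at_zero s hv j
    have h2 : (mvg s).s j = 0 := congrFun h0 j
    rw [h2] at h1
    exact h1.unique at_zero
  · obtain ⟨i, hi⟩ := Z.surj b
    have h1 : Z.D.fac ((mvg s).crd Z.N Z.r) i = 0 := by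
      unfold Dat.fac
      exact zero_mul _
    rw [Finset.prod_eq_zero (Finset.mem_filter.2 ⟨Finset.mem_univ i, hi⟩) h1]
    exact zero_pow two_ne_zero

/-- values of the moving point -/
private theorem mvg_value (Z : EF k) {s : Fin 2 → k} {v : Place k (Om k)} {w : Pt k}
    (hs : ∀ j, v.At ((mvg s).s j) (w.s j)) (hz : ∀ i : Fin Z.N, w.z i = 0)
    (hy : ∀ b : Fin Z.r, w.y b = 0) : Z.IsValue v (mvg s) w := by
  refine ⟨1, fun i => algebraMap k (Om k) (w.x i), ?_, ?_, ?_, ?_⟩
  · intro j
    have e : (Z.D.scale 1 (fun i => algebraMap k (Om k) (w.x i)) ((mvg s).crd Z.N Z.r)).s j =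
        (mvg s).s j := by
      show 1 * (mvg s).s j = (mvg s).s j
      rw [one_mul]
    rw [e]
    exact hs j
  · intro i
    have e : (Z.D.scale 1 (fun i => algebraMap k (Om k) (w.x i)) ((mvg s).crd Z.N Z.r)).x i =
        algebraMap k (Om k) (w.x i) := by
      show 1 ^ Z.D.deg i * algebraMap k (Om k) (w.x i) * 1 = _
      rw [one_pow, one_mul, mul_one]
    rw [e]
    exact Place.at_const _
  · intro i
    have e : (Z.D.scale 1 (fun i => algebraMap k (Om k) (w.x i)) ((mvg s).crd Z.N Z.r)).z i =
        0 := by
      show algebraMap k (Om k) (w.x i) * 0 = 0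
      rw [mul_zero]
    have e' : (w.crd Z.N Z.r).z i = 0 := hz i
    rw [e, e']
    exact at_zero
  · intro b
    have e : (Z.D.scale 1 (fun i => algebraMap k (Om k) (w.x i)) ((mvg s).crd Z.N Z.r)).y b =
        0 := by
      show 1 ^ Z.D.wy b * (∏ i with Z.D.blk i = b, algebraMap k (Om k) (w.x i)) ^ 2 * 0 = 0
      rw [mul_zero]
    have e' : (w.crd Z.N Z.r).y b = 0 := hy b
    rw [e, e']
    exact at_zero

/-- If all blocks of the factor `j` are at the zero section, then the point can be moved on the zero
section: use `bridgeP` with `I = Unit` and the family with `s = ((1 - t) s₀ + t, (1 - t) s₁)` in the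
factor `j` (and `x_i = 1`, `z_i = 0`, `y_b = 0`), `c₀ = 0`, `c₁ = 1`; at `t = 0` one gets
`x_i = 1` instead of the given `x_i ≠ 0` (use the multipliers `m i` in `IsValue`, or the values
`x_i`, with `m i = x_i`). Here `y_b = 0` follows from `OnX` and `EF.surj`. -/
theorem clP_line {x : Pts m k} (hx : OnP X x) (j : Fin m)
    (hz : ∀ i : Fin (X j).N, (x j).z i = 0) : clP X x = clP X (Function.update x j oo) := by
  classical
  have hy : ∀ b : Fin (X j).r, (x j).y b = 0 := by
    intro b
    obtain ⟨i, hi⟩ := (X j).surj b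
    have h1 : (X j).D.fac ((x j).crd (X j).N (X j).r) i = 0 := by
      unfold Dat.fac
      have h2 : ((x j).crd (X j).N (X j).r).z i = 0 := hz i
      rw [h2, zero_mul]
    have h3 := (hx j).2.2 b
    rw [Finset.prod_eq_zero (Finset.mem_filter.2 ⟨Finset.mem_univ i, hi⟩) h1] at h3
    exact (pow_eq_zero_iff two_ne_zero).1 h3
  refine bridgeP (I := Unit) (fun _ => 1)
    (fun _ => Function.update (fun i => cpt (x i)) j (mvg (x j).s))
    (fun _ i => ?_) 0 1 _ _ ?_ ?_
  · by_cases hi : i = j
    · subst hi
      rw [Function.update_self]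
      exact mvg_onX _ (hx i).1
    · rw [Function.update_of_ne hi]
      exact onX_cpt (hx i)
  · intro v hv
    refine ⟨fun _ => x, fun _ => hx, fun _ i => ?_, by simp⟩
    by_cases hi : i = j
    · subst hi
      rw [Function.update_self]
      exact mvg_value _ (mvg_at_zero _ hv) hz hy
    · rw [Function.update_of_ne hi]
      exact isValue_cpt _ v _
  · intro v hv
    refine ⟨fun _ => Function.update x j oo, fun _ i => ?_, fun _ i => ?_, by simp⟩
    · show (X i).OnX (Function.update x j oo i)
      by_cases hi : i = j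
      · subst hi
        rw [Function.update_self]
        exact onX_oo _
      · rw [Function.update_of_ne hi]
        exact hx i
    · show (X i).IsValue v (Function.update (fun i => cpt (x i)) j (mvg (x j).s) i)
        (Function.update x j oo i)
      by_cases hi : i = j
      · subst hi
        rw [Function.update_self, Function.update_self]
        exact mvg_value _ (mvg_at_one _ hv) (fun _ => rfl) (fun _ => rfl)
      · rw [Function.update_of_ne hi, Function.update_of_ne hi]
        exact isValue_cpt _ v _

end Pool.Agent.EFP
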