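import Pool.Agent.EFP.EBasic
import Pool.Agent.EFP.RC
import Pool.Agent.EFP.RCLine

/-!
# The calculus of the classes `eP`
-/

set_option autoImplicit false

noncomputable section

namespace Pool.Agent.EFP

open Pool.Agent.ZCyc Pool.Agent.VFP

universe u

variable {k : Type u} [Field k] [IsAlgClosed k] [CharZero k] {m : ℕ} {X : Fin m → EF k}

private lemma e_split {V : Type*} [AddCommGroup V] [Module ℚ V] {T : Finset (Fin m × ℕ)}
    {p : Fin m × ℕ} (hp : p ∈ T) (f : Finset (Fin m × ℕ) → V) :
    ∑ U ∈ T.powerset, f U = ∑ U ∈ (T.erase p).powerset, (f U + f (insert p U)) := by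
  conv_lhs => rw [← Finset.insert_erase hp]
  rw [Finset.sum_powerset_insert (Finset.notMem_erase p T), Finset.sum_add_distrib]

private lemma e_proj_mul (U : Finset (Fin m × ℕ)) (ε ε' : Fin m → ℕ → SignType) (x : Pts m k)
    (h : ∀ j b, (if (j, b) ∈ U then (1 : SignType) else 0) * ε j b = ε' j b) :
    proj X U (mulP X ε x) = mulP X ε' x := by
  rw [proj_eq, mulP_mulP]
  congr 1
  funext j b
  exact h j b

private lemma e_one {T : Finset (Fin m × ℕ)} {x : Pts m k} (ε : Fin m → ℕ → SignType)
    (h : ∀ p ∈ T, ε p.1 p.2 = 1) : eP X T (mulP X ε x) = eP X T x := by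
  unfold eP
  refine Finset.sum_congr rfl fun U hU => ?_
  have hU' := Finset.mem_powerset.mp hU
  rw [e_proj_mul U ε (fun j b => if (j, b) ∈ U then 1 else 0) x, ← proj_eq]
  intro j b
  split_ifs with h1
  · rw [h _ (hU' h1), mul_one]
  · rw [zero_mul]

private lemma e_single {T : Finset (Fin m × ℕ)} (hT : T ⊆ blocks X) {x : Pts m k}
    (hx : OnP X x) (j : Fin m) (b : ℕ) (c : SignType) :
    eP X T (mulP X (oneAt j b c) x) =
      (if (j, b) ∈ T then (((c : SignType) : ℤ) : ℚ) else 1) • eP X T x := by
  by_cases hT1 : (j, b) ∈ T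
  · rw [if_pos hT1]
    have hb : b < (X j).r := mem_blocks.1 (hT hT1)
    by_cases hc1 : c = 1
    · subst hc1
      rw [e_one]
      · simp
      · intro p _
        unfold oneAt
        split_ifs <;> rfl
    · unfold eP
      rw [e_split hT1, e_split hT1, Finset.smul_sum]
      refine Finset.sum_congr rfl fun U hU => ?_
      have hU' := Finset.mem_powerset.mp hU
      have hpU : (j, b) ∉ U := fun h => Finset.notMem_erase _ T (hU' h)
      have hc : (T \ U).card = (T \ insert (j, b) U).card + 1 := by
        have h1 : T \ U = insert (j, b) (T \ insert (j, b) U) := by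
          ext q
          simp only [Finset.mem_sdiff, Finset.mem_insert, not_or]
          constructor
          · rintro ⟨h1, h2⟩
            by_cases h3 : q = (j, b)
            · exact Or.inl h3
            · exact Or.inr ⟨h1, h3, h2⟩
          · rintro (rfl | ⟨h1, h2, h3⟩)
            · exact ⟨hT1, hpU⟩
            · exact ⟨h1, h3⟩
        rw [h1, Finset.card_insert_of_notMem (by simp)]
      set z := proj X (insert (j, b) U) x with hz
      have hzP : OnP X z := onP_proj hx _
      have e1 : proj X U x = mulP X (oneAt j b 0) z := by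
        rw [hz, proj_eq, proj_eq, mulP_mulP]
        congr 1
        funext j' b'
        unfold oneAt
        by_cases h1 : (j', b') = (j, b)
        · obtain ⟨rfl, rfl⟩ := Prod.ext_iff.1 h1
          simp [hpU]
        · have h2 : ¬ (j' = j ∧ b' = b) := fun h => h1 (Prod.ext h.1 h.2)
          rw [if_neg h2, one_mul]
          simp [Finset.mem_insert, h1]
      have e2 : proj X U (mulP X (oneAt j b c) x) = mulP X (oneAt j b 0) z := by
        rw [← e1, e_proj_mul U (oneAt j b c) (fun j b => if (j, b) ∈ U then 1 else 0) x, ← proj_eq]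
        intro j' b'
        unfold oneAt
        by_cases h1 : (j', b') = (j, b)
        · obtain ⟨rfl, rfl⟩ := Prod.ext_iff.1 h1
          simp [hpU]
        · have h2 : ¬ (j' = j ∧ b' = b) := fun h => h1 (Prod.ext h.1 h.2)
          rw [if_neg h2, mul_one]
      have e3 : proj X (insert (j, b) U) (mulP X (oneAt j b c) x) = mulP X (oneAt j b c) z := by
        rw [hz, proj_eq, proj_eq, mulP_mulP, mulP_mulP]
        congr 1
        funext j' b'
        exact mul_comm _ _
      rw [e1, e2, e3, hc, pow_succ]
      have hfl := clP_flip hzP j hb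
      rcases c with _ | _ | _
      · have h0 : (SignType.zero : SignType) = 0 := rfl
        rw [h0, SignType.coe_zero, Int.cast_zero, zero_smul]
        module
      · have h0 : (SignType.neg : SignType) = -1 := rfl
        rw [h0]
        have h3 : clP X (mulP X (oneAt j b (-1)) z) =
            (2 : ℚ) • clP X (mulP X (oneAt j b 0) z) - clP X z := by
          rw [← hfl]
          abel
        rw [h3]
        have h4 : (((-1 : SignType) : ℤ) : ℚ) = -1 := by norm_num
        rw [h4]
        module
      · exact absurd rfl hc1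
  · rw [if_neg hT1, one_smul, e_one]
    intro p hp
    unfold oneAt
    rw [if_neg]
    rintro ⟨h1, h2⟩
    exact hT1 (by rw [← h1, ← h2]; exact hp)

private lemma e_part {T : Finset (Fin m × ℕ)} (hT : T ⊆ blocks X) {x : Pts m k}
    (hx : OnP X x) (ε : Fin m → ℕ → SignType) (B : Finset (Fin m × ℕ)) :
    eP X T (mulP X (fun j b => if (j, b) ∈ B then ε j b else 1) x) =
      (∏ p ∈ T, if p ∈ B then (((ε p.1 p.2 : SignType) : ℤ) : ℚ) else 1) • eP X T x := by
  induction B using Finset.induction_on with
  | empty =>
    rw [e_one]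
    · simp
    · intro p _
      simp
  | insert q B hq ih =>
    have e1 : mulP X (fun j b => if (j, b) ∈ insert q B then ε j b else 1) x =
        mulP X (oneAt q.1 q.2 (ε q.1 q.2))
          (mulP X (fun j b => if (j, b) ∈ B then ε j b else 1) x) := by
      rw [mulP_mulP]
      congr 1
      funext j b
      unfold oneAt
      by_cases h1 : (j, b) = q
      · subst h1
        simp [hq]
      · have h2 : ¬ (j = q.1 ∧ b = q.2) := fun h => h1 (Prod.ext h.1 h.2)
        rw [if_neg h2, one_mul]
        simp [Finset.mem_insert, h1]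
    rw [e1, e_single hT (onP_mulP hx _), ih, smul_smul]
    congr 1
    have e2 : ∀ p ∈ T, (if p ∈ insert q B then (((ε p.1 p.2 : SignType) : ℤ) : ℚ) else 1) =
        (if p = q then (((ε q.1 q.2 : SignType) : ℤ) : ℚ) else 1) *
          (if p ∈ B then (((ε p.1 p.2 : SignType) : ℤ) : ℚ) else 1) := by
      intro p _
      by_cases h1 : p = q
      · subst h1
        simp [hq]
      · simp [Finset.mem_insert, h1]
    rw [Finset.prod_congr rfl e2, Finset.prod_mul_distrib]
    congr 1
    rw [Finset.prod_ite_eq']

/-- Fibrewise multiplications act on `eP X T x` by the product of the multipliers. It suffices to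
prove this for `oneAt j b c` (induction on the set of the pairs in `blocks X` where `ε ≠ 1`, with
`clP_mulP_congr` and `mulP_mulP`). For `(j, b) ∉ T` the points `π_U x`, `U ⊆ T`, do not change. For
`(j, b) ∈ T` put `U` and `insert (j, b) U` together: for `c = 0` the sum is `0`, for `c = -1` one
has `[π_(insert (j, b) U) x] + [π_(insert (j, b) U) (x with - y_b)] = 2 [π_U x]` by `clP_flip`. -/
theorem eP_mul {T : Finset (Fin m × ℕ)} (hT : T ⊆ blocks X) {x : Pts m k} (hx : OnP X x)
    (ε : Fin m → ℕ → SignType) :
    eP X T (mulP X ε x) = (∏ p ∈ T, (((ε p.1 p.2 : SignType) : ℤ) : ℚ)) • eP X T x := by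
  have h1 := e_part hT hx ε (blocks X)
  have h2 : ∏ p ∈ T, (if p ∈ blocks X then (((ε p.1 p.2 : SignType) : ℤ) : ℚ) else 1) =
      ∏ p ∈ T, (((ε p.1 p.2 : SignType) : ℤ) : ℚ) :=
    Finset.prod_congr rfl fun p hp => if_pos (hT hp)
  rw [← h2, ← h1]
  unfold eP
  refine Finset.sum_congr rfl fun U _ => ?_
  congr 1
  rw [proj_eq, proj_eq, mulP_mulP, mulP_mulP]
  refine clP_mulP_congr hx fun p hp => ?_
  rw [if_pos (show (p.1, p.2) ∈ blocks X from hp)]

theorem eP_proj {T : Finset (Fin m × ℕ)} (hT : T ⊆ blocks X) {x : Pts m k} (hx : OnP X x)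
    (U : Finset (Fin m × ℕ)) : eP X T (proj X U x) = if T ⊆ U then eP X T x else 0 := by
  rw [proj_eq, eP_mul hT hx]
  split_ifs with h
  · rw [Finset.prod_eq_one, one_smul]
    intro p hp
    rw [if_pos (h hp)]
    simp
  · obtain ⟨p, hp, hpU⟩ := Finset.not_subset.1 h
    rw [Finset.prod_eq_zero hp, zero_smul]
    rw [if_neg hpU]
    simp

private lemma e_line {T U : Finset (Fin m × ℕ)} (hU : U ⊆ T) {x : Pts m k} (hx : OnP X x)
    (J : Finset (Fin m)) (hJ : ∀ j ∈ J, fib T j = ∅) :
    clP X (proj X U x) = clP X (fun j => if j ∈ J then oo else proj X U x j) := by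
  induction J using Finset.induction_on with
  | empty => simp
  | insert q J hq ih =>
    rw [ih fun j hj => hJ j (Finset.mem_insert_of_mem hj)]
    have hP : OnP X (fun j => if j ∈ J then oo else proj X U x j) := by
      intro j
      by_cases h1 : j ∈ J
      · simp only [h1, if_true]
        exact onX_oo _
      · simp only [h1, if_false]
        exact onP_proj hx U j
    rw [clP_line hP q]
    · congr 1
      funext j
      by_cases h1 : j = q
      · subst h1
        simp
      · simp [Finset.mem_insert, h1]
    · intro i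
      simp only [hq, if_false]
      have h1 : (q, (X q).bk i) ∉ U := by
        intro h2
        have h3 : (X q).bk i ∈ fib T q := mem_fib.2 (hU h2)
        rw [hJ q (Finset.mem_insert_self q J)] at h3
        exact absurd h3 (Finset.notMem_empty _)
      change (if (if (q, (X q).bk i) ∈ U then (1 : SignType) else 0) = 0 then (0 : k)
        else (x q).z i) = 0
      rw [if_neg h1, if_pos rfl]

/-- `eP X T x` depends only on the factors `x j` with `fib T j ≠ ∅`: for the other `j` all blocks
are at the zero section and `clP_line` can be used (change one factor after the other). -/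
theorem eP_congr {T : Finset (Fin m × ℕ)} (hT : T ⊆ blocks X) {x y : Pts m k} (hx : OnP X x)
    (hy : OnP X y) (h : ∀ j, fib T j ≠ ∅ → x j = y j) : eP X T x = eP X T y := by
  unfold eP
  refine Finset.sum_congr rfl fun U hU => ?_
  have hU' := Finset.mem_powerset.mp hU
  rw [e_line hU' hx (Finset.univ.filter fun j => fib T j = ∅) fun j hj =>
      (Finset.mem_filter.1 hj).2,
    e_line hU' hy (Finset.univ.filter fun j => fib T j = ∅) fun j hj =>
      (Finset.mem_filter.1 hj).2]
  congr 2
  funext j
  by_cases h1 : fib T j = ∅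
  · simp [h1]
  · simp only [Finset.mem_filter, Finset.mem_univ, true_and, h1, if_false]
    unfold proj
    rw [h j h1]

end Pool.Agent.EFP
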