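import Pool.Agent.EFP.Bridge

/-!
# The classes `eP`: Möbius inversion

`eP X T x = ∑ U ⊆ T, (-1) ^ |T \ U| [π_U x]`.
-/

set_option autoImplicit false

noncomputable section

namespace Pool.Agent.EFP

open Pool.Agent.ZCyc Pool.Agent.VFP

universe u

variable {k : Type u} [Field k] [IsAlgClosed k] [CharZero k] {m : ℕ} {X : Fin m → EF k}

omit [IsAlgClosed k] [CharZero k] in
theorem mem_blocks {p : Fin m × ℕ} : p ∈ blocks X ↔ p.2 < (X p.1).r := by
  obtain ⟨j, b⟩ := p
  simp only [blocks, Finset.mem_biUnion, Finset.mem_univ, true_and, Finset.mem_map,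
    Finset.mem_range]
  constructor
  · rintro ⟨j', b', h, he⟩
    obtain ⟨rfl, rfl⟩ := Prod.mk.inj he
    exact h
  · intro h
    exact ⟨j, b, h, rfl⟩

omit [IsAlgClosed k] [CharZero k] in
theorem mem_fib {l : ℕ} {T : Finset (Fin l × ℕ)} {j : Fin l} {b : ℕ} :
    b ∈ fib T j ↔ (j, b) ∈ T := by
  simp only [fib, Finset.mem_image, Finset.mem_filter]
  constructor
  · rintro ⟨⟨j', b'⟩, ⟨h, rfl⟩, rfl⟩
    exact h
  · intro h
    exact ⟨(j, b), ⟨h, rfl⟩, rfl⟩

private theorem cast_mul (a b : SignType) : ((a * b : SignType) : ℤ) = (a : ℤ) * (b : ℤ) := by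
  cases a <;> cases b <;> rfl

private theorem mul_zero_iff (a b : SignType) : a * b = 0 ↔ a = 0 ∨ b = 0 := by
  cases a <;> cases b <;> decide

/-- multiplications can be composed -/
theorem mulP_mulP {K : Type*} [Field K] (ε ε' : Fin m → ℕ → SignType) (x : Pts m K) :
    mulP X ε (mulP X ε' x) = mulP X (fun j b => ε j b * ε' j b) x := by
  funext j
  refine Pt.ext rfl ?_ ?_ ?_
  · funext i
    change (if ε j ((X j).bk i) = 0 then (1 : K) else if ε' j ((X j).bk i) = 0 then 1 else
      (x j).x i) = if ε j ((X j).bk i) * ε' j ((X j).bk i) = 0 then 1 else (x j).x i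
    simp only [mul_zero_iff]
    by_cases h1 : ε j ((X j).bk i) = 0 <;> by_cases h2 : ε' j ((X j).bk i) = 0 <;> simp [h1, h2]
  · funext i
    change (if ε j ((X j).bk i) = 0 then (0 : K) else if ε' j ((X j).bk i) = 0 then 0 else
      (x j).z i) = if ε j ((X j).bk i) * ε' j ((X j).bk i) = 0 then 0 else (x j).z i
    simp only [mul_zero_iff]
    by_cases h1 : ε j ((X j).bk i) = 0 <;> by_cases h2 : ε' j ((X j).bk i) = 0 <;> simp [h1, h2]
  · funext b
    change (((ε j b : SignType) : ℤ) : K) * ((((ε' j b : SignType) : ℤ) : K) * (x j).y b) =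
      (((ε j b * ε' j b : SignType) : ℤ) : K) * (x j).y b
    rw [cast_mul, Int.cast_mul, mul_assoc]

/-- the projections are multiplications -/
theorem proj_eq {K : Type*} [Field K] (T : Finset (Fin m × ℕ)) (x : Pts m K) :
    proj X T x = mulP X (fun j b => if (j, b) ∈ T then 1 else 0) x := rfl

/-- only the values of `ε` on the blocks matter (`clP_crd`) -/
theorem clP_mulP_congr {x : Pts m k} (hx : OnP X x) {ε ε' : Fin m → ℕ → SignType}
    (h : ∀ p ∈ blocks X, ε p.1 p.2 = ε' p.1 p.2) : clP X (mulP X ε x) = clP X (mulP X ε' x) := by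
  refine clP_crd (onP_mulP hx ε) fun j => ?_
  have h' : ∀ b, b < (X j).r → ε j b = ε' j b := fun b hb => h (j, b) (mem_blocks.2 hb)
  change ((X j).mul (ε j) (x j)).crd _ _ = ((X j).mul (ε' j) (x j)).crd _ _
  rw [crd_mul, crd_mul]
  refine Crd.ext rfl ?_ ?_ ?_
  · funext i
    change (if ε j ((X j).D.blk i) = 0 then _ else _) = if ε' j ((X j).D.blk i) = 0 then _ else _
    rw [h' _ (Fin.is_lt _)]
  · funext i
    change (if ε j ((X j).D.blk i) = 0 then _ else _) = if ε' j ((X j).D.blk i) = 0 then _ else _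
    rw [h' _ (Fin.is_lt _)]
  · funext b
    change (((ε j b : SignType) : ℤ) : k) * _ = (((ε' j b : SignType) : ℤ) : k) * _
    rw [h' _ b.2]

/-- Möbius inversion on the set of the subsets -/
private theorem moebius {A V : Type*} [DecidableEq A] [AddCommGroup V] [Module ℚ V]
    (f : Finset A → V) (B : Finset A) :
    f B = ∑ T ∈ B.powerset, ∑ U ∈ T.powerset, ((-1 : ℚ) ^ (T \ U).card) • f U := by
  induction B using Finset.induction_on generalizing f with
  | empty => simp
  | insert a B ha ih =>
    rw [Finset.sum_powerset_insert ha, ← ih f, ih (fun U => f (insert a U)),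
      ← sub_eq_iff_eq_add', ih f, ← Finset.sum_sub_distrib]
    refine Finset.sum_congr rfl fun T hT => ?_
    have haT : a ∉ T := fun h => ha (Finset.mem_powerset.1 hT h)
    rw [Finset.sum_powerset_insert haT, ← Finset.sum_sub_distrib, ← Finset.sum_add_distrib]
    refine Finset.sum_congr rfl fun U hU => ?_
    have haU : a ∉ U := fun h => haT (Finset.mem_powerset.1 hU h)
    have e1 : insert a T \ U = insert a (T \ U) := by
      ext b
      simp only [Finset.mem_sdiff, Finset.mem_insert]
      constructor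
      · rintro ⟨rfl | h1, h2⟩
        · exact Or.inl rfl
        · exact Or.inr ⟨h1, h2⟩
      · rintro (rfl | ⟨h1, h2⟩)
        · exact ⟨Or.inl rfl, haU⟩
        · exact ⟨Or.inr h1, h2⟩
    have e2 : insert a T \ insert a U = T \ U := by
      ext b
      simp only [Finset.mem_sdiff, Finset.mem_insert, not_or]
      constructor
      · rintro ⟨rfl | h1, h2, h3⟩
        · exact absurd rfl h2
        · exact ⟨h1, h3⟩
      · rintro ⟨h1, h2⟩
        exact ⟨Or.inr h1, fun h => haT (h ▸ h1), h2⟩
    have h3 : a ∉ T \ U := fun h => haT (Finset.mem_sdiff.1 h).1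
    rw [e1, e2, Finset.card_insert_of_notMem h3, pow_succ]
    module

/-- the class of `π_B x` -/
theorem clP_proj_eq_sum {x : Pts m k} (B : Finset (Fin m × ℕ)) :
    clP X (proj X B x) = ∑ T ∈ B.powerset, eP X T x :=
  moebius (fun U => clP X (proj X U x)) B

/-- Möbius inversion: `∑ T ⊆ B, eP X T x = [π_B x]` for every `B` (copy `clP_mixed` of
`Pool.Agent.VFPP.E` or exchange the sums and use `∑ T, U ⊆ T ⊆ B, (-1) ^ |T \ U| = 0` for `U ≠ B`),
and `[π_(blocks X) x] = [x]` by `clP_mulP_congr`. -/
theorem clP_eq_sum {x : Pts m k} (hx : OnP X x) : clP X x = ∑ T ∈ (blocks X).powerset, eP X T x := by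
  rw [← clP_proj_eq_sum, proj_eq]
  have h1 : clP X x = clP X (mulP X (fun _ _ => 1) x) := by
    congr 1
    funext j
    refine Pt.ext rfl ?_ ?_ ?_
    · funext i
      change (x j).x i = if (1 : SignType) = 0 then 1 else (x j).x i
      rw [if_neg (by decide)]
    · funext i
      change (x j).z i = if (1 : SignType) = 0 then 0 else (x j).z i
      rw [if_neg (by decide)]
    · funext b
      change (x j).y b = (((1 : SignType) : ℤ) : k) * (x j).y b
      simp
  rw [h1]
  refine clP_mulP_congr hx fun p hp => ?_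
  rw [if_pos hp]

end Pool.Agent.EFP
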