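import Pool.Agent.EFP.Defs2
import Pool.Agent.VFP.Sign
import Pool.Agent.VFP.Util

/-!
# Products of fibre products of elliptic fibrations: general facts
-/

set_option autoImplicit false

noncomputable section

namespace Pool.Agent.EFP

open Pool.Agent.ZCyc Pool.Agent.VFP

universe u

variable {k : Type u} [Field k] {m m' : ℕ} {X : Fin m → EF k} {Y : Fin m' → EF k}

theorem crd_pt {K : Type*} [Field K] {N r : ℕ} (w : Crd N r K) : (pt w).crd N r = w := by
  refine Crd.ext rfl ?_ ?_ ?_
  · funext i
    simp [pt, Pt.crd]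
  · funext i
    simp [pt, Pt.crd]
  · funext b
    simp [pt, Pt.crd]

/-- multiplication on the level of coordinates -/
def mulC {N r : ℕ} (D : Dat k N r) {K : Type*} [Field K] (ε : ℕ → SignType) (w : Crd N r K) :
    Crd N r K where
  s := w.s
  x i := if ε (D.blk i) = 0 then 1 else w.x i
  z i := if ε (D.blk i) = 0 then 0 else w.z i
  y b := (((ε b : SignType) : ℤ) : K) * w.y b

theorem bk_eq (Z : EF k) (i : Fin Z.N) : Z.bk i = Z.D.blk i := by
  unfold EF.bk
  rw [dif_pos i.2]

theorem crd_mul (Z : EF k) {K : Type*} [Field K] (ε : ℕ → SignType) (w : Pt K) :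
    (Z.mul ε w).crd Z.N Z.r = mulC Z.D ε (w.crd Z.N Z.r) := by
  refine Crd.ext rfl ?_ ?_ rfl
  · funext i
    show (if ε (Z.bk i) = 0 then 1 else w.x i) = if ε (Z.D.blk i) = 0 then 1 else w.x i
    rw [bk_eq]
  · funext i
    show (if ε (Z.bk i) = 0 then 0 else w.z i) = if ε (Z.D.blk i) = 0 then 0 else w.z i
    rw [bk_eq]

theorem sign_sq {K : Type*} [Field K] {e : SignType} (h : e ≠ 0) :
    (((e : SignType) : ℤ) : K) ^ 2 = 1 := by
  cases e with
  | zero => exact absurd rfl h
  | neg => norm_num
  | pos => norm_num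

theorem EF.surj (Z : EF k) (b : Fin Z.r) : ∃ i, Z.D.blk i = b := by
  by_contra h
  push Not at h
  have h1 := Z.pos b
  rw [Finset.filter_eq_empty_iff.2 fun i _ => h i] at h1
  simp at h1

theorem onX_mul (Z : EF k) {K : Type*} [Field K] [Algebra k K] {w : Pt K} (h : Z.OnX w)
    (ε : ℕ → SignType) : Z.OnX (Z.mul ε w) := by
  unfold EF.OnX
  rw [crd_mul]
  refine ⟨h.1, fun i => ?_, fun b => ?_⟩
  · by_cases h1 : ε (Z.D.blk i) = 0
    · left
      show (if ε (Z.D.blk i) = 0 then (1 : K) else w.x i) ≠ 0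
      rw [if_pos h1]
      exact one_ne_zero
    · rcases h.2.1 i with h2 | h2
      · left
        show (if ε (Z.D.blk i) = 0 then (1 : K) else w.x i) ≠ 0
        rw [if_neg h1]
        exact h2
      · right
        show (if ε (Z.D.blk i) = 0 then (0 : K) else w.z i) ≠ 0
        rw [if_neg h1]
        exact h2
  · by_cases h1 : ε b = 0
    · obtain ⟨i, hi⟩ := Z.surj b
      have h2 : Z.D.fac (mulC Z.D ε (w.crd Z.N Z.r)) i = 0 := by
        unfold Dat.fac mulC
        simp only
        rw [hi, if_pos h1, zero_mul]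
      rw [Finset.prod_eq_zero (Finset.mem_filter.2 ⟨Finset.mem_univ i, hi⟩) h2]
      show ((((ε b : SignType) : ℤ) : K) * w.y b) ^ 2 = 0
      rw [h1]
      simp
    · have h2 : ∀ i ∈ Finset.univ.filter (fun i => Z.D.blk i = b),
          Z.D.fac (mulC Z.D ε (w.crd Z.N Z.r)) i = Z.D.fac (w.crd Z.N Z.r) i := by
        intro i hi
        rw [Finset.mem_filter] at hi
        unfold Dat.fac mulC
        simp only
        rw [hi.2, if_neg h1, if_neg h1]
      rw [Finset.prod_congr rfl h2, ← h.2.2 b]
      show ((((ε b : SignType) : ℤ) : K) * w.y b) ^ 2 = w.y b ^ 2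
      rw [mul_pow, sign_sq h1, one_mul]

theorem isValue_mul (Z : EF k) {v : Place k (Om k)} {P : Pt (Om k)} {p : Pt k}
    (h : Z.IsValue v P p) (hp : Z.OnX p) (ε : ℕ → SignType) :
    Z.IsValue v (Z.mul ε P) (Z.mul ε p) := by
  unfold EF.IsValue at h ⊢
  rw [crd_mul, crd_mul]
  obtain ⟨c, m, h1, h2, h3, h4⟩ := h
  have hc : c ≠ 0 := by
    rintro rfl
    apply hp.1
    funext j
    have h5 := h1 j
    have e : (Z.D.scale 0 m (P.crd Z.N Z.r)).s j = algebraMap k (Om k) 0 := by
      simp [Dat.scale]
    rw [e] at h5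
    have h6 : v.At (algebraMap k (Om k) 0) (p.s j) := h5
    have h7 : p.s j = 0 := (Place.At.unique h6 (Place.at_const 0)).symm ▸ rfl
    exact h7
  refine ⟨c, fun i => if ε (Z.D.blk i) = 0 then (c ^ Z.D.deg i)⁻¹ else m i, ?_, ?_, ?_, ?_⟩
  · intro j
    exact h1 j
  · intro i
    by_cases h5 : ε (Z.D.blk i) = 0
    · have e1 : (mulC Z.D ε (p.crd Z.N Z.r)).x i = 1 := if_pos h5
      have e2 : (Z.D.scale c (fun i => if ε (Z.D.blk i) = 0 then (c ^ Z.D.deg i)⁻¹ else m i)
          (mulC Z.D ε (P.crd Z.N Z.r))).x i = 1 := by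
        unfold Dat.scale mulC
        simp only
        rw [if_pos h5, if_pos h5, mul_one, mul_inv_cancel₀ (pow_ne_zero _ hc)]
      rw [e1, e2]
      exact at_one
    · have e1 : (mulC Z.D ε (p.crd Z.N Z.r)).x i = (p.crd Z.N Z.r).x i := if_neg h5
      have e2 : (Z.D.scale c (fun i => if ε (Z.D.blk i) = 0 then (c ^ Z.D.deg i)⁻¹ else m i)
          (mulC Z.D ε (P.crd Z.N Z.r))).x i = (Z.D.scale c m (P.crd Z.N Z.r)).x i := by
        unfold Dat.scale mulC
        simp only
        rw [if_neg h5, if_neg h5]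
      rw [e1, e2]
      exact h2 i
  · intro i
    by_cases h5 : ε (Z.D.blk i) = 0
    · have e1 : (mulC Z.D ε (p.crd Z.N Z.r)).z i = 0 := if_pos h5
      have e2 : (Z.D.scale c (fun i => if ε (Z.D.blk i) = 0 then (c ^ Z.D.deg i)⁻¹ else m i)
          (mulC Z.D ε (P.crd Z.N Z.r))).z i = 0 := by
        unfold Dat.scale mulC
        simp only
        rw [if_pos h5, if_pos h5, mul_zero]
      rw [e1, e2]
      exact at_zero
    · have e1 : (mulC Z.D ε (p.crd Z.N Z.r)).z i = (p.crd Z.N Z.r).z i := if_neg h5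
      have e2 : (Z.D.scale c (fun i => if ε (Z.D.blk i) = 0 then (c ^ Z.D.deg i)⁻¹ else m i)
          (mulC Z.D ε (P.crd Z.N Z.r))).z i = (Z.D.scale c m (P.crd Z.N Z.r)).z i := by
        unfold Dat.scale mulC
        simp only
        rw [if_neg h5, if_neg h5]
      rw [e1, e2]
      exact h3 i
  · intro b
    by_cases h5 : ε b = 0
    · have e1 : (mulC Z.D ε (p.crd Z.N Z.r)).y b = 0 := by
        show (((ε b : SignType) : ℤ) : k) * _ = 0
        rw [h5]
        simp
      have e2 : (Z.D.scale c (fun i => if ε (Z.D.blk i) = 0 then (c ^ Z.D.deg i)⁻¹ else m i)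
          (mulC Z.D ε (P.crd Z.N Z.r))).y b = 0 := by
        unfold Dat.scale mulC
        simp only
        rw [h5]
        simp
      rw [e1, e2]
      exact at_zero
    · have e1 : (mulC Z.D ε (p.crd Z.N Z.r)).y b =
          (((ε b : SignType) : ℤ) : k) * (p.crd Z.N Z.r).y b := rfl
      have e2 : (Z.D.scale c (fun i => if ε (Z.D.blk i) = 0 then (c ^ Z.D.deg i)⁻¹ else m i)
          (mulC Z.D ε (P.crd Z.N Z.r))).y b =
          algebraMap k (Om k) (((ε b : SignType) : ℤ) : k) *
            (Z.D.scale c m (P.crd Z.N Z.r)).y b := by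
        have e3 : ∏ i with Z.D.blk i = b,
            (if ε (Z.D.blk i) = 0 then (c ^ Z.D.deg i)⁻¹ else m i) =
            ∏ i with Z.D.blk i = b, m i := by
          refine Finset.prod_congr rfl fun i hi => ?_
          rw [Finset.mem_filter] at hi
          rw [hi.2, if_neg h5]
        unfold Dat.scale mulC
        simp only
        rw [e3, map_intCast]
        ring
      rw [e1, e2]
      have h6 : v.At ((Z.D.scale c m (P.crd Z.N Z.r)).y b) ((p.crd Z.N Z.r).y b) := h4 b
      exact (Place.at_const _).mul h6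

theorem onX_oo (Z : EF k) : Z.OnX (oo : Pt k) := by
  refine ⟨?_, fun i => Or.inl one_ne_zero, fun b => ?_⟩
  · intro h0
    have h1 := congrFun h0 0
    exact one_ne_zero h1
  · obtain ⟨i, hi⟩ := Z.surj b
    have h1 : Z.D.fac ((oo : Pt k).crd Z.N Z.r) i = 0 := by
      unfold Dat.fac
      exact zero_mul _
    rw [Finset.prod_eq_zero (Finset.mem_filter.2 ⟨Finset.mem_univ i, hi⟩) h1]
    exact zero_pow two_ne_zero

theorem onP_mulP {K : Type*} [Field K] [Algebra k K] {x : Pts m K} (hx : OnP X x)
    (ε : Fin m → ℕ → SignType) : OnP X (mulP X ε x) := fun j => onX_mul (X j) (hx j) (ε j)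

theorem onP_proj {K : Type*} [Field K] [Algebra k K] {x : Pts m K} (hx : OnP X x)
    (T : Finset (Fin m × ℕ)) : OnP X (proj X T x) := fun j => onX_mul (X j) (hx j) _

theorem Mor.onP (f : Mor X Y) {x : Pts m k} (hx : OnP X x) : OnP Y (f.app x) := by
  intro j
  unfold Mor.app
  cases hf : f j with
  | const w hw => exact hw
  | fac i h ε =>
    have h1 := hx i
    rw [h] at h1
    exact onX_mul (Y j) h1 ε

theorem Mor.onP_base (f : Mor X Y) {x : Pts m k} (hx : OnP X x) : OnP Y (f.base x) := by
  intro j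
  unfold Mor.base
  cases hf : f j with
  | const w hw => exact hw
  | fac i h ε =>
    have h1 := hx i
    rw [h] at h1
    exact h1

/-- cycles which are rationally equivalent to zero are supported on the product and have degree
zero -/
theorem ratEqP_supp {z : Pts m k →₀ ℚ} (hz : z ∈ ratEqP X) :
    (∀ p ∈ z.support, OnP X p) ∧ (z.sum fun _ c => c) = 0 := by
  classical
  let N : Submodule ℚ (Pts m k →₀ ℚ) :=
    { carrier := {z | (∀ p ∈ z.support, OnP X p) ∧ (z.sum fun _ c => c) = 0}
      zero_mem' := by simp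
      add_mem' := by
        rintro z z' ⟨h1, h2⟩ ⟨h3, h4⟩
        refine ⟨fun p hp => ?_, ?_⟩
        · rcases Finset.mem_union.1 (Finsupp.support_add hp) with h | h
          · exact h1 p h
          · exact h3 p h
        · rw [Finsupp.sum_add_index' (fun _ => rfl) (fun _ _ _ => rfl), h2, h4, add_zero]
      smul_mem' := by
        rintro c z ⟨h1, h2⟩
        refine ⟨fun p hp => h1 p (Finsupp.support_smul hp), ?_⟩
        rw [Finsupp.sum_smul_index' (fun _ => rfl)]
        simp only [smul_eq_mul]
        rw [← Finsupp.mul_sum, h2, mul_zero] }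
  have hsingle : ∀ p q : Pts m k, OnP X p → OnP X q →
      (Finsupp.single p (1 : ℚ) - Finsupp.single q 1) ∈ N := by
    intro p q hp hq
    refine ⟨fun r hr => ?_, ?_⟩
    · rcases Finset.mem_union.1 (Finsupp.support_sub hr) with h | h
      · rw [Finset.mem_singleton.1 (Finsupp.support_single_subset h)]
        exact hp
      · rw [Finset.mem_singleton.1 (Finsupp.support_single_subset h)]
        exact hq
    · rw [Finsupp.sum_sub_index (fun _ _ _ => rfl), Finsupp.sum_single_index rfl,
        Finsupp.sum_single_index rfl, sub_self]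
  have key : ratEqP X ≤ N := by
    unfold ratEqP
    rw [Submodule.span_le]
    rintro z ⟨n, P, c, c', v, v', p, p', hOn, hG, hv, hv', hp, hp', rfl⟩
    exact N.sum_mem fun a _ => hsingle _ _ (hp a).1 (hp' a).1
  exact key hz

/-- the image of a point under `k → K` -/
private def cstP (K : Type*) [Field K] [Algebra k K] (w : Pt k) : Pt K where
  s j := algebraMap k K (w.s j)
  x i := algebraMap k K (w.x i)
  z i := algebraMap k K (w.z i)
  y b := algebraMap k K (w.y b)

private theorem aeval_cst {K : Type*} [Field K] [Algebra k K] (s : Fin 2 → k)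
    (P : MvPolynomial (Fin 2) k) :
    MvPolynomial.aeval (fun j => algebraMap k K (s j)) P =
      algebraMap k K (MvPolynomial.aeval s P) := by
  rw [← MvPolynomial.aeval_algebraMap_apply]
  rfl

private theorem fac_cst {N r : ℕ} {D : Dat k N r} {K : Type*} [Field K] [Algebra k K] (w : Pt k)
    (i : Fin N) : D.fac ((cstP K w).crd N r) i = algebraMap k K (D.fac (w.crd N r) i) := by
  unfold Dat.fac cstP Pt.crd
  simp only [aeval_cst, map_add, map_mul, map_pow]

private theorem onX_cst {Z : EF k} {K : Type*} [Field K] [Algebra k K] {w : Pt k}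
    (h : Z.OnX w) : Z.OnX (cstP K w) := by
  refine ⟨?_, ?_, ?_⟩
  · intro h0
    apply h.1
    funext j
    have h1 : algebraMap k K (w.s j) = 0 := congrFun h0 j
    exact (map_eq_zero (algebraMap k K)).1 h1
  · intro i
    rcases h.2.1 i with h1 | h1
    · left
      exact (map_ne_zero (algebraMap k K)).2 h1
    · right
      exact (map_ne_zero (algebraMap k K)).2 h1
  · intro b
    have h1 := congrArg (algebraMap k K) (h.2.2 b)
    rw [map_pow, map_prod] at h1
    simp only [fac_cst]
    exact h1

private theorem isValue_cst (Z : EF k) (v : Place k (Om k)) (w : Pt k) {w' : Pt k}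
    (h : w.crd Z.N Z.r = w'.crd Z.N Z.r) : Z.IsValue v (cstP (Om k) w) w' := by
  unfold EF.IsValue
  rw [← h]
  refine ⟨1, fun _ => 1, ?_, ?_, ?_, ?_⟩
  · intro j
    have e : (Z.D.scale 1 (fun _ => 1) ((cstP (Om k) w).crd Z.N Z.r)).s j =
        algebraMap k (Om k) ((w.crd Z.N Z.r).s j) := by
      simp [Dat.scale, cstP, Pt.crd]
    rw [e]
    exact Place.at_const _
  · intro i
    have e : (Z.D.scale 1 (fun _ => 1) ((cstP (Om k) w).crd Z.N Z.r)).x i =
        algebraMap k (Om k) ((w.crd Z.N Z.r).x i) := by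
      simp [Dat.scale, cstP, Pt.crd]
    rw [e]
    exact Place.at_const _
  · intro i
    have e : (Z.D.scale 1 (fun _ => 1) ((cstP (Om k) w).crd Z.N Z.r)).z i =
        algebraMap k (Om k) ((w.crd Z.N Z.r).z i) := by
      simp [Dat.scale, cstP, Pt.crd]
    rw [e]
    exact Place.at_const _
  · intro b
    have e : (Z.D.scale 1 (fun _ => 1) ((cstP (Om k) w).crd Z.N Z.r)).y b =
        algebraMap k (Om k) ((w.crd Z.N Z.r).y b) := by
      simp [Dat.scale, cstP, Pt.crd]
    rw [e]
    exact Place.at_const _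

private theorem map_cst (g : Om k ≃ₐ[RatFunc k] Om k) (w : Pt k) :
    (cstP (Om k) w).map g = cstP (Om k) w := by
  have h : ∀ c : k, g (algebraMap k (Om k) c) = algebraMap k (Om k) c := by
    intro c
    rw [IsScalarTower.algebraMap_apply k (RatFunc k) (Om k), g.commutes]
  refine Pt.ext ?_ ?_ ?_ ?_
  · funext j
    exact h _
  · funext j
    exact h _
  · funext j
    exact h _
  · funext j
    exact h _

/-- the component over a field extension -/
private def appK {K : Type*} [Field K] [Algebra k K] {Z : EF k} (f : Comp X Z)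
    (P : Pts m K) : Pt K :=
  match f with
  | .const w _ => cstP K w
  | .fac i _ ε => Z.mul ε (P i)

private theorem onX_appK {K : Type*} [Field K] [Algebra k K] {Z : EF k} (f : Comp X Z)
    {P : Pts m K} (hP : OnP X P) : Z.OnX (appK f P) := by
  cases f with
  | const w h => exact onX_cst h
  | fac i h ε =>
    have h1 := hP i
    rw [h] at h1
    exact onX_mul Z h1 ε

private theorem isValue_app {Z : EF k} (f : Comp X Z) {v : Place k (Om k)}
    {P : Pts m (Om k)} {p : Pts m k} (hp : OnP X p) (h : ∀ i, (X i).IsValue v (P i) (p i)) :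
    Z.IsValue v (appK f P) (f.app p) := by
  cases f with
  | const w hw => exact isValue_cst Z v w rfl
  | fac i hi ε =>
    have h1 := h i
    have h2 := hp i
    rw [hi] at h1 h2
    exact isValue_mul Z h1 h2 ε

private theorem gal_app {Z : EF k} (f : Comp X Z) (g : Om k ≃ₐ[RatFunc k] Om k)
    (P : Pts m (Om k)) : appK f (fun i => (P i).map g) = (appK f P).map g := by
  cases f with
  | const w hw => exact (map_cst g w).symm
  | fac i hi ε =>
    refine Pt.ext rfl ?_ ?_ ?_
    · funext j
      change (if ε (Z.bk j) = 0 then (1 : Om k) else g ((P i).x j)) =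
        g (if ε (Z.bk j) = 0 then (1 : Om k) else (P i).x j)
      split_ifs
      · rw [map_one]
      · rfl
    · funext j
      change (if ε (Z.bk j) = 0 then (0 : Om k) else g ((P i).z j)) =
        g (if ε (Z.bk j) = 0 then (0 : Om k) else (P i).z j)
      split_ifs
      · rw [map_zero]
      · rfl
    · funext b
      change (((ε b : SignType) : ℤ) : Om k) * g ((P i).y b) =
        g ((((ε b : SignType) : ℤ) : Om k) * (P i).y b)
      rw [map_mul, map_intCast]

/-- push-forward by a morphism (the family `P a` goes to the family with the components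
`algebraMap ∘ w` or `mul ε (P a i)`) -/
theorem mapDomain_ratEqP (f : Mor X Y) {z : Pts m k →₀ ℚ} (hz : z ∈ ratEqP X) :
    z.mapDomain f.app ∈ ratEqP Y := by
  have key : ratEqP X ≤ (ratEqP Y).comap (Finsupp.lmapDomain ℚ ℚ f.app) := by
    conv_lhs => unfold ratEqP
    rw [Submodule.span_le]
    rintro z ⟨n, P, c, c', v, v', p, p', hOn, hG, hv, hv', hp, hp', rfl⟩
    refine Submodule.subset_span ⟨n, fun a j => appK (f j) (P a), c, c', v, v',
      fun a => f.app (p a), fun a => f.app (p' a), fun a j => onX_appK (f j) (hOn a),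
      fun g => ?_, hv, hv', fun a => ⟨f.onP (hp a).1, fun j => isValue_app (f j) (hp a).1 (hp a).2⟩,
      fun a => ⟨f.onP (hp' a).1, fun j => isValue_app (f j) (hp' a).1 (hp' a).2⟩, ?_⟩
    · obtain ⟨r, hr⟩ := hG g
      refine ⟨r, fun a j => ?_⟩
      have h1 : P (r a) = fun i => (P a i).map g := funext fun i => hr a i
      rw [← gal_app, ← h1]
    · rw [map_sum]
      refine Finset.sum_congr rfl fun a _ => ?_
      rw [map_sub, Finsupp.lmapDomain_apply, Finsupp.lmapDomain_apply, Finsupp.mapDomain_single,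
        Finsupp.mapDomain_single]
  exact key hz

/-- only the coordinates with `i < N`, `b < r` matter (constant family) -/
theorem clP_crd {x y : Pts m k} (hx : OnP X x)
    (h : ∀ i, (x i).crd (X i).N (X i).r = (y i).crd (X i).N (X i).r) : clP X x = clP X y := by
  unfold clP
  rw [Submodule.Quotient.eq]
  obtain ⟨v, hv⟩ := exists_place (tt_transc (k := k)) (0 : k)
  have hy : OnP X y := by
    intro i
    have h1 := hx i
    unfold EF.OnX at h1 ⊢
    rw [← h i]
    exact h1
  refine Submodule.subset_span ⟨1, fun _ i => cstP (Om k) (x i), 0, 0, v, v, fun _ => x,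
    fun _ => y, fun _ i => onX_cst (hx i), fun g => ⟨Equiv.refl _, fun _ i => ?_⟩, hv, hv,
    fun _ => ⟨hx, fun i => isValue_cst (X i) v (x i) rfl⟩,
    fun _ => ⟨hy, fun i => isValue_cst (X i) v (x i) (h i)⟩, ?_⟩
  · exact (map_cst g (x i)).symm
  · simp

end Pool.Agent.EFP
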