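import Pool.Agent.EFP.Alt
import Pool.Agent.EFP.Kos
import Pool.Agent.EFP.Weight
import Pool.Agent.EFP.SFT
import Pool.Agent.EFP.E

/-!
# Correspondences which are zero on the holomorphic forms
-/

set_option autoImplicit false

noncomputable section

namespace Pool.Agent.EFP

open Pool.Agent.ZCyc Pool.Agent.VFP Pool.Agent.TInf Pool.Agent.ZIso

universe u

variable {k : Type u} [Field k] [IsAlgClosed k] [CharZero k] {m m' : ℕ} {X : Fin m → EF k}
  {Y : Fin m' → EF k}

omit [IsAlgClosed k] [CharZero k] in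
private theorem gr_src {Z : EF k} {f : Comp X Z} {i : Fin m} (h : f.src = some i) :
    X i = Z ∧ ∀ x : Pts m k, f.base x = x i := by
  cases f with
  | const w hw => simp [Comp.src] at h
  | fac i' h' ε =>
    simp only [Comp.src, Option.some.injEq] at h
    subst h
    exact ⟨h', fun x => rfl⟩

omit [IsAlgClosed k] [CharZero k] in
private theorem gr_base {f : Mor X Y} {x : Pts m k} (hx : OnP X x) : OnP Y (f.base x) := by
  intro j
  show (Y j).OnX ((f j).base x)
  cases h : f j with
  | const w hw => exact hw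
  | fac i h' ε =>
    show (Y j).OnX (x i)
    rw [← h']
    exact hx i

omit [IsAlgClosed k] [CharZero k] in
/-- the sum of the degrees of some blocks is even and positive -/
private theorem gr_deg (Z : EF k) {S : Finset ℕ} (hS : S ≠ ∅) (hr : ∀ b ∈ S, b < Z.r) :
    ∃ n, 0 < n ∧ ∑ i with (Z.D.blk i : ℕ) ∈ S, Z.D.deg i = 2 * n := by
  classical
  have h1 : ∑ i with (Z.D.blk i : ℕ) ∈ S, Z.D.deg i =
      ∑ b ∈ Finset.univ.filter (fun b : Fin Z.r => (b : ℕ) ∈ S),
        ∑ i with Z.D.blk i = b, Z.D.deg i := by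
    rw [← Finset.sum_fiberwise_of_maps_to (s := Finset.univ.filter fun i : Fin Z.N =>
      (Z.D.blk i : ℕ) ∈ S) (t := Finset.univ.filter (fun b : Fin Z.r => (b : ℕ) ∈ S))
      (g := Z.D.blk) (f := Z.D.deg)]
    · refine Finset.sum_congr rfl fun b hb => ?_
      refine Finset.sum_congr ?_ fun _ _ => rfl
      ext i
      simp only [Finset.mem_filter, Finset.mem_univ, true_and] at hb ⊢
      constructor
      · rintro ⟨-, h⟩
        exact h
      · rintro rfl
        exact ⟨hb, rfl⟩
    · intro i hi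
      simpa using hi
  obtain ⟨b, hb⟩ := Finset.nonempty_iff_ne_empty.2 hS
  have h2 : Even (∑ i with (Z.D.blk i : ℕ) ∈ S, Z.D.deg i) := by
    rw [h1]
    exact Finset.even_sum _ fun b _ => Z.even b
  have h3 : 0 < ∑ i with (Z.D.blk i : ℕ) ∈ S, Z.D.deg i := by
    rw [h1]
    refine Finset.sum_pos (fun b _ => Z.pos b) ⟨⟨b, hr b hb⟩, ?_⟩
    simpa using hb
  obtain ⟨n, hn⟩ := h2
  exact ⟨n, by omega, by omega⟩

private theorem gr_fixing_mem {r : ℕ} {J : Finset (Fin r)} {π : Equiv.Perm (Fin r)} :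
    π ∈ fixing J ↔ ∀ i ∉ J, π i = i := by
  simp [fixing]

/-- a permutation which fixes the complement of `J` maps `J` to itself -/
private theorem gr_fixing_map {r : ℕ} {J : Finset (Fin r)} {π : Equiv.Perm (Fin r)}
    (h : π ∈ fixing J) {i : Fin r} (hi : i ∈ J) : π i ∈ J := by
  by_contra hcon
  have h1 := gr_fixing_mem.1 h _ hcon
  have h2 : π i = i := π.injective h1
  rw [h2] at hcon
  exact hcon hi

/-- transport of sums over `fixing J` along an embedding -/
private theorem gr_fixing_sum {r l : ℕ} {W : Type*} [AddCommMonoid W] (o : Fin l ↪ Fin r)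
    (J : Finset (Fin l)) (F : Equiv.Perm (Fin l) → W) (G : Equiv.Perm (Fin r) → W)
    (h : ∀ π ∈ fixing J, F π = G (π.viaEmbedding o)) :
    ∑ π ∈ fixing J, F π = ∑ π ∈ fixing (J.map o), G π := by
  classical
  refine Finset.sum_nbij (fun π => π.viaEmbedding o) ?_ ?_ ?_ h
  · intro π hπ
    rw [gr_fixing_mem] at hπ ⊢
    intro i hi
    by_cases hr : i ∈ Set.range o
    · obtain ⟨a, rfl⟩ := hr
      rw [Equiv.Perm.viaEmbedding_apply]
      rw [hπ a fun ha => hi (Finset.mem_map_of_mem _ ha)]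
    · exact Equiv.Perm.viaEmbedding_apply_of_notMem _ _ _ hr
  · intro π _ π' _ hππ
    ext a
    have h1 := congrArg (fun e : Equiv.Perm (Fin r) => e (o a)) hππ
    simp only [Equiv.Perm.viaEmbedding_apply] at h1
    exact congrArg Fin.val (o.injective h1)
  · intro π hπ
    rw [Finset.mem_coe] at hπ
    have h1 : ∀ a : Fin l, ∃ b, o b = π (o a) := by
      intro a
      by_cases ha : a ∈ J
      · have h2 := gr_fixing_map hπ (Finset.mem_map_of_mem o ha)
        obtain ⟨b, -, hb⟩ := Finset.mem_map.1 h2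
        exact ⟨b, hb⟩
      · refine ⟨a, ?_⟩
        rw [gr_fixing_mem.1 hπ (o a)]
        intro h3
        obtain ⟨b, hb, hba⟩ := Finset.mem_map.1 h3
        exact ha (o.injective hba ▸ hb)
    choose t ht using h1
    have hti : Function.Injective t := by
      intro a b hab
      have h2 : π (o a) = π (o b) := by rw [← ht, ← ht, hab]
      exact o.injective (π.injective h2)
    let σ : Equiv.Perm (Fin l) := Equiv.ofBijective t (Finite.injective_iff_bijective.1 hti)
    have hσ : ∀ a, o (σ a) = π (o a) := ht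
    refine ⟨σ, ?_, ?_⟩
    · rw [Finset.mem_coe, gr_fixing_mem]
      intro a ha
      apply o.injective
      rw [hσ, gr_fixing_mem.1 hπ (o a)]
      intro h3
      obtain ⟨b, hb, hba⟩ := Finset.mem_map.1 h3
      exact ha (o.injective hba ▸ hb)
    · apply Equiv.ext
      intro i
      by_cases hr : i ∈ Set.range o
      · obtain ⟨a, rfl⟩ := hr
        rw [Equiv.Perm.viaEmbedding_apply, hσ]
      · rw [Equiv.Perm.viaEmbedding_apply_of_notMem _ _ _ hr, gr_fixing_mem.1 hπ i]
        intro h3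
        obtain ⟨b, -, hb⟩ := Finset.mem_map.1 h3
        exact hr ⟨b, hb⟩

private theorem gr_sign {r l : ℕ} (o : Fin l ↪ Fin r) (π : Equiv.Perm (Fin l)) :
    Equiv.Perm.sign (π.viaEmbedding o) = Equiv.Perm.sign π := by
  unfold Equiv.Perm.viaEmbedding
  exact @Equiv.Perm.sign_extendDomain _ _ _ _ _ _ π _ (fun a => Classical.propDecidable _) _

omit [IsAlgClosed k] [CharZero k] in
/-- the permutation given by a morphism -/
private theorem gr_per {l : ℕ} {T : Finset (Fin m × ℕ)} {T' : Finset (Fin m' × ℕ)}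
    {oI : Fin l → Fin m} {oJ : Fin l → Fin m'} (hoJ : Function.Injective oJ)
    (hI : ∀ i, fib T i ≠ ∅ → ∃ a, oI a = i) (hJ : ∀ a, fib T' (oJ a) ≠ ∅) {f : Mor X Y}
    (hf : Bij f T T') : ∃ τ : Equiv.Perm (Fin l), ∀ a, (f (oJ a)).src = some (oI (τ a)) := by
  have h1 : ∀ a, ∃ b, (f (oJ a)).src = some (oI b) := by
    intro a
    obtain ⟨i, h2, h3⟩ := hf.1 (oJ a) (hJ a)
    obtain ⟨b, rfl⟩ := hI i (h3 ▸ hJ a)
    exact ⟨b, h2⟩
  choose t ht using h1
  have hti : Function.Injective t := by
    intro a b hab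
    obtain ⟨i, h2, h3⟩ := hf.1 (oJ a) (hJ a)
    obtain ⟨j, -, hj⟩ := hf.2 i (h3 ▸ hJ a)
    apply hoJ
    rw [hj (oJ a) ⟨hJ a, h2⟩, hj (oJ b) ⟨hJ b, ?_⟩]
    rw [ht b, ← hab, ← ht a, h2]
  exact ⟨Equiv.ofBijective t (Finite.injective_iff_bijective.1 hti), ht⟩

omit [IsAlgClosed k] [CharZero k] in
open Classical in
private theorem gr_koszul {l : ℕ} {T' : Finset (Fin m' × ℕ)}
    {oI : Fin l → Fin m} (hoI : StrictMono oI) {oJ : Fin l → Fin m'} (hoJ : StrictMono oJ)
    (hJ' : ∀ j, fib T' j ≠ ∅ → ∃ a, oJ a = j) (hJ : ∀ a, fib T' (oJ a) ≠ ∅) {f : Mor X Y}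
    {τ : Equiv.Perm (Fin l)} (hτ : ∀ a, (f (oJ a)).src = some (oI (τ a))) :
    koszul f T' = kos (fun a => cnt Y T' (oJ a) + 1) τ := by
  unfold koszul kos
  symm
  refine Fintype.prod_of_injective oJ hoJ.injective _ _ ?_ ?_
  · intro j hj
    apply Finset.prod_eq_one
    intro j' hj'
    exfalso
    simp only [Finset.mem_filter, Finset.mem_univ, true_and] at hj'
    exact hj (hJ' j hj'.2.1)
  · intro a
    rw [Finset.prod_filter, Finset.prod_filter]
    refine Fintype.prod_of_injective oJ hoJ.injective _ _ ?_ ?_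
    · intro j' hj'
      rw [if_neg]
      rintro ⟨-, -, h, -⟩
      exact hj' (hJ' j' h)
    · intro b
      have hc : (a < b ∧ τ b < τ a) ↔ (oJ a < oJ b ∧ fib T' (oJ a) ≠ ∅ ∧ fib T' (oJ b) ≠ ∅ ∧
          ∃ i i', (f (oJ a)).src = some i ∧ (f (oJ b)).src = some i' ∧ i' < i) := by
        constructor
        · rintro ⟨h1, h2⟩
          exact ⟨hoJ h1, hJ a, hJ b, _, _, hτ a, hτ b, hoI h2⟩
        · rintro ⟨h1, -, -, i, i', h2, h3, h4⟩
          rw [hτ a, Option.some.injEq] at h2
          rw [hτ b, Option.some.injEq] at h3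
          subst h2 h3
          exact ⟨hoJ.lt_iff_lt.1 h1, hoI.lt_iff_lt.1 h4⟩
      exact if_congr hc rfl rfl

open Classical in
/-- Let `I` and `J` be the sets of the factors `i`, `j` with `fib T i ≠ ∅`, `fib T' j ≠ ∅`, and
suppose that both have `l` elements (otherwise there is no `f` with `Bij f T T'`), `eI : Fin l ≃ I`,
`eJ : Fin l ≃ J` the increasing enumerations. A morphism `f` with `Bij f T T'` gives a permutation
`τ` of `Fin l` with `(f (eJ a)).src = some (eI (τ a))`. Apply `second_fundamental_col` to the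
colours `c a = (X (eI a), fib T (eI a))`, `c' a = (Y (eJ a), fib T' (eJ a))`, the dimensions
`d (Z, S) = (∑ i with blk i ∈ S, deg i) / 2 - 1`, the vectors
`g τ = kos n τ • eP Y T' x_τ` (`n a = cnt Y T' (eJ a) + 1`, `x_τ (eJ a) = x (eI (τ a))` if `τ` is
compatible with the colours, the other factors are arbitrary points; `g τ = 0` if `τ` is not
compatible with the colours), and `β τ = ∑ f, γ f * (∏ signs) * koszul f T'` (sum over the `f` with
`Bij f T T'` which give `τ`). One has `koszul f T' = kos n τ`, `eP Y T' (f.base x) = eP Y T' x_τ`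
(`eP_congr`). The condition on the words is `KillsForms` for `a i = w (eI⁻¹ i)`, `a' j = w' (eJ⁻¹
j)` (and `0` outside of `I` and `J`). The relation for the antisymmetrisers is `eP_alt` (for `Y`,
`T'`, the point `x_τ`) and `kos_mul`: `sgn π * kos n (τ π) = sgn π * sgn π ^ (N_S + 1) * kos n τ =
sgn π ^ N_S * kos n τ`. -/
theorem graded (hcore : CoreT k) {γ : Mor X Y →₀ ℚ} {ν : ℕ} (h : KillsForms γ ν)
    {T : Finset (Fin m × ℕ)} {T' : Finset (Fin m' × ℕ)} (hT : T ⊆ blocks X)
    (hT' : T' ⊆ blocks Y) (h1 : wt X T = ν) (h2 : wt Y T' = ν) {x : Pts m k} (hx : OnP X x) :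
    ∑ f ∈ γ.support.filter (fun f => Bij f T T'),
      (γ f * ((∏ j with fib T' j ≠ ∅, (f j).sgn (fib T' j) : ℤ) : ℚ)) •
        eP Y T' (f.base x) = 0 := by
  classical
  by_cases hex : ∃ f : Mor X Y, Bij f T T'
  swap
  · rw [Finset.filter_false_of_mem, Finset.sum_empty]
    intro f _ hf
    exact hex ⟨f, hf⟩
  obtain ⟨f₀, hf₀⟩ := hex
  -- the enumerations
  set I : Finset (Fin m) := Finset.univ.filter fun i => fib T i ≠ ∅ with hIdef
  set J : Finset (Fin m') := Finset.univ.filter fun j => fib T' j ≠ ∅ with hJdef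
  have hmI : ∀ i, i ∈ I ↔ fib T i ≠ ∅ := fun i => by simp [hIdef]
  have hmJ : ∀ j, j ∈ J ↔ fib T' j ≠ ∅ := fun j => by simp [hJdef]
  have hcard : J.card = I.card := by
    refine Finset.card_bij (fun j hj => (hf₀.1 j ((hmJ j).1 hj)).choose) ?_ ?_ ?_
    · intro j hj
      rw [hmI, (hf₀.1 j ((hmJ j).1 hj)).choose_spec.2]
      exact (hmJ j).1 hj
    · intro j hj j' hj' hjj
      have e1 := (hf₀.1 j ((hmJ j).1 hj)).choose_spec
      have e2 := (hf₀.1 j' ((hmJ j').1 hj')).choose_spec
      obtain ⟨j₁, -, h3⟩ := hf₀.2 _ (e1.2 ▸ (hmJ j).1 hj)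
      rw [h3 j ⟨(hmJ j).1 hj, e1.1⟩, h3 j' ⟨(hmJ j').1 hj', hjj ▸ e2.1⟩]
    · intro i hi
      obtain ⟨j, ⟨h3, h4⟩, -⟩ := hf₀.2 i ((hmI i).1 hi)
      refine ⟨j, (hmJ j).2 h3, ?_⟩
      have e1 := (hf₀.1 j h3).choose_spec.1
      exact Option.some.inj (e1.symm.trans h4)
  obtain ⟨l, hl⟩ : ∃ l, I.card = l := ⟨_, rfl⟩
  have hlJ : J.card = l := hcard.trans hl
  set oI := I.orderEmbOfFin hl with hoIdef
  set oJ := J.orderEmbOfFin hlJ with hoJdef
  have hI1 : ∀ a, fib T (oI a) ≠ ∅ := fun a => (hmI _).1 (I.orderEmbOfFin_mem hl a)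
  have hJ1 : ∀ a, fib T' (oJ a) ≠ ∅ := fun a => (hmJ _).1 (J.orderEmbOfFin_mem hlJ a)
  have hI2 : ∀ i, fib T i ≠ ∅ → ∃ a, oI a = i := by
    intro i hi
    have h3 : i ∈ Set.range oI := by
      rw [hoIdef, Finset.range_orderEmbOfFin]
      exact (hmI i).2 hi
    exact h3
  have hJ2 : ∀ j, fib T' j ≠ ∅ → ∃ a, oJ a = j := by
    intro j hj
    have h3 : j ∈ Set.range oJ := by
      rw [hoJdef, Finset.range_orderEmbOfFin]
      exact (hmJ j).2 hj
    exact h3
  have hoI : StrictMono oI := oI.strictMono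
  have hoJ : StrictMono oJ := oJ.strictMono
  -- the permutation of a morphism
  have hper0 : ∀ f : Mor X Y, ∃ τ : Equiv.Perm (Fin l), Bij f T T' →
      ∀ a, (f (oJ a)).src = some (oI (τ a)) := by
    intro f
    by_cases hf : Bij f T T'
    · obtain ⟨τ, hτ⟩ := gr_per hoJ.injective hI2 hJ1 hf
      exact ⟨τ, fun _ => hτ⟩
    · exact ⟨1, fun h => absurd h hf⟩
  choose per hper using hper0
  -- the point with permuted factors
  set xt : Equiv.Perm (Fin l) → Pts m' k := fun τ j =>
    if h : ∃ a, oJ a = j then x (oI (τ h.choose)) else f₀.base x j with hxt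
  have hxt1 : ∀ τ a, xt τ (oJ a) = x (oI (τ a)) := by
    intro τ a
    have h3 : ∃ b, oJ b = oJ a := ⟨a, rfl⟩
    rw [hxt]
    simp only
    rw [dif_pos h3, oJ.injective h3.choose_spec]
  have hxt2 : ∀ τ j, (¬ ∃ a, oJ a = j) → xt τ j = f₀.base x j := by
    intro τ j h3
    rw [hxt]
    simp only
    rw [dif_neg h3]
  set c : Fin l → EF k × Finset ℕ := fun a => (X (oI a), fib T (oI a)) with hc
  set c' : Fin l → EF k × Finset ℕ := fun a => (Y (oJ a), fib T' (oJ a)) with hc'
  set d : EF k × Finset ℕ → ℕ := fun p =>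
    (∑ i with (p.1.D.blk i : ℕ) ∈ p.2, p.1.D.deg i) / 2 - 1 with hd
  set n : Fin l → ℕ := fun a => cnt Y T' (oJ a) + 1 with hn
  have hcomp : ∀ f : Mor X Y, Bij f T T' → ∀ a, c (per f a) = c' a := by
    intro f hf a
    have h3 := hper f hf a
    obtain ⟨i, h4, h5⟩ := hf.1 (oJ a) (hJ1 a)
    rw [h3, Option.some.injEq] at h4
    subst h4
    exact Prod.ext (gr_src h3).1 h5
  have hxtP : ∀ τ : Equiv.Perm (Fin l), (∀ a, c (τ a) = c' a) → OnP Y (xt τ) := by
    intro τ hτ j
    by_cases hj : ∃ a, oJ a = j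
    · obtain ⟨a, rfl⟩ := hj
      rw [hxt1]
      have h3 : X (oI (τ a)) = Y (oJ a) := congrArg Prod.fst (hτ a)
      rw [← h3]
      exact hx _
    · rw [hxt2 τ j hj]
      exact gr_base hx j
  have hbase : ∀ f : Mor X Y, Bij f T T' → eP Y T' (f.base x) = eP Y T' (xt (per f)) := by
    intro f hf
    refine eP_congr hT' (gr_base hx) (hxtP _ (hcomp f hf)) fun j hj => ?_
    obtain ⟨a, rfl⟩ := hJ2 j hj
    rw [hxt1]
    exact (gr_src (hper f hf a)).2 x
  set F : Mor X Y → ℚ := fun f =>
    γ f * (((koszul f T' * ∏ j with fib T' j ≠ ∅, (f j).sgn (fib T' j) : ℤ)) : ℚ) with hF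
  set β : Equiv.Perm (Fin l) → ℚ := fun τ =>
    ∑ f ∈ γ.support, if Bij f T T' ∧ per f = τ then F f else 0 with hβdef
  set g : Equiv.Perm (Fin l) → VP Y := fun τ => ((kos n τ : ℤ) : ℚ) • eP Y T' (xt τ) with hg
  have hkos : ∀ f : Mor X Y, Bij f T T' → koszul f T' = kos n (per f) := by
    intro f hf
    exact gr_koszul hoI hoJ hJ2 hJ1 (hper f hf)
  -- the conclusion of the second fundamental theorem
  have key : ∑ τ, β τ • g τ = 0 := by
    refine second_fundamental_col c c' d ?_ ?_ ?_
    · rintro τ hτ J₀ ⟨Z, S⟩ hJ₀ hJc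
      have hne : J₀.Nonempty := by
        rw [← Finset.card_pos, hJc]
        exact Nat.succ_pos _
      obtain ⟨a₀, ha₀⟩ := hne
      have hcol : ∀ a ∈ J₀, Y (oJ a) = Z ∧ fib T' (oJ a) = S := by
        intro a ha
        have h3 := hJ₀ a ha
        exact ⟨congrArg Prod.fst h3, congrArg Prod.snd h3⟩
      have hSne : S ≠ ∅ := (hcol a₀ ha₀).2 ▸ hJ1 a₀
      have hSr : ∀ b ∈ S, b < Z.r := by
        intro b hb
        rw [← (hcol a₀ ha₀).2, mem_fib] at hb
        have h3 := mem_blocks.1 (hT' hb)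
        simp only at h3
        rwa [(hcol a₀ ha₀).1] at h3
      obtain ⟨n₀, hn₀, hdeg⟩ := gr_deg Z hSne hSr
      have hJn : J₀.card = n₀ := by
        rw [hJc, hd]
        simp only
        rw [hdeg]
        omega
      have hcnt : ∀ a ∈ J₀, n a =
          (Finset.univ.filter fun i : Fin Z.N => (Z.D.blk i : ℕ) ∈ S).card + 1 := by
        intro a ha
        rw [hn]
        simp only
        unfold cnt
        obtain ⟨h3, h4⟩ := hcol a ha
        subst h3
        congr 2
        ext i
        rw [Finset.mem_filter, Finset.mem_filter, ← h4, mem_fib]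
      have halt := eP_alt hcore hT' (hxtP τ hτ) (J := J₀.map oJ.toEmbedding) (Z := Z) (S := S) hSne
        (by
          intro j hj
          obtain ⟨a, ha, rfl⟩ := Finset.mem_map.1 hj
          exact (hcol a ha).1)
        (by
          intro j hj
          obtain ⟨a, ha, rfl⟩ := Finset.mem_map.1 hj
          exact (hcol a ha).2) (n := n₀) (by rw [Finset.card_map, hJn]) hdeg
        ⟨oJ.toEmbedding a₀, Finset.mem_map_of_mem _ ha₀⟩
      rw [← gr_fixing_sum oJ.toEmbedding J₀ (fun π =>
        (((Equiv.Perm.sign π : ℤ) : ℚ) ^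
          (Finset.univ.filter fun i : Fin Z.N => (Z.D.blk i : ℕ) ∈ S).card) •
            eP Y T' (xt (τ * π)))] at halt
      · have h3 : ∀ π ∈ fixing J₀, ((Equiv.Perm.sign π : ℤ) : ℚ) • g (τ * π) =
            ((kos n τ : ℤ) : ℚ) • ((((Equiv.Perm.sign π : ℤ) : ℚ) ^
              (Finset.univ.filter fun i : Fin Z.N => (Z.D.blk i : ℕ) ∈ S).card) •
                eP Y T' (xt (τ * π))) := by
          intro π hπ
          rw [hg]
          simp only
          rw [kos_mul n τ hcnt hπ, smul_smul, smul_smul]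
          congr 1
          push_cast
          have h4 : ((Equiv.Perm.sign π : ℤ) : ℚ) * ((Equiv.Perm.sign π : ℤ) : ℚ) = 1 := by
            rw [← Int.cast_mul, ← Units.val_mul, Int.units_mul_self]
            simp
          rw [pow_succ]
          linear_combination (((Equiv.Perm.sign π : ℤ) : ℚ) ^
            (Finset.univ.filter fun i : Fin Z.N => (Z.D.blk i : ℕ) ∈ S).card) *
              ((kos n τ : ℤ) : ℚ) * h4
        rw [Finset.sum_congr rfl h3, ← Finset.smul_sum, halt, smul_zero]
      · intro π _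
        rw [gr_sign]
        congr 2
        funext j
        by_cases hj : ∃ a, oJ a = j
        · obtain ⟨a, rfl⟩ := hj
          rw [hxt1]
          show _ = xt τ ((π.viaEmbedding oJ.toEmbedding) (oJ.toEmbedding a))
          rw [Equiv.Perm.viaEmbedding_apply]
          exact (hxt1 τ (π a)).symm
        · rw [hxt2 _ j hj]
          show _ = xt τ ((π.viaEmbedding oJ.toEmbedding) j)
          rw [Equiv.Perm.viaEmbedding_apply_of_notMem _ _ _ hj, hxt2 _ j hj]
    · intro τ hτ a
      rw [hβdef] at hτ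
      simp only at hτ
      obtain ⟨f, -, hf⟩ := Finset.exists_ne_zero_of_sum_ne_zero hτ
      by_cases hc1 : Bij f T T' ∧ per f = τ
      · rw [← hc1.2]
        exact hcomp f hc1.1 a
      · rw [if_neg hc1] at hf
        exact absurd rfl hf
    · intro w w' hw hw'
      set aa : Fin m → ℕ := fun i => if h : ∃ b, oI b = i then w h.choose else 0 with haa
      set bb : Fin m' → ℕ := fun j => if h : ∃ b, oJ b = j then w' h.choose else 0 with hbb
      have haa1 : ∀ b, aa (oI b) = w b := by
        intro b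
        have h3 : ∃ b', oI b' = oI b := ⟨b, rfl⟩
        rw [haa]
        simp only
        rw [dif_pos h3, oI.injective h3.choose_spec]
      have hbb1 : ∀ b, bb (oJ b) = w' b := by
        intro b
        have h3 : ∃ b', oJ b' = oJ b := ⟨b, rfl⟩
        rw [hbb]
        simp only
        rw [dif_pos h3, oJ.injective h3.choose_spec]
      have hformI : IsForm X T aa := by
        refine ⟨fun p hp => mem_blocks.1 (hT hp), fun j => ?_⟩
        by_cases hj : fib T j = ∅
        · rw [if_pos hj, haa]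
          simp only
          rw [dif_neg]
          rintro ⟨b, rfl⟩
          exact hI1 b hj
        · rw [if_neg hj]
          obtain ⟨b, rfl⟩ := hI2 j hj
          rw [haa1]
          have h3 := hw b
          rw [hd, hc] at h3
          simp only [mem_fib] at h3
          omega
      have hformJ : IsForm Y T' bb := by
        refine ⟨fun p hp => mem_blocks.1 (hT' hp), fun j => ?_⟩
        by_cases hj : fib T' j = ∅
        · rw [if_pos hj, hbb]
          simp only
          rw [dif_neg]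
          rintro ⟨b, rfl⟩
          exact hJ1 b hj
        · rw [if_neg hj]
          obtain ⟨b, rfl⟩ := hJ2 j hj
          rw [hbb1]
          have h3 := hw' b
          rw [hd, hc'] at h3
          simp only [mem_fib] at h3
          omega
      have hk := h T aa T' bb hformI hformJ h1 h2
      rw [Finsupp.sum] at hk
      rw [← hk, hβdef]
      simp only
      rw [Finset.sum_comm]
      refine Finset.sum_congr rfl fun f _ => ?_
      have hcond : ((∀ j, fib T' j ≠ ∅ → ∃ i, (f j).src = some i ∧ fib T i = fib T' j ∧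
          aa i = bb j) ∧ ∀ i, fib T i ≠ ∅ → ∃! j, fib T' j ≠ ∅ ∧ (f j).src = some i) ↔
          (Bij f T T' ∧ w ∘ ⇑(per f) = w') := by
        constructor
        · rintro ⟨h3, h4⟩
          have hB : Bij f T T' := by
            refine ⟨fun j hj => ?_, h4⟩
            obtain ⟨i, h5, h6, -⟩ := h3 j hj
            exact ⟨i, h5, h6⟩
          refine ⟨hB, ?_⟩
          funext b
          obtain ⟨i, h5, h6, h7⟩ := h3 (oJ b) (hJ1 b)
          rw [hper f hB b, Option.some.injEq] at h5
          rw [← h5, haa1, hbb1] at h7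
          exact h7
        · rintro ⟨hB, h3⟩
          refine ⟨fun j hj => ?_, hB.2⟩
          obtain ⟨i, h5, h6⟩ := hB.1 j hj
          refine ⟨i, h5, h6, ?_⟩
          obtain ⟨b, rfl⟩ := hJ2 j hj
          rw [hper f hB b, Option.some.injEq] at h5
          rw [← h5, haa1, hbb1]
          exact congrFun h3 b
      unfold pullCoef
      by_cases hB : Bij f T T' ∧ w ∘ ⇑(per f) = w'
      · rw [if_pos (hcond.2 hB)]
        rw [Finset.sum_eq_single (per f)]
        · rw [if_pos ⟨hB.1, rfl⟩]
        · intro τ _ hτ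
          rw [if_neg fun h => hτ h.2.symm]
        · intro hcon
          exfalso
          apply hcon
          simp only [Finset.mem_filter, Finset.mem_univ, true_and]
          exact hB.2
      · rw [if_neg fun h => hB (hcond.1 h), Int.cast_zero, mul_zero]
        refine Finset.sum_eq_zero fun τ hτ => ?_
        rw [if_neg]
        rintro ⟨h3, rfl⟩
        exact hB ⟨h3, by simpa using hτ⟩
  rw [← key, hβdef]
  simp only [Finset.sum_smul]
  rw [Finset.sum_comm, Finset.sum_filter]
  refine Finset.sum_congr rfl fun f _ => ?_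
  by_cases hB : Bij f T T'
  · rw [if_pos hB, Finset.sum_eq_single (per f)]
    · rw [if_pos ⟨hB, rfl⟩, hbase f hB, hg, hF]
      simp only
      rw [smul_smul, hkos f hB]
      congr 1
      have h3 : ((kos n (per f) : ℤ) : ℚ) * ((kos n (per f) : ℤ) : ℚ) = 1 := by
        rw [← Int.cast_mul, kos_sq, Int.cast_one]
      push_cast
      linear_combination -(γ f * (∏ j with fib T' j ≠ ∅, (((f j).sgn (fib T' j) : ℤ) : ℚ))) * h3
    · intro τ _ hτ
      rw [if_neg fun h => hτ h.2.symm, zero_smul]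
    · intro hcon
      exact absurd (Finset.mem_univ _) hcon
  · rw [if_neg hB]
    symm
    refine Finset.sum_eq_zero fun τ _ => ?_
    rw [if_neg fun h => hB h.1, zero_smul]

end Pool.Agent.EFP
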