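import Pool.Agent.EFP.E

/-!
# The filtration
-/

set_option autoImplicit false

noncomputable section

namespace Pool.Agent.EFP

open Pool.Agent.ZCyc Pool.Agent.VFP

universe u

variable {k : Type u} [Field k] [IsAlgClosed k] [CharZero k] {m : ℕ} {X : Fin m → EF k}

omit [IsAlgClosed k] [CharZero k] in
private theorem cnt_mono {T T' : Finset (Fin m × ℕ)} (h : T ⊆ T') (j : Fin m) :
    cnt X T j ≤ cnt X T' j := by
  unfold cnt
  apply Finset.card_le_card
  intro i hi
  simp only [Finset.mem_filter, Finset.mem_univ, true_and] at hi ⊢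
  exact h hi

omit [IsAlgClosed k] [CharZero k] in
theorem wt_mono {T T' : Finset (Fin m × ℕ)} (h : T ⊆ T') : wt X T ≤ wt X T' := by
  unfold wt
  apply Finset.sum_le_sum
  intro j _
  have h1 := cnt_mono (X := X) h j
  split_ifs <;> omega

/-- the projection as a morphism -/
private def pr (X : Fin m → EF k) (U : Finset (Fin m × ℕ)) : Mor X X :=
  fun j => .fac j rfl fun b => if (j, b) ∈ U then 1 else 0

omit [IsAlgClosed k] [CharZero k] in
private theorem pr_app (U : Finset (Fin m × ℕ)) : (pr X U).app = proj X U := rfl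

omit [IsAlgClosed k] [CharZero k] in
private theorem map_proj {U : Finset (Fin m × ℕ)} {z : Pts m k →₀ ℚ} (hz : z ∈ ratEqP X) :
    Finsupp.lmapDomain ℚ ℚ (proj X U) z ∈ ratEqP X :=
  mapDomain_ratEqP (pr X U) hz

omit [IsAlgClosed k] [CharZero k] in
private theorem mk_eq (z : Pts m k →₀ ℚ) :
    (Submodule.Quotient.mk z : VP X) = z.sum fun p c => c • clP X p := by
  conv_lhs => rw [← Finsupp.sum_single z]
  rw [Finsupp.sum, ← Submodule.mkQ_apply, map_sum, Finsupp.sum]
  refine Finset.sum_congr rfl fun p _ => ?_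
  rw [clP, ← Submodule.mkQ_apply, ← map_smul, Finsupp.smul_single, smul_eq_mul, mul_one]

omit [IsAlgClosed k] [CharZero k] in
private theorem mk_map (U : Finset (Fin m × ℕ)) (z : Pts m k →₀ ℚ) :
    (Submodule.Quotient.mk (Finsupp.lmapDomain ℚ ℚ (proj X U) z) : VP X) =
      z.sum fun p c => c • clP X (proj X U p) := by
  rw [mk_eq, Finsupp.lmapDomain_apply, Finsupp.sum_mapDomain_index]
  · intro p
    rw [zero_smul]
  · intro p a b
    rw [add_smul]

/-- the projection acts on the classes `eP` -/
private theorem push_eP {T : Finset (Fin m × ℕ)} (hT : T ⊆ blocks X) {x : Pts m k}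
    (hx : OnP X x) (U : Finset (Fin m × ℕ)) (h : ratEqP X ≤
      (ratEqP X).comap (Finsupp.lmapDomain ℚ ℚ (pr X U).app)) :
    pushV (pr X U) h (eP X T x) = if T ⊆ U then eP X T x else 0 := by
  rw [← eP_proj hT hx U]
  unfold eP
  rw [map_sum]
  refine Finset.sum_congr rfl fun V _ => ?_
  rw [map_smul]
  congr 1
  have h1 : pushV (pr X U) h (clP X (proj X V x)) = clP X (proj X U (proj X V x)) := by
    unfold pushV clP
    rw [Submodule.mapQ_apply, Finsupp.lmapDomain_apply, Finsupp.mapDomain_single]
    rfl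
  rw [h1]
  congr 1
  rw [proj_eq, proj_eq, proj_eq, proj_eq, mulP_mulP, mulP_mulP]
  congr 1
  funext j b
  rw [mul_comm]

private theorem pr_le (U : Finset (Fin m × ℕ)) : ratEqP X ≤
    (ratEqP X).comap (Finsupp.lmapDomain ℚ ℚ (pr X U).app) := fun _ hz => map_proj hz

/-- `→`: apply the projection `π_U`, `wt X U < ν` (use `mapDomain_ratEqP` and `pushV` for the
morphism with the components `.fac j rfl _`) to a class `eP X T x` with `ν ≤ wt X T`: one gets
`eP X T (proj X U x) = 0` by `eP_proj` and `wt_mono`. `←`: `mk z = ∑ T, ∑ x, z x • eP X T x` by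
`clP_eq_sum`, and `∑ x, z x • eP X T x = ∑ U ⊆ T, ± mk (π_U z) = 0` if `wt X T < ν`. -/
theorem mk_mem_FV {ν : ℕ} {z : Pts m k →₀ ℚ} (hz : ∀ p ∈ z.support, OnP X p) :
    (Submodule.Quotient.mk z : VP X) ∈ FV X ν ↔ z ∈ Fil X ν := by
  constructor
  · intro h
    refine ⟨hz, fun U hU => ?_⟩
    have h1 : FV X ν ≤ LinearMap.ker (pushV (pr X U) (pr_le U)) := by
      unfold FV
      rw [Submodule.span_le]
      rintro e ⟨T, x, hx, hT, hν, rfl⟩
      rw [SetLike.mem_coe, LinearMap.mem_ker, push_eP hT hx, if_neg]
      intro hTU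
      have := wt_mono (X := X) hTU
      omega
    have h2 := h1 h
    rw [LinearMap.mem_ker] at h2
    have h3 : pushV (pr X U) (pr_le U) (Submodule.Quotient.mk z) =
        Submodule.Quotient.mk (Finsupp.lmapDomain ℚ ℚ (proj X U) z) := rfl
    rw [h3, Submodule.Quotient.mk_eq_zero] at h2
    exact h2
  · rintro ⟨-, h⟩
    have h1 : (Submodule.Quotient.mk z : VP X) =
        ∑ T ∈ (blocks X).powerset, z.sum fun p c => c • eP X T p := by
      rw [mk_eq]
      unfold Finsupp.sum
      rw [Finset.sum_comm]
      refine Finset.sum_congr rfl fun p hp => ?_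
      beta_reduce
      rw [clP_eq_sum (hz p hp), Finset.smul_sum]
    rw [h1]
    refine Submodule.sum_mem _ fun T hT => ?_
    by_cases hν : ν ≤ wt X T
    · refine Submodule.sum_mem _ fun p hp => Submodule.smul_mem _ _ (Submodule.subset_span ?_)
      exact ⟨T, p, hz p hp, Finset.mem_powerset.1 hT, hν, rfl⟩
    · have h2 : (z.sum fun p c => c • eP X T p) =
          ∑ U ∈ T.powerset, ((-1 : ℚ) ^ (T \ U).card) •
            (Submodule.Quotient.mk (Finsupp.lmapDomain ℚ ℚ (proj X U) z) : VP X) := by
        simp only [mk_map]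
        unfold Finsupp.sum eP
        simp only [Finset.smul_sum]
        rw [Finset.sum_comm]
        refine Finset.sum_congr rfl fun U _ => Finset.sum_congr rfl fun p _ => ?_
        rw [smul_comm]
      rw [h2, Finset.sum_eq_zero]
      · exact zero_mem _
      intro U hU
      have h3 := wt_mono (X := X) (Finset.mem_powerset.1 hU)
      rw [(Submodule.Quotient.mk_eq_zero _).2 (h U (by omega)), smul_zero]

/-- (the support is on the product by `ratEqP_supp`, the projections map `ratEqP X` to itself by
`mapDomain_ratEqP`) -/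
theorem Fil_ge (ν : ℕ) : ratEqP X ≤ Fil X ν := fun _ hz =>
  ⟨(ratEqP_supp hz).1, fun _ _ => map_proj hz⟩

omit [IsAlgClosed k] [CharZero k] in
theorem Fil_anti (ν : ℕ) : Fil X (ν + 1) ≤ Fil X ν := fun _ hz =>
  ⟨hz.1, fun _ hT => hz.2 _ (Nat.lt_succ_of_lt hT)⟩

omit [IsAlgClosed k] [CharZero k] in
theorem Fil_zero (z : Pts m k →₀ ℚ) : z ∈ Fil X 0 ↔ ∀ p ∈ z.support, OnP X p :=
  ⟨fun hz => hz.1, fun hz => ⟨hz, fun T hT => absurd hT (Nat.not_lt_zero _)⟩⟩

omit [IsAlgClosed k] [CharZero k] in
private theorem cnt_eq_zero {T : Finset (Fin m × ℕ)} (h : wt X T < 2) (j : Fin m) :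
    cnt X T j = 0 := by
  by_contra hj
  have h1 : (if cnt X T j = 0 then 0 else cnt X T j + 1) ≤ wt X T :=
    Finset.single_le_sum (f := fun j => if cnt X T j = 0 then 0 else cnt X T j + 1)
      (fun _ _ => Nat.zero_le _) (Finset.mem_univ j)
  rw [if_neg hj] at h1
  omega

private theorem clP_base {x : Pts m k} (hx : OnP X x)
    (hz : ∀ j, ∀ i : Fin (X j).N, (x j).z i = 0) : clP X x = clP X fun _ => oo := by
  classical
  have key : ∀ s : Finset (Fin m), clP X x = clP X fun j => if j ∈ s then oo else x j := by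
    intro s
    induction s using Finset.induction_on with
    | empty => simp
    | insert a s _ ih =>
      rw [ih]
      have hy : OnP X fun j => if j ∈ s then (oo : Pt k) else x j := by
        intro j
        by_cases hj : j ∈ s
        · simpa [hj] using onX_oo (X j)
        · simpa [hj] using hx j
      rw [clP_line hy a]
      · congr 1
        funext j
        by_cases hja : j = a
        · subst hja
          simp
        · rw [Function.update_of_ne hja]
          simp [hja]
      · intro i
        by_cases ha : a ∈ s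
        · simp [ha, oo]
        · simpa [ha] using hz a i
  have h1 := key Finset.univ
  simpa using h1

/-- `→`: use `T = ∅` and `ratEqP_supp` (the degree of a cycle in `ratEqP X` is zero). `←`: `wt X T
= 0` means that all indices of all factors are at the zero section, so the classes of the points
`π_T x` are all equal to the class of the base point (`clP_line`). -/
theorem Fil_one (z : Pts m k →₀ ℚ) :
    z ∈ Fil X 1 ↔ (∀ p ∈ z.support, OnP X p) ∧ (z.sum fun _ c => c) = 0 := by
  constructor
  · rintro ⟨h1, h2⟩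
    refine ⟨h1, ?_⟩
    have h3 : wt X (∅ : Finset (Fin m × ℕ)) < 1 := by
      have h4 : wt X (∅ : Finset (Fin m × ℕ)) = 0 := by
        unfold wt
        apply Finset.sum_eq_zero
        intro j _
        rw [if_pos]
        simp [cnt]
      omega
    have h4 := (ratEqP_supp (h2 ∅ h3)).2
    rw [Finsupp.lmapDomain_apply, Finsupp.sum_mapDomain_index (fun _ => rfl)
      (fun _ _ _ => rfl)] at h4
    exact h4
  · rintro ⟨h1, h2⟩
    refine ⟨h1, fun T hT => ?_⟩
    rw [← Submodule.Quotient.mk_eq_zero, mk_map]
    have h3 : (z.sum fun p c => c • clP X (proj X T p)) =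
        z.sum fun _ c => c • clP X fun _ => oo := by
      refine Finset.sum_congr rfl fun p hp => ?_
      beta_reduce
      rw [clP_base (onP_proj (h1 p hp) T)]
      intro j i
      have h4 : cnt X T j = 0 := cnt_eq_zero (by omega) j
      unfold cnt at h4
      rw [Finset.card_eq_zero, Finset.filter_eq_empty_iff] at h4
      have h5 := h4 (Finset.mem_univ i)
      change (if (if (j, (X j).bk i) ∈ T then (1 : SignType) else 0) = 0 then (0 : k)
        else (p j).z i) = 0
      rw [bk_eq, if_neg h5, if_pos rfl]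
    rw [h3, Finsupp.sum, ← Finset.sum_smul]
    have h4 : ∑ p ∈ z.support, z p = 0 := h2
    rw [h4, zero_smul]

/-- (there is no `T` with `wt X T = 1`) -/
theorem Fil_two : Fil X 2 = Fil X 1 := by
  apply le_antisymm (Fil_anti 1)
  rintro z ⟨h1, h2⟩
  refine ⟨h1, fun T hT => h2 T ?_⟩
  have h3 : wt X T = 0 := by
    unfold wt
    apply Finset.sum_eq_zero
    intro j _
    rw [if_pos (cnt_eq_zero hT j)]
  omega

/-- `≤`: use `T = blocks X`, whose projection does not change the relevant coordinates. -/
theorem Fil_top : Fil X ((∑ j, (X j).dim) + 1) = ratEqP X := by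
  apply le_antisymm _ (Fil_ge _)
  rintro z ⟨h1, h2⟩
  have h3 : wt X (blocks X) < (∑ j, (X j).dim) + 1 := by
    apply Nat.lt_succ_of_le
    unfold wt
    apply Finset.sum_le_sum
    intro j _
    have h4 : cnt X (blocks X) j ≤ (X j).N := by
      unfold cnt
      refine (Finset.card_filter_le _ _).trans ?_
      rw [Finset.card_univ, Fintype.card_fin]
    unfold EF.dim
    split_ifs <;> omega
  have h4 := h2 _ h3
  rw [← Submodule.Quotient.mk_eq_zero, mk_map] at h4
  rw [← Submodule.Quotient.mk_eq_zero, mk_eq, ← h4]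
  refine Finset.sum_congr rfl fun p hp => ?_
  beta_reduce
  rw [proj_eq, clP_mulP_congr (h1 p hp) (ε' := fun _ _ => 1)]
  · congr 2
    funext j
    unfold mulP EF.mul
    ext b
    · rfl
    · simp
    · simp
    · simp
  · intro q hq
    rw [if_pos]
    exact hq

end Pool.Agent.EFP
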