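import Pool.Agent.EFP.PFil
import Pool.Agent.EFP.Weight

/-!
# The push-forward of the classes `eP`
-/

set_option autoImplicit false

noncomputable section

namespace Pool.Agent.EFP

open Pool.Agent.ZCyc Pool.Agent.VFP

universe u

variable {k : Type u} [Field k] [IsAlgClosed k] [CharZero k] {m m' : ℕ} {X : Fin m → EF k}
  {Y : Fin m' → EF k}

/-- the push-forward of classes by a morphism -/
def pushW (f : Mor X Y) : VP X →ₗ[ℚ] VP Y :=
  (ratEqP X).mapQ (ratEqP Y) (Finsupp.lmapDomain ℚ ℚ f.app) fun _ hz => mapDomain_ratEqP f hz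

theorem pushW_clP (f : Mor X Y) (y : Pts m k) : pushW f (clP X y) = clP Y (f.app y) := by
  have h : pushW f (clP X y) =
      Submodule.Quotient.mk (Finsupp.mapDomain f.app (Finsupp.single y (1 : ℚ))) := rfl
  rw [h, Finsupp.mapDomain_single]
  rfl

omit [IsAlgClosed k] [CharZero k] in
/-- multiplication by one -/
private theorem mul_one_eq (Z : EF k) {K : Type*} [Field K] (w : Pt K) :
    Z.mul (fun _ => 1) w = w := by
  refine Pt.ext rfl ?_ ?_ ?_
  · funext i
    simp [EF.mul]
  · funext i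
    simp [EF.mul]
  · funext b
    simp [EF.mul]

omit [IsAlgClosed k] [CharZero k] in
private theorem mul_comm_eq (Z : EF k) {K : Type*} [Field K] (ε ε' : ℕ → SignType) (w : Pt K) :
    Z.mul ε (Z.mul ε' w) = Z.mul ε' (Z.mul ε w) := by
  refine Pt.ext rfl ?_ ?_ ?_
  · funext i
    show (if ε (Z.bk i) = 0 then (1 : K) else if ε' (Z.bk i) = 0 then 1 else w.x i) =
      if ε' (Z.bk i) = 0 then (1 : K) else if ε (Z.bk i) = 0 then 1 else w.x i
    split_ifs <;> rfl
  · funext i
    show (if ε (Z.bk i) = 0 then (0 : K) else if ε' (Z.bk i) = 0 then 0 else w.z i) =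
      if ε' (Z.bk i) = 0 then (0 : K) else if ε (Z.bk i) = 0 then 0 else w.z i
    split_ifs <;> rfl
  · funext b
    show (((ε b : SignType) : ℤ) : K) * ((((ε' b : SignType) : ℤ) : K) * w.y b) =
      (((ε' b : SignType) : ℤ) : K) * ((((ε b : SignType) : ℤ) : K) * w.y b)
    ring

open Classical in
/-- the multipliers on `Y` which correspond to the projection `π_U` of `X` -/
private def mult (f : Mor X Y) (U : Finset (Fin m × ℕ)) (j : Fin m') (b : ℕ) : SignType :=
  match (f j).src with
  | none => 1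
  | some i => if (i, b) ∈ U then 1 else 0

omit [IsAlgClosed k] [CharZero k] in
private theorem app_proj (f : Mor X Y) (U : Finset (Fin m × ℕ)) (x : Pts m k) :
    f.app (proj X U x) = mulP Y (mult f U) (f.app x) := by
  funext j
  show (f j).app (proj X U x) = (Y j).mul (mult f U j) ((f j).app x)
  cases hf : f j with
  | const w hw =>
    have e : mult f U j = fun _ => 1 := by
      funext b
      simp [mult, hf, Comp.src]
    rw [e, mul_one_eq]
    rfl
  | fac i h ε =>
    have e : mult f U j = fun b => if (i, b) ∈ U then 1 else 0 := by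
      funext b
      simp [mult, hf, Comp.src]
    rw [e]
    show (Y j).mul ε ((X i).mul (fun b => if (i, b) ∈ U then 1 else 0) (x i)) =
      (Y j).mul (fun b => if (i, b) ∈ U then 1 else 0) ((Y j).mul ε (x i))
    rw [h, mul_comm_eq]

omit [IsAlgClosed k] [CharZero k] in
private theorem mem_srcT {f : Mor X Y} {T' : Finset (Fin m' × ℕ)} {i : Fin m} {b : ℕ} :
    (i, b) ∈ srcT f T' ↔ ∃ j, (j, b) ∈ T' ∧ (f j).src = some i := by
  unfold srcT
  rw [Finset.mem_biUnion]
  constructor
  · rintro ⟨p, hp, h⟩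
    cases hs : (f p.1).src with
    | none =>
      rw [hs] at h
      exact absurd h (Finset.notMem_empty _)
    | some i' =>
      rw [hs] at h
      have h1 := Finset.mem_singleton.1 h
      obtain ⟨h2, h3⟩ := Prod.ext_iff.1 h1
      simp only at h2 h3
      refine ⟨p.1, ?_, ?_⟩
      · rw [h3]
        exact hp
      · rw [hs, h2]
  · rintro ⟨j, hj, hs⟩
    refine ⟨(j, b), hj, ?_⟩
    simp only [hs]
    exact Finset.mem_singleton_self _

omit [IsAlgClosed k] [CharZero k] in
open Classical in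
private theorem prod_mult (f : Mor X Y) (U : Finset (Fin m × ℕ)) (T' : Finset (Fin m' × ℕ)) :
    (∏ p ∈ T', (((mult f U p.1 p.2 : SignType) : ℤ) : ℚ)) = if srcT f T' ⊆ U then 1 else 0 := by
  split_ifs with h
  · refine Finset.prod_eq_one fun p hp => ?_
    unfold mult
    cases hs : (f p.1).src with
    | none => simp
    | some i =>
      have h1 : (i, p.2) ∈ U := h (mem_srcT.2 ⟨p.1, hp, hs⟩)
      simp [h1]
  · rw [Finset.not_subset] at h
    obtain ⟨⟨i, b⟩, h1, h2⟩ := h
    obtain ⟨j, hj, hs⟩ := mem_srcT.1 h1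
    refine Finset.prod_eq_zero hj ?_
    unfold mult
    simp only [hs, h2, if_false]
    simp

/-- the class of the image of `π_U x` -/
private theorem eP_app_proj (f : Mor X Y) {T' : Finset (Fin m' × ℕ)} (hT' : T' ⊆ blocks Y)
    {x : Pts m k} (hx : OnP X x) (U : Finset (Fin m × ℕ)) :
    eP Y T' (f.app (proj X U x)) = (if srcT f T' ⊆ U then (1 : ℚ) else 0) • eP Y T' (f.app x) := by
  classical
  rw [app_proj, eP_mul hT' (f.onP hx), prod_mult]

private theorem incl_excl {α : Type*} [DecidableEq α] (V T : Finset α) (hV : V ⊆ T) :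
    ∑ U ∈ T.powerset, (-1 : ℚ) ^ (T \ U).card * (if V ⊆ U then (1 : ℚ) else 0) =
      if V = T then 1 else 0 := by
  have h := Finset.prod_add (fun _ : α => (1 : ℚ)) (fun p => if p ∈ V then 0 else -1) T
  have h1 : ∏ p ∈ T, ((1 : ℚ) + if p ∈ V then 0 else -1) = if V = T then 1 else 0 := by
    split_ifs with h2
    · subst h2
      refine Finset.prod_eq_one fun p hp => ?_
      rw [if_pos hp, add_zero]
    · obtain ⟨p, hp, hp'⟩ := Finset.exists_of_ssubset (lt_of_le_of_ne hV h2)
      refine Finset.prod_eq_zero hp ?_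
      rw [if_neg hp']
      norm_num
  rw [← h1, h]
  refine Finset.sum_congr rfl fun U hU => ?_
  rw [Finset.prod_const_one, one_mul]
  split_ifs with h2
  · rw [mul_one, Finset.card_eq_sum_ones, ← Finset.prod_pow_eq_pow_sum]
    refine Finset.prod_congr rfl fun p hp => ?_
    rw [if_neg, pow_one]
    intro h3
    exact (Finset.mem_sdiff.1 hp).2 (h2 h3)
  · rw [mul_zero, eq_comm]
    rw [Finset.not_subset] at h2
    obtain ⟨p, hp, hp'⟩ := h2
    exact Finset.prod_eq_zero (Finset.mem_sdiff.2 ⟨hV hp, hp'⟩) (if_pos hp)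

private theorem incl_excl' {α : Type*} [DecidableEq α] (V T : Finset α) :
    ∑ U ∈ T.powerset, (-1 : ℚ) ^ (T \ U).card * (if V ⊆ U then (1 : ℚ) else 0) =
      if V = T then 1 else 0 := by
  by_cases hV : V ⊆ T
  · exact incl_excl V T hV
  · rw [if_neg fun h => hV h.subset]
    refine Finset.sum_eq_zero fun U hU => ?_
    rw [if_neg, mul_zero]
    intro h
    exact hV (h.trans (Finset.mem_powerset.1 hU))

/-- `f_* [π_U x] = ∑ T' ⊆ blocks Y, eP Y T' (f (π_U x))` by `clP_eq_sum`. By `eP_congr` and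
`eP_mul` we have `eP Y T' (f (π_U x)) = eP Y T' (f x)` if `srcT f T' ⊆ U`, and `0` otherwise (the
constant components do not matter). Now sum over `U ⊆ T` with the signs: `∑ U, V ⊆ U ⊆ T, (-1) ^ |T
\ U|` is `1` if `V = T` and `0` otherwise. -/
theorem pushW_eP (f : Mor X Y) {T : Finset (Fin m × ℕ)} (hT : T ⊆ blocks X) {x : Pts m k}
    (hx : OnP X x) : pushW f (eP X T x) =
      ∑ T' ∈ (blocks Y).powerset with srcT f T' = T, eP Y T' (f.app x) := by
  classical
  have h1 : ∀ U ∈ T.powerset, pushW f (((-1 : ℚ) ^ (T \ U).card) • clP X (proj X U x)) =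
      ∑ T' ∈ (blocks Y).powerset, ((-1 : ℚ) ^ (T \ U).card *
        (if srcT f T' ⊆ U then (1 : ℚ) else 0)) • eP Y T' (f.app x) := by
    intro U _
    rw [map_smul, pushW_clP, clP_eq_sum (f.onP (onP_proj hx U)), Finset.smul_sum]
    refine Finset.sum_congr rfl fun T' hT' => ?_
    rw [eP_app_proj f (Finset.mem_powerset.1 hT') hx, smul_smul]
  have h2 : eP X T x = ∑ U ∈ T.powerset, ((-1 : ℚ) ^ (T \ U).card) • clP X (proj X U x) := rfl
  rw [h2, map_sum, Finset.sum_congr rfl h1, Finset.sum_comm, Finset.sum_filter]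
  refine Finset.sum_congr rfl fun T' _ => ?_
  rw [← Finset.sum_smul, incl_excl']
  split_ifs
  · rw [one_smul]
  · rw [zero_smul]

end Pool.Agent.EFP
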